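import Pool.Agent.MP_c1dca2_ag.SC2.H1

set_option autoImplicit false

open Polynomial

namespace SC2

/-! ## [SC2-H3] the height of the addition-subtraction map (file H3.lean) -/

theorem delta_ne_zero {F : Type} [Field F] {e : Fin 3 → F} (hc : Cv e) : (EC e).Δ ≠ 0 := by
  have h01 : e 0 - e 1 ≠ 0 := sub_ne_zero.2 (fun h => absurd (hc.inj h) (by decide))
  have h12 : e 1 - e 2 ≠ 0 := sub_ne_zero.2 (fun h => absurd (hc.inj h) (by decide))
  have h20 : e 2 - e 0 ≠ 0 := sub_ne_zero.2 (fun h => absurd (hc.inj h) (by decide))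
  have h : (EC e).Δ = 2 ^ 4 * ((e 0 - e 1) ^ 2 * (e 1 - e 2) ^ 2 * (e 2 - e 0) ^ 2) := by
    simp only [WeierstrassCurve.Δ, WeierstrassCurve.b₂, WeierstrassCurve.b₄, WeierstrassCurve.b₆,
      WeierstrassCurve.b₈, EC]
    ring
  rw [h]
  exact mul_ne_zero (pow_ne_zero _ hc.two)
    (mul_ne_zero (mul_ne_zero (pow_ne_zero _ h01) (pow_ne_zero _ h12)) (pow_ne_zero _ h20))

/-- the three quadratic forms -/
private def h3_form {R : Type} [CommRing R] (b2 b4 b6 b8 : R) (v : Fin 3 → R) : Fin 3 → R :=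
  ![v 0 ^ 2 - b4 * v 0 * v 2 - b6 * v 1 * v 2 - b8 * v 2 ^ 2,
    2 * v 1 * v 0 + b2 * v 0 * v 2 + b4 * v 1 * v 2 + b6 * v 2 ^ 2,
    v 1 ^ 2 - 4 * v 0 * v 2]

private theorem h3_eval {R : Type} [CommRing R] (W : WeierstrassCurve R) (v : Fin 3 → R)
    (i : Fin 3) : MvPolynomial.eval v (W.addSubMap i) = h3_form W.b₂ W.b₄ W.b₆ W.b₈ v i := by
  fin_cases i <;> simp [WeierstrassCurve.addSubMap, h3_form]

private theorem h3_map {R S : Type} [CommRing R] [CommRing S] (φ : R →+* S) (b2 b4 b6 b8 : R)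
    (v : Fin 3 → R) (i : Fin 3) :
    φ (h3_form b2 b4 b6 b8 v i) = h3_form (φ b2) (φ b4) (φ b6) (φ b8) (fun j => φ (v j)) i := by
  have c2 : φ 2 = 2 := map_ofNat φ 2
  have c4 : φ 4 = 4 := map_ofNat φ 4
  fin_cases i <;> simp [h3_form, c2, c4]

private theorem h3_scale {R : Type} [CommRing R] (b2 b4 b6 b8 c : R)
    (v : Fin 3 → R) (i : Fin 3) :
    h3_form b2 b4 b6 b8 (fun j => c * v j) i = c ^ 2 * h3_form b2 b4 b6 b8 v i := by
  fin_cases i <;> simp [h3_form] <;> ring

private theorem h3_coeff {κ : Type} [Field κ] (b2 b4 b6 b8 : κ) (p : Fin 3 → κ[X]) {n : ℕ}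
    (hp : ∀ i, (p i).natDegree ≤ n) (i : Fin 3) :
    (h3_form (C b2) (C b4) (C b6) (C b8) p i).natDegree ≤ 2 * n ∧
      (h3_form (C b2) (C b4) (C b6) (C b8) p i).coeff (2 * n) =
        h3_form b2 b4 b6 b8 (fun j => (p j).coeff n) i := by
  have hm : ∀ i j, (p i * p j).natDegree ≤ 2 * n := by
    intro i j
    have := natDegree_mul_le (p := p i) (q := p j)
    have h1 := hp i
    have h2 := hp j
    omega
  have hcm : ∀ i j, (p i * p j).coeff (2 * n) = (p i).coeff n * (p j).coeff n := by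
    intro i j
    rw [two_mul]
    exact coeff_mul_add_eq_of_natDegree_le (hp i) (hp j)
  have hC : ∀ (a : κ) i j, (C a * (p i * p j)).natDegree ≤ 2 * n := by
    intro a i j
    exact (natDegree_C_mul_le a _).trans (hm i j)
  have hsub : ∀ f g : κ[X], f.natDegree ≤ 2 * n → g.natDegree ≤ 2 * n →
      (f - g).natDegree ≤ 2 * n := fun f g hf hg =>
    (natDegree_sub_le f g).trans (max_le hf hg)
  have c2 : (C (2 : κ) : κ[X]) = 2 := map_ofNat C 2
  have c4 : (C (4 : κ) : κ[X]) = 4 := map_ofNat C 4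
  have e0 : h3_form (C b2) (C b4) (C b6) (C b8) p 0 =
      p 0 * p 0 - C b4 * (p 0 * p 2) - C b6 * (p 1 * p 2) - C b8 * (p 2 * p 2) := by
    simp [h3_form]; ring
  have e1 : h3_form (C b2) (C b4) (C b6) (C b8) p 1 =
      C 2 * (p 1 * p 0) + C b2 * (p 0 * p 2) + C b4 * (p 1 * p 2) + C b6 * (p 2 * p 2) := by
    rw [c2]; simp [h3_form]; ring
  have e2 : h3_form (C b2) (C b4) (C b6) (C b8) p 2 = p 1 * p 1 - C 4 * (p 0 * p 2) := by
    rw [c4]; simp [h3_form]; ring
  fin_cases i
  · constructor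
    · change (h3_form (C b2) (C b4) (C b6) (C b8) p 0).natDegree ≤ 2 * n
      rw [e0]
      exact hsub _ _ (hsub _ _ (hsub _ _ (hm 0 0) (hC _ _ _)) (hC _ _ _)) (hC _ _ _)
    · change (h3_form (C b2) (C b4) (C b6) (C b8) p 0).coeff (2 * n) = h3_form b2 b4 b6 b8 _ 0
      rw [e0]
      simp only [coeff_sub, coeff_C_mul, hcm]
      simp [h3_form]
      ring
  · constructor
    · change (h3_form (C b2) (C b4) (C b6) (C b8) p 1).natDegree ≤ 2 * n
      rw [e1]
      exact natDegree_add_le_of_degree_le (natDegree_add_le_of_degree_le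
        (natDegree_add_le_of_degree_le (hC _ _ _) (hC _ _ _)) (hC _ _ _)) (hC _ _ _)
    · change (h3_form (C b2) (C b4) (C b6) (C b8) p 1).coeff (2 * n) = h3_form b2 b4 b6 b8 _ 1
      rw [e1]
      simp only [coeff_add, coeff_C_mul, hcm]
      simp [h3_form]
      ring
  · constructor
    · change (h3_form (C b2) (C b4) (C b6) (C b8) p 2).natDegree ≤ 2 * n
      rw [e2]
      exact hsub _ _ (hm 1 1) (hC _ _ _)
    · change (h3_form (C b2) (C b4) (C b6) (C b8) p 2).coeff (2 * n) = h3_form b2 b4 b6 b8 _ 2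
      rw [e2]
      simp only [coeff_sub, coeff_C_mul, hcm]
      simp [h3_form]
      ring

private theorem h3_ec {κ K : Type} [Field κ] [Field K] (φ : κ →+* K) (e : Fin 3 → κ) :
    EC (fun i => φ (e i)) = (EC e).map φ := by
  simp [EC, WeierstrassCurve.map]

private theorem h3_isElliptic {F : Type} [Field F] {e : Fin 3 → F} (hc : Cv e) :
    (EC e).IsElliptic := ⟨(delta_ne_zero hc).isUnit⟩

/-- `WeierstrassCurve.addSubMapCoeff_condition`: fourth powers of the variables are combinations of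
the three quadratic forms. With polynomials as coordinates this shows that the values generate the
unit ideal if the coordinates do, and with the leading coefficients (`addSubMap_ne_zero`) that the
degree is exactly doubled. (`EC` of the constants `e i` over `κ`, `κ[X]`, `κ(t)`; the forms have
coefficients in `κ`; use `WeierstrassCurve.map` or unfold and `ring`.) -/
theorem IsHt.addSub {κ : Type} [Field κ] {e : Fin 3 → κ} (hc : Cv e)
    {v : Fin 3 → RatFunc κ} {n : ℕ} (h : IsHt v n) :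
    IsHt (SC2.addSub (fun i => algebraMap κ (RatFunc κ) (e i)) v) (2 * n) := by
  obtain ⟨p, c, hc0, hp, ⟨a, ha⟩, hdeg, i₀, hi₀⟩ := h
  have hell := h3_isElliptic hc
  set W : WeierstrassCurve κ := EC e with hW
  set WP : WeierstrassCurve κ[X] := W.map (C : κ →+* κ[X]) with hWP
  have hellP : WP.IsElliptic := inferInstance
  set q : Fin 3 → κ[X] := fun j => MvPolynomial.eval p (WP.addSubMap j) with hq
  have hq' : ∀ j, q j = h3_form (C W.b₂) (C W.b₄) (C W.b₆) (C W.b₈) p j := by
    intro j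
    simp only [hq]
    rw [h3_eval]
    simp only [hWP, WeierstrassCurve.map_b₂, WeierstrassCurve.map_b₄, WeierstrassCurve.map_b₆,
      WeierstrassCurve.map_b₈]
  refine ⟨q, c ^ 2, pow_ne_zero _ hc0, ?_, ?_, ?_, ?_⟩
  · intro j
    rw [hq', h3_map]
    simp only [hp]
    rw [h3_scale]
    congr 1
    simp only [SC2.addSub]
    rw [h3_eval, h3_ec (algebraMap κ (RatFunc κ)) e]
    simp only [WeierstrassCurve.map_b₂, WeierstrassCurve.map_b₄, WeierstrassCurve.map_b₆,
      WeierstrassCurve.map_b₈]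
    have hC : ∀ x : κ, algebraMap κ[X] (RatFunc κ) (C x) = algebraMap κ (RatFunc κ) x := by
      intro x
      exact (IsScalarTower.algebraMap_apply κ κ[X] (RatFunc κ) x).symm
    simp only [hC]
    rfl
  · have h1 : Ideal.span (Set.range p) = ⊤ := by
      rw [Ideal.eq_top_iff_one, ← ha]
      exact Ideal.sum_mem _ fun i _ => Ideal.mul_mem_left _ _ (Ideal.subset_span ⟨i, rfl⟩)
    have h2 := Ideal.span_pow_eq_top _ h1 4
    have h3 : Ideal.span (Set.range q) = ⊤ := by
      rw [eq_top_iff, ← h2, Ideal.span_le]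
      rintro _ ⟨_, ⟨i, rfl⟩, rfl⟩
      have h4 := WP.addSubMapCoeff_condition p i
      simp only
      rw [← h4]
      exact Ideal.sum_mem _ fun j _ => Ideal.mul_mem_left _ _ (Ideal.subset_span ⟨j, rfl⟩)
    have h5 : (1 : κ[X]) ∈ Ideal.span (Set.range q) := by rw [h3]; trivial
    rw [Ideal.mem_span_range_iff_exists_fun] at h5
    exact h5
  · intro j
    rw [hq']
    exact (h3_coeff _ _ _ _ p hdeg j).1
  · have h1 : (fun j => (p j).coeff n) ≠ 0 := by
      intro h0
      exact hi₀ (congrFun h0 i₀)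
    have h2 := W.addSubMap_ne_zero h1
    rw [Function.ne_iff] at h2
    obtain ⟨j, hj⟩ := h2
    refine ⟨j, ?_⟩
    rw [hq', (h3_coeff _ _ _ _ p hdeg j).2, ← h3_eval]
    exact hj

end SC2
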