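import Pool.Agent.MP_c1dca2_ag.SC2.Base

set_option autoImplicit false

namespace SC2

/-! ## [SC2-E5] the points of order `2` (file E5.lean) -/

theorem two_torsion {F : Type} [Field F] {e : Fin 3 → F} (hc : Cv e) (P : Pt e)
    (h : P + P = 0) : P = 0 ∨ ∃ (i : Fin 3) (h' : OnC e (e i) 0), P = aff hc (e i) 0 h' := by
  rcases pt_cases hc P with h0 | ⟨x, y, hxy, rfl⟩
  · exact Or.inl h0
  · right
    have hy : y = 0 := (aff_two_zero hc x y hxy).1 h
    subst hy
    have h1 : (x - e 0) * (x - e 1) * (x - e 2) = 0 := by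
      rw [OnC] at hxy
      rw [← hxy]
      ring
    rcases mul_eq_zero.1 h1 with h2 | h2
    · rcases mul_eq_zero.1 h2 with h3 | h3
      · have hx : x = e 0 := sub_eq_zero.1 h3
        subst hx
        exact ⟨0, hxy, rfl⟩
      · have hx : x = e 1 := sub_eq_zero.1 h3
        subst hx
        exact ⟨1, hxy, rfl⟩
    · have hx : x = e 2 := sub_eq_zero.1 h2
      subst hx
      exact ⟨2, hxy, rfl⟩

private theorem e5_perm {F : Type} [Field F] (e : Fin 3 → F) (i j k : Fin 3)
    (hij : i ≠ j) (hik : i ≠ k) (hjk : j ≠ k) :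
    e 0 + e 1 + e 2 = e i + e j + e k ∧
      ∀ x : F, (x - e 0) * (x - e 1) * (x - e 2) = (x - e i) * (x - e j) * (x - e k) := by
  fin_cases i <;> fin_cases j <;> fin_cases k <;>
    first
      | exact absurd rfl hij
      | exact absurd rfl hik
      | exact absurd rfl hjk
      | exact ⟨by dsimp only [Fin.zero_eta, Fin.mk_one, Fin.reduceFinMk] <;> ring,
          fun x => by dsimp only [Fin.zero_eta, Fin.mk_one, Fin.reduceFinMk] <;> ring⟩

/-- Translation by a point of order `2`: `add_aff_of_ne` with `l = y / (x - e i)`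
(`y² = (x - e i) (x - e j) (x - e k)`). -/
theorem add_two_torsion {F : Type} [Field F] {e : Fin 3 → F} (hc : Cv e) (i j k : Fin 3)
    (hij : i ≠ j) (hik : i ≠ k) (hjk : j ≠ k) (x y : F) (h : OnC e x y) (hx : x ≠ e i)
    (h0 : OnC e (e i) 0) :
    ∃ h', aff hc x y h + aff hc (e i) 0 h0 =
      aff hc (e i + (e i - e j) * (e i - e k) / (x - e i))
        (-(y * ((e i - e j) * (e i - e k))) / (x - e i) ^ 2) h' := by
  obtain ⟨hs, hp⟩ := e5_perm e i j k hij hik hjk
  have hxi : x - e i ≠ 0 := sub_ne_zero.2 hx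
  have hy2 : y ^ 2 = (x - e i) * (x - e j) * (x - e k) := by
    rw [← hp x]
    exact h
  apply add_aff_of_ne hc x y h (e i) 0 h0 hx (y / (x - e i))
  · rw [div_mul_cancel₀ _ hxi, sub_zero]
  · rw [div_pow, hs, hy2]
    field_simp
    ring
  · field_simp
    ring

end SC2
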