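import Pool.Agent.MP_c1dca2_ag.SC2.Base

set_option autoImplicit false

namespace SC2

/-! ## [SC2-E6] the addition-subtraction map (file E6.lean) -/

section E6aux

variable {F : Type} [Field F]

private theorem e6_0 (e : Fin 3 → F) (s t u : F) : addSub e ![s, t, u] 0 =
    s ^ 2 - 2 * (e 0 * e 1 + e 1 * e 2 + e 2 * e 0) * s * u
      + 4 * (e 0 * e 1 * e 2) * t * u
      - (4 * (e 0 + e 1 + e 2) * (e 0 * e 1 * e 2) -
        (e 0 * e 1 + e 1 * e 2 + e 2 * e 0) ^ 2) * u ^ 2 := by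
  simp only [addSub, WeierstrassCurve.addSubMap, WeierstrassCurve.b₄, WeierstrassCurve.b₆,
    WeierstrassCurve.b₈, EC]
  simp
  left
  ring

private theorem e6_1 (e : Fin 3 → F) (s t u : F) : addSub e ![s, t, u] 1 =
    2 * t * s - 4 * (e 0 + e 1 + e 2) * s * u
      + 2 * (e 0 * e 1 + e 1 * e 2 + e 2 * e 0) * t * u - 4 * (e 0 * e 1 * e 2) * u ^ 2 := by
  simp only [addSub, WeierstrassCurve.addSubMap, WeierstrassCurve.b₂, WeierstrassCurve.b₄,
    WeierstrassCurve.b₆, EC]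
  simp
  ring

private theorem e6_2 (e : Fin 3 → F) (s t u : F) : addSub e ![s, t, u] 2 =
    t ^ 2 - 4 * s * u := by
  simp only [addSub, WeierstrassCurve.addSubMap]
  simp

private theorem e6_sym (a b c d : F) : sym2 ![a, b] ![c, d] = ![a * c, a * d + b * c, b * d] := by
  simp [sym2]

private theorem e6_ne {e : Fin 3 → F} (hc : Cv e) (i j : Fin 3) (hij : i ≠ j) :
    e i - e j ≠ 0 := sub_ne_zero.2 fun h => hij (hc.inj h)

/-- the doubling case -/
private theorem e6_dbl {e : Fin 3 → F} (hc : Cv e) (x y : F) (h : OnC e x y) (hy : y ≠ 0) :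
    ∃ x₃ y₃ : F, ∃ h₃ : OnC e x₃ y₃, aff hc x y h + aff hc x y h = aff hc x₃ y₃ h₃ ∧
      addSub e ![x * x, x + x, 1] 0 = 4 * y ^ 2 * x₃ ∧
      addSub e ![x * x, x + x, 1] 1 = 4 * y ^ 2 ∧ addSub e ![x * x, x + x, 1] 2 = 0 := by
  have h2y : 2 * y ≠ 0 := mul_ne_zero hc.two hy
  obtain ⟨l, hl⟩ : ∃ l : F, l * (2 * y) =
      (x - e 0) * (x - e 1) + (x - e 1) * (x - e 2) + (x - e 2) * (x - e 0) :=
    ⟨((x - e 0) * (x - e 1) + (x - e 1) * (x - e 2) + (x - e 2) * (x - e 0)) / (2 * y),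
      div_mul_cancel₀ _ h2y⟩
  obtain ⟨h₃, h4⟩ := add_aff_self hc x y h l _ _ hy hl rfl rfl
  refine ⟨_, _, h₃, h4, ?_, ?_, ?_⟩
  · rw [e6_0]
    rw [OnC] at h
    linear_combination (-(l * (2 * y)) - ((x - e 0) * (x - e 1) + (x - e 1) * (x - e 2) +
      (x - e 2) * (x - e 0))) * hl - 4 * ((e 0 + e 1 + e 2) - 2 * x) * h
  · rw [e6_1]
    rw [OnC] at h
    linear_combination -4 * h
  · rw [e6_2]
    ring

/-- two points with different `x`-coordinates -/
private theorem e6_gen {e : Fin 3 → F} (hc : Cv e) (x₁ y₁ : F) (h₁ : OnC e x₁ y₁) (x₂ y₂ : F)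
    (h₂ : OnC e x₂ y₂) (hx : x₁ ≠ x₂) :
    ∃ x₃ y₃ : F, ∃ h₃ : OnC e x₃ y₃, ∃ x₄ y₄ : F, ∃ h₄ : OnC e x₄ y₄,
      aff hc x₁ y₁ h₁ + aff hc x₂ y₂ h₂ = aff hc x₃ y₃ h₃ ∧
      aff hc x₁ y₁ h₁ - aff hc x₂ y₂ h₂ = aff hc x₄ y₄ h₄ ∧
      addSub e ![x₁ * x₂, x₁ + x₂, 1] 0 = (x₁ - x₂) ^ 2 * (x₃ * x₄) ∧
      addSub e ![x₁ * x₂, x₁ + x₂, 1] 1 = (x₁ - x₂) ^ 2 * (x₃ + x₄) ∧
      addSub e ![x₁ * x₂, x₁ + x₂, 1] 2 = (x₁ - x₂) ^ 2 := by
  have hd : x₁ - x₂ ≠ 0 := sub_ne_zero.2 hx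
  obtain ⟨l, hl⟩ : ∃ l : F, l * (x₁ - x₂) = y₁ - y₂ := ⟨_, div_mul_cancel₀ _ hd⟩
  obtain ⟨m, hm⟩ : ∃ m : F, m * (x₁ - x₂) = y₁ - (-y₂) := ⟨_, div_mul_cancel₀ _ hd⟩
  obtain ⟨h₃, h5⟩ := add_aff_of_ne hc x₁ y₁ h₁ x₂ y₂ h₂ hx l _ _ hl rfl rfl
  obtain ⟨h₄, h6⟩ := add_aff_of_ne hc x₁ y₁ h₁ x₂ (-y₂) (onC_neg h₂) hx m _ _ hm rfl rfl
  refine ⟨_, _, h₃, _, _, h₄, h5, ?_, ?_, ?_, ?_⟩
  · rw [sub_eq_add_neg, neg_aff, h6]
  · rw [e6_0]
    have e1 : (x₁ - x₂) ^ 2 * ((l ^ 2 + (e 0 + e 1 + e 2) - x₁ - x₂) *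
        (m ^ 2 + (e 0 + e 1 + e 2) - x₁ - x₂)) * (x₁ - x₂) ^ 2 =
        ((y₁ - y₂) ^ 2 + ((e 0 + e 1 + e 2) - x₁ - x₂) * (x₁ - x₂) ^ 2) *
        ((y₁ - (-y₂)) ^ 2 + ((e 0 + e 1 + e 2) - x₁ - x₂) * (x₁ - x₂) ^ 2) := by
      rw [← hl, ← hm]
      ring
    have e2 : ((y₁ - y₂) ^ 2 + ((e 0 + e 1 + e 2) - x₁ - x₂) * (x₁ - x₂) ^ 2) *
        ((y₁ - (-y₂)) ^ 2 + ((e 0 + e 1 + e 2) - x₁ - x₂) * (x₁ - x₂) ^ 2) =
        (y₁ ^ 2 - y₂ ^ 2) ^ 2 + 2 * (y₁ ^ 2 + y₂ ^ 2) *
          (((e 0 + e 1 + e 2) - x₁ - x₂) * (x₁ - x₂) ^ 2) +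
          (((e 0 + e 1 + e 2) - x₁ - x₂) * (x₁ - x₂) ^ 2) ^ 2 := by ring
    apply mul_right_cancel₀ (pow_ne_zero 2 hd)
    rw [e1, e2, h₁, h₂]
    ring
  · rw [e6_1]
    have e1 : (x₁ - x₂) ^ 2 * ((l ^ 2 + (e 0 + e 1 + e 2) - x₁ - x₂) +
        (m ^ 2 + (e 0 + e 1 + e 2) - x₁ - x₂)) = (l * (x₁ - x₂)) ^ 2 + (m * (x₁ - x₂)) ^ 2 +
        2 * ((e 0 + e 1 + e 2) - x₁ - x₂) * (x₁ - x₂) ^ 2 := by ring
    rw [e1, hl, hm]
    rw [OnC] at h₁ h₂
    linear_combination -2 * h₁ - 2 * h₂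
  · rw [e6_2]
    ring

end E6aux

/-- Write `s = x₁ x₂`, `t = x₁ + x₂`. Cases: one point is `0` (`c = 1`); `x₁ ≠ x₂`: `c = (x₁ - x₂)²`;
`Q = ± P` with `y ≠ 0`: `c = 4 y²`; `y = 0`: the third and second components are `0` and the first
is not (`(e i - e j)² (e i - e k)²` for `x = e i`). Use `add_aff_of_ne`, `add_aff_self`, `neg_aff`,
`xco_aff`, `xco_zero`; `WeierstrassCurve.addSubMap` is in
Mathlib.AlgebraicGeometry.EllipticCurve.Affine.AddSubMap (`EC e` has `b₂ = - 4 (e 0 + e 1 + e 2)`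
etc., unfold and use `ring` / `linear_combination`). -/
theorem addSub_pt {F : Type} [Field F] {e : Fin 3 → F} (hc : Cv e) (P Q : Pt e) :
    ∃ c : F, c ≠ 0 ∧ ∀ i, addSub e (sym2 (xco P) (xco Q)) i =
      c * sym2 (xco (P + Q)) (xco (P - Q)) i := by
  rcases pt_cases hc P with rfl | ⟨x₁, y₁, h₁, rfl⟩
  · refine ⟨1, one_ne_zero, ?_⟩
    rcases pt_cases hc Q with rfl | ⟨x₂, y₂, h₂, rfl⟩
    · rw [zero_sub, neg_zero, add_zero, xco_zero, e6_sym]
      intro i
      fin_cases i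
      · simp [e6_0]
      · simp [e6_1]
      · simp [e6_2]
    · rw [zero_sub, zero_add, neg_aff, xco_zero, xco_aff, xco_aff, e6_sym, e6_sym]
      intro i
      fin_cases i
      · simp [e6_0]; ring
      · simp [e6_1]; ring
      · simp [e6_2]
  · rcases pt_cases hc Q with rfl | ⟨x₂, y₂, h₂, rfl⟩
    · refine ⟨1, one_ne_zero, ?_⟩
      rw [sub_zero, add_zero, xco_zero, xco_aff, e6_sym, e6_sym]
      intro i
      fin_cases i
      · simp [e6_0]; ring
      · simp [e6_1]; ring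
      · simp [e6_2]
    · by_cases hx : x₁ = x₂
      · subst hx
        have hyy : y₁ = y₂ ∨ y₁ = -y₂ := by
          apply sq_eq_sq_iff_eq_or_eq_neg.1
          rw [OnC] at h₁ h₂
          rw [h₁, h₂]
        by_cases hy : y₁ = 0
        · have hy2 : y₂ = 0 := by
            rcases hyy with h | h
            · rw [← h, hy]
            · rw [hy] at h
              exact neg_eq_zero.1 h.symm
          subst hy
          subst hy2
          have hadd : aff hc x₁ 0 h₁ + aff hc x₁ 0 h₂ = 0 := (aff_two_zero hc x₁ 0 h₁).2 rfl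
          have hsub : aff hc x₁ 0 h₁ - aff hc x₁ 0 h₂ = 0 := sub_self _
          refine ⟨addSub e ![x₁ * x₁, x₁ + x₁, 1] 0, ?_, ?_⟩
          · rw [e6_0]
            have h01 := e6_ne hc 0 1 (by decide)
            have h12 := e6_ne hc 1 2 (by decide)
            have h20 := e6_ne hc 2 0 (by decide)
            have h4 : (x₁ - e 0) * (x₁ - e 1) * (x₁ - e 2) = 0 := by
              rw [OnC] at h₁
              rw [← h₁]; ring
            rcases mul_eq_zero.1 h4 with h4 | h4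
            · rcases mul_eq_zero.1 h4 with h4 | h4
              · have hx : x₁ = e 0 := sub_eq_zero.1 h4
                rw [hx]
                have := mul_ne_zero (pow_ne_zero 2 h01) (pow_ne_zero 2 h20)
                intro h
                apply this
                linear_combination h
              · have hx : x₁ = e 1 := sub_eq_zero.1 h4
                rw [hx]
                have := mul_ne_zero (pow_ne_zero 2 h01) (pow_ne_zero 2 h12)
                intro h
                apply this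
                linear_combination h
            · have hx : x₁ = e 2 := sub_eq_zero.1 h4
              rw [hx]
              have := mul_ne_zero (pow_ne_zero 2 h20) (pow_ne_zero 2 h12)
              intro h
              apply this
              linear_combination h
          · rw [hadd, hsub, xco_zero, xco_aff, e6_sym, e6_sym]
            intro i
            fin_cases i
            · simp
            · simp only [Fin.mk_one, Fin.isValue, mul_one, one_mul, zero_mul, mul_zero]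
              rw [e6_1]
              simp only [Fin.isValue, Matrix.cons_val_one, Matrix.cons_val_zero, add_zero,
                mul_zero]
              rw [OnC] at h₁
              linear_combination -4 * h₁
            · simp only [Fin.reduceFinMk, Fin.isValue, mul_one, one_mul, zero_mul, mul_zero]
              rw [e6_2]
              simp
              ring
        · rcases hyy with h | h
          · subst h
            obtain ⟨x₃, y₃, h₃, h5, h6, h7, h8⟩ := e6_dbl hc x₁ y₁ h₁ hy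
            have hsub : aff hc x₁ y₁ h₁ - aff hc x₁ y₁ h₂ = 0 := sub_self _
            have hadd : aff hc x₁ y₁ h₁ + aff hc x₁ y₁ h₂ = aff hc x₃ y₃ h₃ := h5
            refine ⟨4 * y₁ ^ 2, ?_, ?_⟩
            · have h4 : (4 : F) = 2 ^ 2 := by norm_num
              rw [h4]
              exact mul_ne_zero (pow_ne_zero 2 hc.two) (pow_ne_zero 2 hy)
            · rw [hsub, hadd, xco_zero, xco_aff, xco_aff, e6_sym, e6_sym]
              simp only [mul_one, one_mul, mul_zero, zero_add]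
              intro i
              fin_cases i
              · exact h6
              · simpa using h7
              · simpa using h8
          · have h' : y₂ = -y₁ := by rw [h, neg_neg]
            subst h'
            obtain ⟨x₃, y₃, h₃, h5, h6, h7, h8⟩ := e6_dbl hc x₁ y₁ h₁ hy
            have hneg : aff hc x₁ (-y₁) h₂ = - aff hc x₁ y₁ h₁ := (neg_aff hc x₁ y₁ h₁).symm
            have hadd : aff hc x₁ y₁ h₁ + aff hc x₁ (-y₁) h₂ = 0 := by
              rw [hneg, add_neg_cancel]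
            have hsub : aff hc x₁ y₁ h₁ - aff hc x₁ (-y₁) h₂ = aff hc x₃ y₃ h₃ := by
              rw [hneg, sub_neg_eq_add, h5]
            refine ⟨4 * y₁ ^ 2, ?_, ?_⟩
            · have h4 : (4 : F) = 2 ^ 2 := by norm_num
              rw [h4]
              exact mul_ne_zero (pow_ne_zero 2 hc.two) (pow_ne_zero 2 hy)
            · rw [hsub, hadd, xco_zero, xco_aff, xco_aff, xco_aff, e6_sym, e6_sym]
              simp only [mul_one, one_mul, zero_mul, add_zero]
              intro i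
              fin_cases i
              · exact h6
              · simpa using h7
              · simpa using h8
      · obtain ⟨x₃, y₃, h₃, x₄, y₄, h₄, h5, h6, h7, h8, h9⟩ :=
          e6_gen hc x₁ y₁ h₁ x₂ y₂ h₂ hx
        refine ⟨(x₁ - x₂) ^ 2, pow_ne_zero 2 (sub_ne_zero.2 hx), ?_⟩
        rw [h5, h6, xco_aff, xco_aff, xco_aff, xco_aff, e6_sym, e6_sym]
        simp only [mul_one, one_mul]
        intro i
        fin_cases i
        · exact h7
        · simpa using h8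
        · simpa using h9

end SC2
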