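import Pool.Agent.MP_c1dca2_ag.SC2.AB

set_option autoImplicit false

open IsLocalRing

namespace SC2

variable {k C : Type} [Field k] [Field C] [Algebra k C]

/-! ## [SC2-A7] square roots fixed by inertia (file A7.lean) -/

/-- `σ` is in the inertia group and fixes all `π m`. -/
structure Wild (V : ValuationSubring C) (π : ℕ → C) (σ : C ≃ₐ[k] C) : Prop where
  iner : Iner V σ
  fix : ∀ m, σ (π m) = π m

theorem a7_unit [IsAlgClosed C] {V : ValuationSubring C} (h2 : V.valuation 2 = 1)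
    (π : ℕ → C) (u : C) (hu1 : V.valuation u = 1)
    (hu : ∀ σ : C ≃ₐ[k] C, Wild V π σ → σ u = u) :
    ∃ w : C, w ^ 2 = u ∧ ∀ σ : C ≃ₐ[k] C, Wild V π σ → σ w = w := by
  obtain ⟨w, hw⟩ := IsAlgClosed.exists_pow_nat_eq u (show 0 < 2 by norm_num)
  have hw1 : V.valuation w = 1 := by
    have h3 : V.valuation w ^ 2 = 1 ^ 2 := by rw [← map_pow, hw, hu1, one_pow]
    exact (pow_left_inj₀ zero_le zero_le (by norm_num)).1 h3
  refine ⟨w, hw, fun σ hσ => ?_⟩
  have h4 : (σ w - w) * (σ w + w) = 0 := by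
    have h5 : σ w ^ 2 = w ^ 2 := by rw [← map_pow, hw, hu σ hσ]
    linear_combination h5
  rcases mul_eq_zero.1 h4 with h5 | h5
  · exact sub_eq_zero.1 h5
  · exfalso
    have h6 := hσ.iner.triv w ((V.valuation_le_one_iff w).1 hw1.le)
    rw [V.mem_nonunits_iff] at h6
    have h7 : σ w - w = -(2 * w) := by linear_combination h5
    rw [h7, Valuation.map_neg, map_mul, h2, hw1, one_mul] at h6
    exact absurd h6 (lt_irrefl _)

/-- If `|u| = 1` take any square root `w`: `σ w = ± w` and `|σ w - w| < 1`, `|2 w| = 1`, so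
`σ w = w`. In general `|u|^m = |π 0|^n` with `m = 2^r (2 j + 1)`; as the value group is torsion free,
`|u|^(2 j + 1) = |π r|^n` (`|π r|^(2^r) = |π 0|`), so `|u| = |w₁|²` with `w₁ = (π (r+1))^n u^(-j)`,
an element fixed by all such `σ`. Apply the first case to `u / w₁²`. -/
theorem exists_sqrt [IsAlgClosed C] {V : ValuationSubring C} (h2 : V.valuation 2 = 1)
    (π : ℕ → C) (hπ : ∀ m, π (m + 1) ^ 2 = π m) (hπ0 : π 0 ≠ 0)
    (hT : ∀ u : C, u ≠ 0 → ∃ (m : ℕ) (n : ℤ), 0 < m ∧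
      V.valuation u ^ m = V.valuation (π 0) ^ n)
    (u : C) (hu : ∀ σ : C ≃ₐ[k] C, Wild V π σ → σ u = u) :
    ∃ w : C, w ^ 2 = u ∧ ∀ σ : C ≃ₐ[k] C, Wild V π σ → σ w = w := by
  by_cases hu0 : u = 0
  · exact ⟨0, by rw [hu0]; simp, fun σ _ => map_zero σ⟩
  obtain ⟨m, n, hm, hmn⟩ := hT u hu0
  obtain ⟨r, s, hs, rfl⟩ := Nat.exists_eq_two_pow_mul_odd hm.ne'
  obtain ⟨j, rfl⟩ := hs
  have hπne : ∀ i, π i ≠ 0 := by
    intro i
    induction i with
    | zero => exact hπ0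
    | succ i ih =>
      intro h0
      apply ih
      rw [← hπ i, h0]; simp
  have hπr : ∀ i, V.valuation (π i) ^ (2 ^ i) = V.valuation (π 0) := by
    intro i
    induction i with
    | zero => simp
    | succ i ih =>
      rw [← ih, ← hπ i, map_pow, ← pow_mul, pow_succ', mul_comm]
  have h3 : V.valuation u ^ (2 * j + 1) = V.valuation (π r) ^ n := by
    have h4 : (V.valuation u ^ (2 * j + 1)) ^ (2 ^ r) = (V.valuation (π r) ^ n) ^ (2 ^ r) := by
      rw [← pow_mul, mul_comm, hmn, ← hπr r, ← zpow_natCast, ← zpow_natCast, ← zpow_mul,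
        ← zpow_mul, mul_comm]
    exact (pow_left_inj₀ zero_le zero_le (by positivity)).1 h4
  set w₁ : C := π (r + 1) ^ n * (u ^ j)⁻¹ with hw₁
  have hw₁0 : w₁ ≠ 0 := mul_ne_zero (zpow_ne_zero n (hπne _)) (inv_ne_zero (pow_ne_zero j hu0))
  have hvu : V.valuation u ≠ 0 := (Valuation.ne_zero_iff _).2 hu0
  have hval : V.valuation u = V.valuation w₁ ^ 2 := by
    have h5 : V.valuation (π (r + 1)) ^ 2 = V.valuation (π r) := by rw [← map_pow, hπ]
    rw [hw₁, map_mul, map_zpow₀, map_inv₀, map_pow, mul_pow, ← zpow_natCast, ← zpow_mul,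
      mul_comm n, zpow_mul, zpow_natCast, h5, ← h3, inv_pow, ← pow_mul,
      mul_comm j 2, pow_succ]
    field_simp
  have hfix : ∀ σ : C ≃ₐ[k] C, Wild V π σ → σ w₁ = w₁ := by
    intro σ hσ
    rw [hw₁, map_mul, map_zpow₀, map_inv₀, map_pow, hσ.fix, hu σ hσ]
  obtain ⟨w, hw, hwfix⟩ := a7_unit (k := k) h2 π (u / w₁ ^ 2) (by
    rw [map_div₀, map_pow, ← hval, div_self hvu]) (fun σ hσ => by
    rw [map_div₀, map_pow, hfix σ hσ, hu σ hσ])
  refine ⟨w * w₁, ?_, fun σ hσ => ?_⟩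
  · rw [mul_pow, hw, div_mul_cancel₀ _ (pow_ne_zero 2 hw₁0)]
  · rw [map_mul, hwfix σ hσ, hfix σ hσ]

end SC2
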