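import Mathlib

/-!
# [SC2] MP_c1dca2_ag: valuation rings of algebraic extensions, inertia, Frobenius: definitions
-/

set_option autoImplicit false

open IsLocalRing

namespace SC2

variable {k C : Type} [Field k] [Field C] [Algebra k C]

/-- `V` lies above `A`. -/
def Above (A : ValuationSubring k) (V : ValuationSubring C) : Prop :=
  ∀ a : k, algebraMap k C a ∈ V ↔ a ∈ A

/-- `σ` is in the inertia group of `V`. -/
structure Iner (V : ValuationSubring C) (σ : C ≃ₐ[k] C) : Prop where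
  stab : ∀ z, σ z ∈ V ↔ z ∈ V
  triv : ∀ z ∈ V, σ z - z ∈ V.nonunits

/-- `σ` stabilises `V` and induces the `q`-power map on the residue field. -/
structure Frob (q : ℕ) (V : ValuationSubring C) (σ : C ≃ₐ[k] C) : Prop where
  stab : ∀ z, σ z ∈ V ↔ z ∈ V
  frob : ∀ z ∈ V, σ z - z ^ q ∈ V.nonunits

theorem Iner.one (V : ValuationSubring C) : Iner V (1 : C ≃ₐ[k] C) :=
  ⟨fun _ => Iff.rfl, fun z _ => by
    rw [AlgEquiv.one_apply, sub_self]
    exact (V.mem_nonunits_iff).2 (by simp)⟩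

theorem Iner.mul {V : ValuationSubring C} {σ τ : C ≃ₐ[k] C} (hσ : Iner V σ) (hτ : Iner V τ) :
    Iner V (σ * τ) := by
  refine ⟨fun z => by rw [AlgEquiv.mul_apply, hσ.stab, hτ.stab], fun z hz => ?_⟩
  have h1 := hσ.triv (τ z) ((hτ.stab z).2 hz)
  have h2 := hτ.triv z hz
  rw [V.mem_nonunits_iff] at h1 h2 ⊢
  have h3 : (σ * τ) z - z = (σ (τ z) - τ z) + (τ z - z) := by
    rw [AlgEquiv.mul_apply]; ring
  rw [h3]
  exact Valuation.map_add_lt _ h1 h2

theorem Iner.inv {V : ValuationSubring C} {σ : C ≃ₐ[k] C} (hσ : Iner V σ) : Iner V σ⁻¹ := by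
  have h0 : ∀ z, σ (σ⁻¹ z) = z := fun z => by rw [← AlgEquiv.mul_apply]; simp
  have hs : ∀ z, σ⁻¹ z ∈ V ↔ z ∈ V := fun z => by rw [← hσ.stab (σ⁻¹ z), h0]
  refine ⟨hs, fun z hz => ?_⟩
  have h1 := hσ.triv (σ⁻¹ z) ((hs z).2 hz)
  rw [h0] at h1
  rw [V.mem_nonunits_iff] at h1 ⊢
  rw [← Valuation.map_neg, neg_sub]
  exact h1

/-- The inertia group. -/
def inertia (V : ValuationSubring C) : Subgroup (C ≃ₐ[k] C) where
  carrier := {σ | Iner V σ}
  mul_mem' := fun ha hb => Iner.mul ha hb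
  one_mem' := Iner.one V
  inv_mem' := fun ha => Iner.inv ha

theorem Iner.conj {V : ValuationSubring C} {σ φ : C ≃ₐ[k] C} (hσ : Iner V σ)
    (hφ : ∀ z, φ z ∈ V ↔ z ∈ V) : Iner V (φ * σ * φ⁻¹) := by
  have h0 : ∀ z, φ (φ⁻¹ z) = z := fun z => by rw [← AlgEquiv.mul_apply]; simp
  have hs : ∀ z, φ⁻¹ z ∈ V ↔ z ∈ V := fun z => by rw [← hφ (φ⁻¹ z), h0]
  refine ⟨fun z => by simp only [AlgEquiv.mul_apply]; rw [hφ, hσ.stab, hs], fun z hz => ?_⟩
  have h1 := hσ.triv (φ⁻¹ z) ((hs z).2 hz)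
  have h2 : (φ * σ * φ⁻¹) z - z = φ (σ (φ⁻¹ z) - φ⁻¹ z) := by
    simp only [AlgEquiv.mul_apply]
    rw [map_sub, h0]
  rw [h2]
  have h3 : ∀ w, w ∈ V.nonunits → φ w ∈ V.nonunits := by
    intro w hw
    rw [ValuationSubring.mem_nonunits_iff] at hw ⊢
    by_contra hcon
    push Not at hcon
    have h4 : (φ w)⁻¹ ∈ V := by
      rw [← V.valuation_le_one_iff, map_inv₀]
      exact inv_le_one_of_one_le₀ hcon
    rw [← map_inv₀, hφ] at h4
    rw [← V.valuation_le_one_iff, map_inv₀] at h4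
    have h5 : V.valuation w ≠ 0 := by
      intro h6
      rw [Valuation.zero_iff] at h6
      rw [h6, map_zero, map_zero] at hcon
      exact absurd hcon (by simp)
    have h6 : V.valuation w * (V.valuation w)⁻¹ < 1 :=
      mul_lt_one_of_lt_of_le hw h4
    rw [mul_inv_cancel₀ h5] at h6
    exact absurd h6 (lt_irrefl _)
  exact h3 _ h1

end SC2
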