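import Pool.Agent.MP_c1dca2_ag.SC2.Base

set_option autoImplicit false

namespace SC2

/-! ## [SC2-E2] halving a point (file E2.lean) -/

theorem e2_ne {F : Type} [Field F] {e : Fin 3 → F} (hc : Cv e) {X a b : F} {i j : Fin 3}
    (hij : i ≠ j) (ha : a ^ 2 = X - e i) (hb : b ^ 2 = X - e j) : a + b ≠ 0 := by
  intro h
  apply hij
  apply hc.inj
  linear_combination (b - a) * h + ha - hb

/-- Use `add_aff_self` with `l = α + β + γ`. With `x = X + α β + β γ + γ α` one has
`x - e 0 = (α + β) (α + γ)` etc.; put `p = (α + β) (β + γ) (γ + α)`; `p ≠ 0` because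
`α² - β² = e 1 - e 0 ≠ 0` etc. The derivative of the cubic at `x` is `2 (α + β + γ) p`,
`x₃ = l² + e 0 + e 1 + e 2 - 2 x = X`, `y₃ = - (p + l (X - x)) = l (α β + β γ + γ α) - p = α β γ`. -/
theorem halve {F : Type} [Field F] {e : Fin 3 → F} (hc : Cv e) (X Y : F) (h : OnC e X Y)
    (α β γ : F) (hα : α ^ 2 = X - e 0) (hβ : β ^ 2 = X - e 1) (hγ : γ ^ 2 = X - e 2)
    (hY : α * β * γ = Y) :
    ∃ h' : OnC e (X + α * β + β * γ + γ * α) ((α + β) * (β + γ) * (γ + α)),
      aff hc _ _ h' + aff hc _ _ h' = aff hc X Y h := by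
  have h0 : X + α * β + β * γ + γ * α - e 0 = (α + β) * (γ + α) := by linear_combination -hα
  have h1 : X + α * β + β * γ + γ * α - e 1 = (α + β) * (β + γ) := by linear_combination -hβ
  have h2 : X + α * β + β * γ + γ * α - e 2 = (β + γ) * (γ + α) := by linear_combination -hγ
  have h' : OnC e (X + α * β + β * γ + γ * α) ((α + β) * (β + γ) * (γ + α)) := by
    rw [OnC, h0, h1, h2]
    ring
  have hp : (α + β) * (β + γ) * (γ + α) ≠ 0 :=
    mul_ne_zero (mul_ne_zero (e2_ne hc (by decide) hα hβ) (e2_ne hc (by decide) hβ hγ))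
      (e2_ne hc (by decide) hγ hα)
  obtain ⟨h3, h4⟩ := add_aff_self hc _ _ h' (α + β + γ) X Y hp
    (by rw [h0, h1, h2]; ring)
    (by linear_combination -hα - hβ - hγ)
    (by rw [← hY]; ring)
  exact ⟨h', h4⟩

end SC2
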