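import Pool.Agent.MP_c1dca2_ag.SC2.Base

set_option autoImplicit false

namespace SC2

/-! ## [SC2-E3] functoriality (file E3.lean) -/

theorem e3_onC {F F' : Type} [Field F] [Field F'] (g : F →+* F') (u : F') (hu : u ≠ 0)
    (e : Fin 3 → F) (e' : Fin 3 → F') (he : ∀ i, g (e i) = u ^ 2 * e' i) {x y : F}
    (h : OnC e x y) : OnC e' (g x / u ^ 2) (g y / u ^ 3) := by
  rw [OnC] at h ⊢
  have h1 := congrArg g h
  simp only [map_pow, map_mul, map_sub, he] at h1
  have hy : g y = u ^ 3 * (g y / u ^ 3) := by field_simp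
  have hx : g x = u ^ 2 * (g x / u ^ 2) := by field_simp
  rw [hy, hx] at h1
  have h6 : (u ^ 6 : F') ≠ 0 := pow_ne_zero _ hu
  apply mul_left_cancel₀ h6
  linear_combination h1

/-- The map on points. -/
noncomputable def e3_fun {F F' : Type} [Field F] [Field F'] (g : F →+* F') (u : F') (hu : u ≠ 0)
    (e : Fin 3 → F) (e' : Fin 3 → F') (hc' : Cv e')
    (he : ∀ i, g (e i) = u ^ 2 * e' i) : Pt e → Pt e'
  | WeierstrassCurve.Affine.Point.zero => 0
  | WeierstrassCurve.Affine.Point.some x y h =>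
    aff hc' (g x / u ^ 2) (g y / u ^ 3) (e3_onC g u hu e e' he ((equation_iff x y).1 h.1))

section

variable {F F' : Type} [Field F] [Field F'] (g : F →+* F') (u : F') (hu : u ≠ 0)
    (e : Fin 3 → F) (e' : Fin 3 → F') (hc : Cv e) (hc' : Cv e')
    (he : ∀ i, g (e i) = u ^ 2 * e' i)

theorem e3_fun_zero : e3_fun g u hu e e' hc' he 0 = 0 := rfl

theorem e3_fun_aff (x y : F) (h : OnC e x y) :
    e3_fun g u hu e e' hc' he (aff hc x y h) =
      aff hc' (g x / u ^ 2) (g y / u ^ 3) (e3_onC g u hu e e' he h) := rfl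

include hc in
theorem e3_fun_add (P Q : Pt e) :
    e3_fun g u hu e e' hc' he (P + Q) =
      e3_fun g u hu e e' hc' he P + e3_fun g u hu e e' hc' he Q := by
  rcases pt_cases hc P with rfl | ⟨x₁, y₁, h₁, rfl⟩
  · rw [e3_fun_zero, zero_add, zero_add]
  rcases pt_cases hc Q with rfl | ⟨x₂, y₂, h₂, rfl⟩
  · rw [e3_fun_zero, add_zero, add_zero]
  by_cases hx : x₁ = x₂
  · subst hx
    have hyy : y₂ = y₁ ∨ y₂ = -y₁ := by
      have h3 : y₁ ^ 2 = y₂ ^ 2 := by rw [OnC] at h₁ h₂; rw [h₁, h₂]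
      rcases sq_eq_sq_iff_eq_or_eq_neg.1 h3 with h | h
      · exact Or.inl h.symm
      · right; rw [h]; ring
    rcases hyy with rfl | rfl
    · by_cases hy : y₂ = 0
      · have h4 := (aff_two_zero hc x₁ y₂ h₁).2 hy
        rw [h4, e3_fun_zero, e3_fun_aff]
        symm
        apply (aff_two_zero hc' _ _ _).2
        rw [hy]; simp
      · obtain ⟨h₃, h₄⟩ := add_aff_self hc x₁ y₂ h₁
          (((x₁ - e 0) * (x₁ - e 1) + (x₁ - e 1) * (x₁ - e 2) + (x₁ - e 2) * (x₁ - e 0)) / (2 * y₂))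
          _ _ hy (div_mul_cancel₀ _ (mul_ne_zero hc.two hy)) rfl rfl
        rw [h₄, e3_fun_aff, e3_fun_aff]
        have hgy : g y₂ ≠ 0 := by rwa [Ne, map_eq_zero]
        have hc2 := hc'.two
        obtain ⟨h₅, h₆⟩ := add_aff_self hc' (g x₁ / u ^ 2) (g y₂ / u ^ 3) (e3_onC g u hu e e' he h₁)
          (g (((x₁ - e 0) * (x₁ - e 1) + (x₁ - e 1) * (x₁ - e 2) +
            (x₁ - e 2) * (x₁ - e 0)) / (2 * y₂)) / u)
          _ _ (div_ne_zero hgy (pow_ne_zero _ hu)) (by
            simp only [map_div₀, map_add, map_mul, map_sub, he, map_ofNat]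
            field_simp) rfl rfl
        rw [h₆, aff_inj]
        constructor
        · simp only [map_div₀, map_add, map_mul, map_sub, he, map_ofNat, map_pow]
          field_simp
        · simp only [map_div₀, map_add, map_mul, map_sub, he, map_ofNat, map_pow, map_neg]
          field_simp
    · have h4 : aff hc x₁ (-y₁) h₂ = - aff hc x₁ y₁ h₁ := by rw [neg_aff]
      rw [h4, add_neg_cancel, e3_fun_zero, ← h4, e3_fun_aff, e3_fun_aff]
      have h5 : aff hc' (g x₁ / u ^ 2) (g (-y₁) / u ^ 3) (e3_onC g u hu e e' he h₂) =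
          - aff hc' (g x₁ / u ^ 2) (g y₁ / u ^ 3) (e3_onC g u hu e e' he h₁) := by
        rw [neg_aff, aff_inj]
        refine ⟨rfl, ?_⟩
        rw [map_neg, neg_div]
      rw [h5, add_neg_cancel]
  · obtain ⟨h₃, h₄⟩ := add_aff_of_ne hc x₁ y₁ h₁ x₂ y₂ h₂ hx ((y₁ - y₂) / (x₁ - x₂)) _ _
      (div_mul_cancel₀ _ (sub_ne_zero.2 hx)) rfl rfl
    rw [h₄, e3_fun_aff, e3_fun_aff, e3_fun_aff]
    have hgx : g x₁ - g x₂ ≠ 0 := by
      rw [← map_sub, Ne, map_eq_zero]
      exact sub_ne_zero.2 hx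
    have hgx' : g x₁ / u ^ 2 ≠ g x₂ / u ^ 2 := by
      intro h
      apply hgx
      rw [div_left_inj' (pow_ne_zero _ hu)] at h
      rw [h, sub_self]
    obtain ⟨h₅, h₆⟩ := add_aff_of_ne hc' (g x₁ / u ^ 2) (g y₁ / u ^ 3) (e3_onC g u hu e e' he h₁)
      (g x₂ / u ^ 2) (g y₂ / u ^ 3) (e3_onC g u hu e e' he h₂) hgx'
      (g ((y₁ - y₂) / (x₁ - x₂)) / u) _ _ (by
        simp only [map_div₀, map_sub]
        field_simp) rfl rfl
    rw [h₆, aff_inj]
    constructor
    · simp only [map_div₀, map_add, map_sub, he, map_pow]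
      field_simp
    · simp only [map_div₀, map_add, map_mul, map_sub, he, map_pow, map_neg]
      field_simp

include hc in
theorem e3_fun_inj : Function.Injective (e3_fun g u hu e e' hc' he) := by
  intro P Q hPQ
  rcases pt_cases hc P with rfl | ⟨x₁, y₁, h₁, rfl⟩ <;>
    rcases pt_cases hc Q with rfl | ⟨x₂, y₂, h₂, rfl⟩
  · rfl
  · rw [e3_fun_zero, e3_fun_aff] at hPQ
    exact absurd hPQ.symm (aff_ne_zero hc' _ _ _)
  · rw [e3_fun_zero, e3_fun_aff] at hPQ
    exact absurd hPQ (aff_ne_zero hc' _ _ _)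
  · rw [e3_fun_aff, e3_fun_aff, aff_inj] at hPQ
    rw [div_left_inj' (pow_ne_zero _ hu), div_left_inj' (pow_ne_zero _ hu)] at hPQ
    rw [aff_inj]
    exact ⟨g.injective hPQ.1, g.injective hPQ.2⟩

end

/-- A ring homomorphism `g` with `g (e i) = u² e' i` gives the injective group homomorphism
`(x, y) ↦ (g x / u², g y / u³)`. Define `G 0 = 0` and `G` on affine points by this formula
(`pt_cases`, or match on the inductive type `(EC e).Point`), and check additivity with
`add_aff_of_ne`, `add_aff_self`, `neg_aff`, `aff_two_zero` (the cases: one point is `0`; `x₁ ≠ x₂`;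
`P₂ = - P₁`; `P₂ = P₁`). -/
theorem exists_ecmap {F F' : Type} [Field F] [Field F'] (g : F →+* F') (u : F') (hu : u ≠ 0)
    (e : Fin 3 → F) (e' : Fin 3 → F') (hc : Cv e) (hc' : Cv e')
    (he : ∀ i, g (e i) = u ^ 2 * e' i) :
    ∃ G : Pt e →+ Pt e', Function.Injective G ∧
      ∀ x y h, ∃ h', G (aff hc x y h) = aff hc' (g x / u ^ 2) (g y / u ^ 3) h' := by
  refine ⟨{ toFun := e3_fun g u hu e e' hc' he
            map_zero' := e3_fun_zero g u hu e e' hc' he
            map_add' := e3_fun_add g u hu e e' hc hc' he },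
    e3_fun_inj g u hu e e' hc hc' he, fun x y h => ⟨e3_onC g u hu e e' he h, ?_⟩⟩
  exact e3_fun_aff g u hu e e' hc hc' he x y h

theorem ecmap_aux {F F' : Type} [Field F] [Field F'] (g : F →+* F')
    (e : Fin 3 → F) (e' : Fin 3 → F') (he : ∀ i, g (e i) = e' i) (i : Fin 3) :
    g (e i) = 1 ^ 2 * e' i := by
  rw [he]; ring

/-- The map on points induced by a ring homomorphism. -/
noncomputable def ecMap {F F' : Type} [Field F] [Field F'] (g : F →+* F')
    (e : Fin 3 → F) (e' : Fin 3 → F') (hc : Cv e) (hc' : Cv e') (he : ∀ i, g (e i) = e' i) :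
    Pt e →+ Pt e' :=
  Classical.choose (exists_ecmap g 1 one_ne_zero e e' hc hc' (ecmap_aux g e e' he))

theorem ecMap_injective {F F' : Type} [Field F] [Field F'] (g : F →+* F')
    (e : Fin 3 → F) (e' : Fin 3 → F') (hc : Cv e) (hc' : Cv e') (he : ∀ i, g (e i) = e' i) :
    Function.Injective (ecMap g e e' hc hc' he) :=
  (Classical.choose_spec (exists_ecmap g 1 one_ne_zero e e' hc hc' (ecmap_aux g e e' he))).1

theorem onC_map {F F' : Type} [Field F] [Field F'] (g : F →+* F')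
    (e : Fin 3 → F) (e' : Fin 3 → F') (he : ∀ i, g (e i) = e' i) {x y : F} (h : OnC e x y) :
    OnC e' (g x) (g y) := by
  rw [OnC] at h ⊢
  rw [← map_pow, h]
  simp only [map_mul, map_sub, he]

theorem ecMap_aff {F F' : Type} [Field F] [Field F'] (g : F →+* F')
    (e : Fin 3 → F) (e' : Fin 3 → F') (hc : Cv e) (hc' : Cv e') (he : ∀ i, g (e i) = e' i)
    (x y : F) (h : OnC e x y) :
    ecMap g e e' hc hc' he (aff hc x y h) = aff hc' (g x) (g y) (onC_map g e e' he h) := by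
  obtain ⟨h', h''⟩ := (Classical.choose_spec
    (exists_ecmap g 1 one_ne_zero e e' hc hc' (ecmap_aux g e e' he))).2 x y h
  refine Eq.trans h'' ?_
  rw [aff_inj]
  simp

theorem ecMap_comp {F F' F'' : Type} [Field F] [Field F'] [Field F''] (g : F →+* F')
    (g' : F' →+* F'') (e : Fin 3 → F) (e' : Fin 3 → F') (e'' : Fin 3 → F'') (hc : Cv e)
    (hc' : Cv e') (hc'' : Cv e'') (he : ∀ i, g (e i) = e' i) (he' : ∀ i, g' (e' i) = e'' i)
    (he'' : ∀ i, (g'.comp g) (e i) = e'' i) (P : Pt e) :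
    ecMap g' e' e'' hc' hc'' he' (ecMap g e e' hc hc' he P) =
      ecMap (g'.comp g) e e'' hc hc'' he'' P := by
  rcases pt_cases hc P with rfl | ⟨x, y, h, rfl⟩
  · simp
  · simp only [ecMap_aff]
    rfl

theorem ecMap_id {F : Type} [Field F] (g : F →+* F) (hg : ∀ z, g z = z) (e : Fin 3 → F)
    (hc : Cv e) (he : ∀ i, g (e i) = e i) (P : Pt e) : ecMap g e e hc hc he P = P := by
  rcases pt_cases hc P with rfl | ⟨x, y, h, rfl⟩
  · simp
  · rw [ecMap_aff, aff_inj]
    exact ⟨hg x, hg y⟩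

end SC2
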