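import Pool.Agent.MP_c1dca2_ag.SEC.M4
import Pool.Agent.MP_c1dca2_ag.SC2.E2
import Pool.Agent.MP_c1dca2_ag.SC2.E3

set_option autoImplicit false

open Polynomial SEC

namespace SC2

variable {k K : Type} [Field k] [Field K] [Algebra k K]

/-! ## [SC2-B1] halving in the maximal unramified extension (file B1.lean; uses E2) -/

theorem kb_isAlgClosed : IsAlgClosed (kb k K) := by
  have : IsAlgClosure k (kb k K) := algebraicClosure.isAlgClosure k (Om K)
  exact this.isAlgClosed

theorem kb_isGalois [CharZero k] : IsGalois k (kb k K) := m4_isGalois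

/-- `e i` as elements of `M` -/
def eM (e : Fin 3 → kb k K) : Fin 3 → Mnr k K := fun i => ⟨(e i : Om K), kb_le _ (e i).2⟩

theorem cv_eM [CharZero k] {e : Fin 3 → kb k K} (he : Function.Injective e) : Cv (eM e) := by
  refine ⟨?_, ?_⟩
  · have : CharZero (Mnr k K) := by
      have : CharZero K := charZero_of_injective_algebraMap (algebraMap k K).injective
      exact charZero_of_injective_algebraMap (algebraMap K (Mnr k K)).injective
    exact two_ne_zero
  · intro i j hij
    apply he
    have h := congrArg (Subtype.val) hij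
    exact Subtype.ext h

theorem b1_val (B : ValuationSubring (Om K)) (hB : IsPlace k K B) (e : Fin 3 → kb k K)
    (he : Function.Injective e) (X Y : Om K)
    (h : Y ^ 2 = (X - (e 0 : Om K)) * (X - (e 1 : Om K)) * (X - (e 2 : Om K))) (i : Fin 3) :
    B.valuation (X - (e i : Om K)) = 1 ∨ B.valuation (X - (e i : Om K)) = B.valuation Y ^ 2 ∨
      (X ≠ 0 ∧ B.valuation (X - (e i : Om K)) = B.valuation (Y / X) ^ 2) := by
  have hle : ∀ j, B.valuation ((e j : Om K)) ≤ 1 := fun j =>
    (B.valuation_le_one_iff _).2 (place_alg B hB _ (e j).2)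
  rcases lt_or_ge 1 (B.valuation X) with hX | hX
  · right; right
    have hX0 : X ≠ 0 := by
      rintro rfl
      rw [map_zero] at hX
      exact not_lt_zero' hX
    have hv0 : B.valuation X ≠ 0 := (Valuation.ne_zero_iff _).2 hX0
    have h1 : ∀ j, B.valuation (X - (e j : Om K)) = B.valuation X := fun j =>
      Valuation.map_sub_eq_of_lt_left _ (lt_of_le_of_lt (hle j) hX)
    refine ⟨hX0, ?_⟩
    rw [map_div₀, div_pow, ← map_pow, h, map_mul, map_mul, h1, h1, h1, h1, eq_div_iff (pow_ne_zero 2 hv0)]
    rw [pow_two, mul_assoc]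
  · have h2 : B.valuation (X - (e i : Om K)) ≤ 1 := by
      refine le_trans (Valuation.map_sub _ _ _) (max_le hX (hle i))
    rcases h2.lt_or_eq with h3 | h3
    · right; left
      have h4 : ∀ j, j ≠ i → B.valuation (X - (e j : Om K)) = 1 := by
        intro j hj
        have h5 : (e i : Om K) - (e j : Om K) ≠ 0 := by
          intro h6
          apply hj
          apply he
          exact Subtype.ext (sub_eq_zero.1 h6).symm
        have h6 : B.valuation ((e i : Om K) - (e j : Om K)) = 1 :=
          place_alg_val B hB _ ((kb k K).sub_mem (e i).2 (e j).2) h5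
        have h7 : X - (e j : Om K) = (X - (e i : Om K)) + ((e i : Om K) - (e j : Om K)) := by ring
        rw [h7, Valuation.map_add_eq_of_lt_right _ (by rw [h6]; exact h3), h6]
      rw [← map_pow, h, map_mul, map_mul]
      fin_cases i
      · simp only [Fin.zero_eta, Fin.isValue]
        rw [h4 1 (by decide), h4 2 (by decide), mul_one, mul_one]
      · simp only [Fin.mk_one, Fin.isValue]
        rw [h4 0 (by decide), h4 2 (by decide), one_mul, mul_one]
      · simp only [Fin.reduceFinMk, Fin.isValue]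
        rw [h4 0 (by decide), h4 1 (by decide), one_mul, one_mul]
    · left; exact h3

/-- Square roots of `X - e i` at a point of the curve are unramified. At a place `B`: if `|X| > 1`,
`|Y|² = |X|³`, `|X - e i| = |X| = |Y / X|²`; if `|X| ≤ 1` and `|X - e i| = 1` the value of `z` is that of `1`;
if `|X - e i| < 1` the other two factors are units (`place_alg_val`: nonzero elements of `k^alg` are
units), so `|z| = |Y|`. Use `sqrt_mem` (SEC/M1.lean). -/
theorem sqrt_coord [CharZero k] {e : Fin 3 → kb k K} (he : Function.Injective e)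
    (X Y : Mnr k K) (h : OnC (eM e) X Y) (i : Fin 3) (z : Om K)
    (hz : z ^ 2 = (X : Om K) - (e i : Om K)) : z ∈ Mnr k K := by
  have hXY : (Y : Om K) ^ 2 = ((X : Om K) - (e 0 : Om K)) * ((X : Om K) - (e 1 : Om K)) *
      ((X : Om K) - (e 2 : Om K)) := congrArg (Subtype.val) h
  apply sqrt_mem
  · rw [hz]
    exact (Mnr k K).sub_mem X.2 (kb_le _ (e i).2)
  · intro B hB
    have key : ∀ w : Om K, B.valuation ((X : Om K) - (e i : Om K)) = B.valuation w ^ 2 →
        B.valuation z = B.valuation w := by
      intro w hw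
      rw [← hz, map_pow] at hw
      exact (pow_left_inj₀ zero_le' zero_le' two_ne_zero).1 hw
    rcases b1_val B hB e he X Y hXY i with h1 | h1 | ⟨h0, h1⟩
    · exact ⟨1, (Mnr k K).one_mem, key 1 (by rw [h1, map_one, one_pow])⟩
    · exact ⟨Y, Y.2, key _ h1⟩
    · exact ⟨(Y : Om K) / (X : Om K), (Mnr k K).div_mem Y.2 X.2, key _ h1⟩

/-- Every affine point over `M` can be halved over `M`: square roots `α, β, γ` of `X - e i` in `K^alg`
are in `M`; `(α β γ)² = Y²`, change the sign of `γ` if `α β γ = - Y`; then `halve`. -/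
theorem exists_half [CharZero k] {e : Fin 3 → kb k K} (he : Function.Injective e)
    (P : Pt (eM e)) (hP : P ≠ 0) : ∃ Q : Pt (eM e), Q + Q = P := by
  have hc := cv_eM he
  obtain ⟨X, Y, h, rfl⟩ := (pt_cases hc P).resolve_left hP
  have hsq : ∀ i : Fin 3, ∃ a : Mnr k K, a ^ 2 = X - eM e i := by
    intro i
    obtain ⟨z, hz⟩ := IsAlgClosed.exists_pow_nat_eq ((X : Om K) - (e i : Om K)) (n := 2) (by norm_num)
    exact ⟨⟨z, sqrt_coord he X Y h i z hz⟩, Subtype.ext hz⟩
  obtain ⟨a, ha⟩ := hsq 0
  obtain ⟨b, hb⟩ := hsq 1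
  obtain ⟨c, hcc⟩ := hsq 2
  have h2 : (a * b * c - Y) * (a * b * c + Y) = 0 := by
    have h3 : Y ^ 2 = (X - eM e 0) * (X - eM e 1) * (X - eM e 2) := h
    rw [← ha, ← hb, ← hcc] at h3
    linear_combination -h3
  rcases mul_eq_zero.1 h2 with h3 | h3
  · obtain ⟨h', h4⟩ := halve hc X Y h a b c ha hb hcc (sub_eq_zero.1 h3)
    exact ⟨_, h4⟩
  · obtain ⟨h', h4⟩ := halve hc X Y h a b (-c) ha hb (by rw [neg_sq]; exact hcc)
      (by linear_combination -h3)
    exact ⟨_, h4⟩

end SC2
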