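import Pool.Agent.MP_c1dca2_ag.SC2.AB

set_option autoImplicit false

open IsLocalRing

namespace SC2

variable {k C : Type} [Field k] [Field C] [Algebra k C]

/-! ## [SC2-A6] the value group has rank one (file A6.lean) -/

/-- two terms of a vanishing sum have the same value -/
theorem a6_two {V : ValuationSubring C} (s : Finset ℕ) (f : ℕ → C) (hf : ∀ i ∈ s, f i ≠ 0)
    (hs : s.Nonempty) (h0 : ∑ i ∈ s, f i = 0) :
    ∃ i ∈ s, ∃ j ∈ s, i < j ∧ V.valuation (f i) = V.valuation (f j) := by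
  obtain ⟨i, hi, hmax⟩ := s.exists_max_image (fun i => V.valuation (f i)) hs
  have h1 : ∃ j ∈ s, j ≠ i ∧ V.valuation (f i) ≤ V.valuation (f j) := by
    by_contra hcon
    push Not at hcon
    have h2 : V.valuation (∑ j ∈ s.erase i, f j) < V.valuation (f i) := by
      apply Valuation.map_sum_lt
      · exact (Valuation.ne_zero_iff _).2 (hf i hi)
      · intro j hj
        exact hcon j (Finset.mem_of_mem_erase hj) (Finset.ne_of_mem_erase hj)
    have h3 : ∑ j ∈ s.erase i, f j = - f i := by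
      have h4 := Finset.add_sum_erase s f hi
      rw [h0] at h4
      linear_combination h4
    rw [h3, Valuation.map_neg] at h2
    exact absurd h2 (lt_irrefl _)
  obtain ⟨j, hj, hne, hle⟩ := h1
  have heq : V.valuation (f i) = V.valuation (f j) := le_antisymm hle (hmax j hj)
  rcases lt_or_gt_of_ne hne with h | h
  · exact ⟨j, hj, i, hi, h, heq.symm⟩
  · exact ⟨i, hi, j, hj, h, heq⟩

theorem a6_rep (A : ValuationSubring k) [IsDiscreteValuationRing A] {ϖ : A}
    (hϖ : Irreducible ϖ) (a : k) (ha : a ≠ 0) :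
    ∃ (r : ℤ) (w : Aˣ), a = ((w : A) : k) * (ϖ : k) ^ r := by
  rcases A.mem_or_inv_mem a with h | h
  · have h1 : (⟨a, h⟩ : A) ≠ 0 := fun h2 => ha (congrArg Subtype.val h2)
    obtain ⟨n, w, hw⟩ := IsDiscreteValuationRing.eq_unit_mul_pow_irreducible h1 hϖ
    refine ⟨n, w, ?_⟩
    have := congrArg Subtype.val hw
    rw [zpow_natCast]
    simpa using this
  · have h1 : (⟨a⁻¹, h⟩ : A) ≠ 0 := fun h2 => (inv_ne_zero ha) (congrArg Subtype.val h2)
    obtain ⟨n, w, hw⟩ := IsDiscreteValuationRing.eq_unit_mul_pow_irreducible h1 hϖ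
    have h2 := congrArg Subtype.val hw
    have h3 : a⁻¹ = ((w : A) : k) * (ϖ : k) ^ n := by simpa using h2
    refine ⟨-n, w⁻¹, ?_⟩
    have h4 : (((w⁻¹ : Aˣ) : A) : k) * ((w : A) : k) = 1 := by
      have : ((w⁻¹ : Aˣ) : A) * (w : A) = 1 := by simp
      exact_mod_cast congrArg Subtype.val this
    have h5 : (((w⁻¹ : Aˣ) : A) : k) = (((w : A) : k))⁻¹ := eq_inv_of_mul_eq_one_left h4
    rw [h5, zpow_neg, zpow_natCast, ← mul_inv, ← h3, inv_inv]

theorem a6_unit {A : ValuationSubring k} {V : ValuationSubring C} (h : Above A V) (w : Aˣ) :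
    V.valuation (algebraMap k C ((w : A) : k)) = 1 := by
  have h1 : V.valuation (algebraMap k C ((w : A) : k)) ≤ 1 :=
    (V.valuation_le_one_iff _).2 ((h _).2 (w : A).2)
  have h2 : V.valuation (algebraMap k C (((w⁻¹ : Aˣ) : A) : k)) ≤ 1 :=
    (V.valuation_le_one_iff _).2 ((h _).2 ((w⁻¹ : Aˣ) : A).2)
  have h3 : V.valuation (algebraMap k C ((w : A) : k)) *
      V.valuation (algebraMap k C (((w⁻¹ : Aˣ) : A) : k)) = 1 := by
    rw [← map_mul, ← map_mul]
    have : ((w : A) : k) * (((w⁻¹ : Aˣ) : A) : k) = 1 := by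
      have : (w : A) * ((w⁻¹ : Aˣ) : A) = 1 := by simp
      exact_mod_cast congrArg Subtype.val this
    rw [this, map_one, map_one]
  refine le_antisymm h1 ?_
  calc (1 : V.ValueGroup) = V.valuation (algebraMap k C ((w : A) : k)) *
      V.valuation (algebraMap k C (((w⁻¹ : Aˣ) : A) : k)) := h3.symm
    _ ≤ V.valuation (algebraMap k C ((w : A) : k)) * 1 := by gcongr
    _ = _ := mul_one _

/-- In an equation `∑ a_i u^i = 0` with coefficients in `k` two nonzero terms have the same (largest)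
value, so `|u|^(j - i) = |a|` with `a ∈ k` not `0`, `j > i`. As `A` is a discrete valuation ring with
uniformiser `ϖ`, `|a| = |ϖ|^r`, `|π| = |ϖ|^t` with `t ≠ 0`: `|u|^((j - i) |t|) = |π|^(± r)`. -/
theorem val_torsion [Algebra.IsAlgebraic k C] {A : ValuationSubring k}
    [IsDiscreteValuationRing A] {V : ValuationSubring C} (h : Above A V) (u : C) (hu : u ≠ 0)
    (π : k) (hπ : π ≠ 0) (hπ1 : A.valuation π ≠ 1) :
    ∃ (m : ℕ) (n : ℤ), 0 < m ∧ V.valuation u ^ m = V.valuation (algebraMap k C π) ^ n := by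
  obtain ⟨P, hP0, hPu⟩ := Algebra.IsAlgebraic.isAlgebraic (R := k) u
  have hne : P.support.Nonempty := Polynomial.support_nonempty.2 hP0
  have hterm : ∀ i ∈ P.support, algebraMap k C (P.coeff i) ≠ 0 := by
    intro i hi
    rw [Ne, map_eq_zero_iff _ (algebraMap k C).injective]
    exact Polynomial.mem_support_iff.1 hi
  obtain ⟨i, hi, j, hj, hij, heq⟩ := a6_two (V := V) P.support
    (fun i => algebraMap k C (P.coeff i) * u ^ i)
    (fun i hi => mul_ne_zero (hterm i hi) (pow_ne_zero i hu)) hne (by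
      rw [Polynomial.aeval_def, Polynomial.eval₂_eq_sum, Polynomial.sum] at hPu
      exact hPu)
  simp only [map_mul, map_pow] at heq
  have hvu : V.valuation u ≠ 0 := (Valuation.ne_zero_iff _).2 hu
  have hvi := (Valuation.ne_zero_iff V.valuation).2 (hterm i hi)
  have hvj := (Valuation.ne_zero_iff V.valuation).2 (hterm j hj)
  set a : k := P.coeff i / P.coeff j with ha
  have ha0 : a ≠ 0 := div_ne_zero (Polynomial.mem_support_iff.1 hi)
    (Polynomial.mem_support_iff.1 hj)
  have hua : V.valuation u ^ (j - i) = V.valuation (algebraMap k C a) := by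
    rw [ha, map_div₀, map_div₀, eq_div_iff hvj]
    have e1 : V.valuation u ^ j = V.valuation u ^ (j - i) * V.valuation u ^ i := by
      rw [← pow_add]; congr 1; omega
    rw [e1] at heq
    have e2 : V.valuation u ^ i ≠ 0 := pow_ne_zero i hvu
    apply mul_right_cancel₀ e2
    rw [heq, ← mul_assoc, mul_comm (V.valuation u ^ (j - i))]
  obtain ⟨ϖ, hϖ⟩ := IsDiscreteValuationRing.exists_irreducible A
  obtain ⟨r, w, hr⟩ := a6_rep A hϖ a ha0
  obtain ⟨t, w', ht⟩ := a6_rep A hϖ π hπ
  have hvr : V.valuation (algebraMap k C a) = V.valuation (algebraMap k C (ϖ : k)) ^ r := by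
    rw [hr, map_mul, map_mul, a6_unit h, one_mul, map_zpow₀, map_zpow₀]
  have hvt : V.valuation (algebraMap k C π) = V.valuation (algebraMap k C (ϖ : k)) ^ t := by
    rw [ht, map_mul, map_mul, a6_unit h, one_mul, map_zpow₀, map_zpow₀]
  have ht0 : t ≠ 0 := by
    rintro rfl
    apply hπ1
    rw [ht, zpow_zero, mul_one]
    exact A.valuation_unit w'
  set ρ := V.valuation (algebraMap k C (ϖ : k)) with hρ
  refine ⟨(j - i) * t.natAbs, r * t.sign, ?_, ?_⟩
  · exact Nat.mul_pos (by omega) (Int.natAbs_pos.2 ht0)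
  · rw [pow_mul, hua, hvr, hvt, ← zpow_natCast, ← zpow_mul, ← zpow_mul]
    congr 1
    have : (t.natAbs : ℤ) = t.sign * t := by
      rw [Int.natCast_natAbs]; exact (Int.sign_mul_self_eq_abs t).symm
    rw [this]; ring

/-- A discrete valuation ring is not a field: there is `π` with `A.valuation π ≠ 1`, `π ≠ 0`. -/
theorem exists_pi (A : ValuationSubring k) [IsDiscreteValuationRing A] :
    ∃ π : k, π ≠ 0 ∧ A.valuation π ≠ 1 := by
  obtain ⟨ϖ, hϖ⟩ := IsDiscreteValuationRing.exists_irreducible A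
  refine ⟨ϖ, fun h => hϖ.ne_zero (Subtype.ext h), fun h => hϖ.not_isUnit ?_⟩
  exact (A.valuation_eq_one_iff ϖ).2 h

end SC2
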