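import Pool.Agent.MP_c1dca2_ag.SC2.A7

set_option autoImplicit false

open IsLocalRing

namespace SC2

variable {k C : Type} [Field k] [Field C] [Algebra k C]

/-! ## [SC2-A8] the group `Wild` has no `2`-quotients (file A8.lean; uses A7) -/

/-- a nonzero abelian group killed by `2 ^ n` has a nonzero homomorphism to `ZMod 2` -/
theorem a8_func (A : Type) [AddCommGroup A] (n : ℕ) (h : ∀ a : A, (2 ^ n) • a = 0) (a0 : A)
    (ha0 : a0 ≠ 0) : ∃ (ψ : A →+ ZMod 2) (a : A), ψ a ≠ 0 := by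
  let N : AddSubgroup A := (nsmulAddMonoidHom (α := A) 2).range
  have hmem : ∀ a, a ∈ N ↔ ∃ b : A, 2 • b = a := fun a => Iff.rfl
  obtain ⟨a1, ha1⟩ : ∃ a1, a1 ∉ N := by
    by_contra hcon
    push Not at hcon
    have h1 : ∀ m : ℕ, ∀ a : A, ∃ b : A, (2 ^ m) • b = a := by
      intro m
      induction m with
      | zero => intro a; exact ⟨a, by simp⟩
      | succ m ih =>
        intro a
        obtain ⟨b, hb⟩ := ih a
        obtain ⟨c, hc⟩ := (hmem b).1 (hcon b)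
        exact ⟨c, by rw [pow_succ, mul_smul, hc, hb]⟩
    obtain ⟨b, hb⟩ := h1 n a0
    exact ha0 (by rw [← hb, h b])
  have h2 : ∀ x : A ⧸ N, 2 • x = 0 := by
    intro x
    obtain ⟨a, rfl⟩ := QuotientAddGroup.mk_surjective x
    rw [← QuotientAddGroup.mk_nsmul, QuotientAddGroup.eq_zero_iff]
    exact ⟨a, rfl⟩
  let _ : Module (ZMod 2) (A ⧸ N) := AddCommGroup.zmodModule h2
  have h3 : (QuotientAddGroup.mk a1 : A ⧸ N) ≠ 0 := by
    intro h0
    exact ha1 ((QuotientAddGroup.eq_zero_iff a1).1 h0)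
  have h4 : ∃ φ : Module.Dual (ZMod 2) (A ⧸ N), φ (QuotientAddGroup.mk a1 : A ⧸ N) ≠ 0 := by
    by_contra hcon
    push Not at hcon
    exact h3 ((Module.forall_dual_apply_eq_zero_iff (ZMod 2) _).1 hcon)
  obtain ⟨φ, hφ⟩ := h4
  exact ⟨φ.toAddMonoidHom.comp (QuotientAddGroup.mk' N), a1, hφ⟩

/-- the subgroup `Wild` -/
def a8W (V : ValuationSubring C) (π : ℕ → C) : Subgroup (C ≃ₐ[k] C) where
  carrier := {σ | Wild V π σ}
  mul_mem' := fun {a b} ha hb => ⟨ha.iner.mul hb.iner, fun m => by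
    rw [AlgEquiv.mul_apply, hb.fix, ha.fix]⟩
  one_mem' := ⟨Iner.one V, fun _ => rfl⟩
  inv_mem' := fun {a} ha => ⟨ha.iner.inv, fun m => by
    have h0 : a⁻¹ (a (π m)) = π m := by rw [← AlgEquiv.mul_apply]; simp
    rw [ha.fix] at h0
    exact h0⟩

theorem a8_mem (V : ValuationSubring C) (π : ℕ → C) (σ : C ≃ₐ[k] C) :
    σ ∈ a8W V π ↔ Wild V π σ := Iff.rfl

/-- a set which is stable under an open subgroup is open -/
theorem a8_open_of_stable (E : IntermediateField k C) [FiniteDimensional k E]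
    (D : Set (C ≃ₐ[k] C)) (h : ∀ σ ∈ D, ∀ τ, σ⁻¹ * τ ∈ E.fixingSubgroup → τ ∈ D) :
    IsOpen D := by
  rw [isOpen_iff_mem_nhds]
  intro σ hσ
  have h1 : IsOpen {τ : C ≃ₐ[k] C | σ⁻¹ * τ ∈ E.fixingSubgroup} :=
    (IntermediateField.fixingSubgroup_isOpen E).preimage (continuous_const_mul σ⁻¹)
  refine Filter.mem_of_superset (h1.mem_nhds ?_) fun τ hτ => h σ hσ τ hτ
  change σ⁻¹ * σ ∈ E.fixingSubgroup
  rw [inv_mul_cancel]
  exact one_mem _

theorem a8_clopen [IsGalois k C] (x : C) (P : C → Prop) : IsClosed {σ : C ≃ₐ[k] C | P (σ x)} := by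
  rw [← isOpen_compl_iff]
  have hfd : FiniteDimensional k (IntermediateField.adjoin k {x}) :=
    IntermediateField.adjoin.finiteDimensional (Algebra.IsIntegral.isIntegral x)
  refine a8_open_of_stable (IntermediateField.adjoin k {x}) _ ?_
  intro σ hσ τ hτ hP
  apply hσ
  have h1 : (σ⁻¹ * τ) x = x :=
    (IntermediateField.mem_fixingSubgroup_iff _ _).1 hτ x (IntermediateField.mem_adjoin_simple_self k x)
  have h2 : τ x = σ x := by
    have h3 : σ ((σ⁻¹ * τ) x) = τ x := by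
      rw [← AlgEquiv.mul_apply, mul_inv_cancel_left]
    rw [← h3, h1]
  change P (σ x)
  rw [← h2]
  exact hP

theorem a8_closed [IsGalois k C] (V : ValuationSubring C) (π : ℕ → C) :
    IsClosed (a8W (k := k) V π : Set (C ≃ₐ[k] C)) := by
  have h1 : (a8W (k := k) V π : Set (C ≃ₐ[k] C)) =
      (⋂ z : C, {σ : C ≃ₐ[k] C | (σ z ∈ V ↔ z ∈ V)}) ∩
      ((⋂ z : C, {σ : C ≃ₐ[k] C | z ∈ V → σ z - z ∈ V.nonunits}) ∩
      (⋂ m : ℕ, {σ : C ≃ₐ[k] C | σ (π m) = π m})) := by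
    ext σ
    simp only [Set.mem_inter_iff, Set.mem_iInter, Set.mem_ofPred_eq, SetLike.mem_coe, a8_mem]
    constructor
    · intro h
      exact ⟨h.iner.stab, h.iner.triv, h.fix⟩
    · rintro ⟨h1, h2, h3⟩
      exact ⟨⟨h1, h2⟩, h3⟩
  rw [h1]
  refine (isClosed_iInter fun z => a8_clopen z (fun y => y ∈ V ↔ z ∈ V)).inter
    ((isClosed_iInter fun z => a8_clopen z (fun y => z ∈ V → y - z ∈ V.nonunits)).inter
    (isClosed_iInter fun m => a8_clopen (π m) (fun y => y = π m)))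

/-- `J = {σ | Wild V π σ}` is a closed subgroup of `Gal(C/k)` (stabilisers of elements are open and
closed, the conditions `σ z ∈ V`, `σ z - z ∈ V.nonunits` only depend on `σ z`). On `J`, `χ` is a
homomorphism with open kernel (it contains `J ∩ Gal(C/E)`), so its image is a finite abelian group
killed by `2^n`. If it is not `0` it has a subgroup of index `2`; let `J'` be its preimage in `J`, a closed
subgroup of index `2` of `J`. By infinite Galois theory (`InfiniteGalois`,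
`IntermediateField.fixedField`, `InfiniteGalois.fixingSubgroup_fixedField`) there is `t` fixed by
`J'` and not by `J`; for `σ₁ ∈ J` not in `J'` put `z = t - σ₁ t ≠ 0`: `σ z = z` for `σ ∈ J'`,
`σ z = - z` for the other `σ ∈ J`. So `z²` is fixed by `J`, by `exists_sqrt` `z² = w²` with `w` fixed by
`J`, and `z = ± w` is fixed by `J`: `σ₁ z = z = - z`, contradiction (`2 ≠ 0`). -/
theorem two_group [IsAlgClosed C] [IsGalois k C] {V : ValuationSubring C}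
    (h2 : V.valuation 2 = 1) (π : ℕ → C) (hπ : ∀ m, π (m + 1) ^ 2 = π m) (hπ0 : π 0 ≠ 0)
    (hT : ∀ u : C, u ≠ 0 → ∃ (m : ℕ) (n : ℤ), 0 < m ∧
      V.valuation u ^ m = V.valuation (π 0) ^ n)
    (H : Type) [AddCommGroup H] (χ : (C ≃ₐ[k] C) → H)
    (hadd : ∀ σ τ, Wild V π σ → Wild V π τ → χ (σ * τ) = χ σ + χ τ) (n : ℕ)
    (htor : ∀ σ, Wild V π σ → (2 ^ n) • χ σ = 0) (E : IntermediateField k C)
    [FiniteDimensional k E] (hE : ∀ σ, Wild V π σ → σ ∈ E.fixingSubgroup → χ σ = 0)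
    (σ : C ≃ₐ[k] C) (hσ : Wild V π σ) : χ σ = 0 := by
  by_contra hne
  -- the homomorphism
  let f : Additive (a8W (k := k) V π) →+ H :=
    AddMonoidHom.mk' (fun τ => χ (τ.toMul : C ≃ₐ[k] C)) (fun a b => hadd _ _ a.toMul.2 b.toMul.2)
  have hf : ∀ τ : a8W (k := k) V π, f (Additive.ofMul τ) = χ (τ : C ≃ₐ[k] C) := fun _ => rfl
  obtain ⟨ψ, ⟨_, ⟨a1, rfl⟩⟩, ha1⟩ := a8_func f.range n (by
    rintro ⟨_, ⟨a, rfl⟩⟩
    apply Subtype.ext
    exact htor _ a.toMul.2) ⟨f (Additive.ofMul ⟨σ, hσ⟩), ⟨_, rfl⟩⟩ (by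
      intro h0
      exact hne (congrArg Subtype.val h0))
  let Ψ : Additive (a8W (k := k) V π) →+ ZMod 2 := ψ.comp f.rangeRestrict
  have hΨE : ∀ τ : a8W (k := k) V π, (τ : C ≃ₐ[k] C) ∈ E.fixingSubgroup →
      Ψ (Additive.ofMul τ) = 0 := by
    intro τ hτ
    have h1 : f.rangeRestrict (Additive.ofMul τ) = 0 := by
      apply Subtype.ext
      exact hE _ τ.2 hτ
    change ψ (f.rangeRestrict (Additive.ofMul τ)) = 0
    rw [h1, map_zero]
  let σ₁ : a8W (k := k) V π := a1.toMul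
  have hσ₁ : Ψ (Additive.ofMul σ₁) ≠ 0 := ha1
  -- the kernel
  let J : Subgroup (C ≃ₐ[k] C) := (AddMonoidHom.toMultiplicativeRight Ψ).ker.map
    (a8W (k := k) V π).subtype
  have hJ : ∀ τ : a8W (k := k) V π, (τ : C ≃ₐ[k] C) ∈ J ↔ Ψ (Additive.ofMul τ) = 0 := by
    intro τ
    constructor
    · rintro ⟨τ', h1, h2⟩
      have h3 : τ' = τ := Subtype.ext h2
      rw [← h3]
      exact h1
    · intro h
      exact ⟨τ, h, rfl⟩
  have hJW : ∀ τ ∈ J, τ ∈ a8W (k := k) V π := by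
    rintro τ ⟨τ', -, rfl⟩
    exact τ'.2
  have hJc : IsClosed (J : Set (C ≃ₐ[k] C)) := by
    have h1 : (J : Set (C ≃ₐ[k] C)) = (a8W (k := k) V π : Set (C ≃ₐ[k] C)) ∩
        {τ | ∃ ρ ∈ J, ρ⁻¹ * τ ∈ E.fixingSubgroup} := by
      ext τ
      constructor
      · intro h
        exact ⟨hJW τ h, τ, h, by rw [inv_mul_cancel]; exact one_mem _⟩
      · rintro ⟨hτ, ρ, hρ, hρτ⟩
        have hρW := hJW ρ hρ
        have h2 := (hJ ⟨ρ, hρW⟩).1 hρ
        have h3 : Ψ (Additive.ofMul (⟨ρ, hρW⟩⁻¹ * ⟨τ, hτ⟩ : a8W (k := k) V π)) = 0 :=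
          hΨE _ hρτ
        have h4 : (⟨τ, hτ⟩ : a8W (k := k) V π) = ⟨ρ, hρW⟩ * (⟨ρ, hρW⟩⁻¹ * ⟨τ, hτ⟩) := by
          rw [mul_inv_cancel_left]
        refine (hJ ⟨τ, hτ⟩).2 ?_
        rw [h4, ofMul_mul, map_add, h2, h3, add_zero]
    rw [h1]
    refine (a8_closed V π).inter ?_
    rw [← isOpen_compl_iff]
    refine a8_open_of_stable E _ ?_
    intro τ hτ τ' hττ'
    rintro ⟨ρ, hρ, hρτ⟩
    apply hτ
    refine ⟨ρ, hρ, ?_⟩
    have h2 : ρ⁻¹ * τ = (ρ⁻¹ * τ') * (τ⁻¹ * τ')⁻¹ := by group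
    rw [h2]
    exact mul_mem hρτ (inv_mem hττ')
  have hfix : (IntermediateField.fixedField J).fixingSubgroup = J :=
    InfiniteGalois.fixingSubgroup_fixedField (⟨J, hJc⟩ : ClosedSubgroup (C ≃ₐ[k] C))
  have hσ₁J : (σ₁ : C ≃ₐ[k] C) ∉ J := fun h => hσ₁ ((hJ σ₁).1 h)
  obtain ⟨t, ht, htσ⟩ : ∃ t : C, (∀ τ ∈ J, τ t = t) ∧ (σ₁ : C ≃ₐ[k] C) t ≠ t := by
    by_contra hcon
    push Not at hcon
    apply hσ₁J
    have h1 : (σ₁ : C ≃ₐ[k] C) ∈ (IntermediateField.fixedField J).fixingSubgroup := by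
      rw [IntermediateField.mem_fixingSubgroup_iff]
      intro x hx
      exact hcon x (fun τ hτ => (IntermediateField.mem_fixedField_iff _ _).1 hx τ hτ)
    rw [hfix] at h1
    exact h1
  -- conjugation and cosets
  have hconj : ∀ ρ : a8W (k := k) V π, Ψ (Additive.ofMul ρ) = 0 →
      (ρ : C ≃ₐ[k] C) ((σ₁ : C ≃ₐ[k] C) t) = (σ₁ : C ≃ₐ[k] C) t := by
    intro ρ hρ
    have h1 : Ψ (Additive.ofMul (σ₁⁻¹ * ρ * σ₁)) = 0 := by
      rw [ofMul_mul, ofMul_mul, ofMul_inv, map_add, map_add, map_neg, hρ]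
      abel
    have h2 := ht _ ((hJ _).2 h1)
    have h3 : (ρ : C ≃ₐ[k] C) ((σ₁ : C ≃ₐ[k] C) t) =
        (σ₁ : C ≃ₐ[k] C) (((σ₁⁻¹ * ρ * σ₁ : a8W (k := k) V π) : C ≃ₐ[k] C) t) := by
      rw [← AlgEquiv.mul_apply, ← AlgEquiv.mul_apply]
      congr 1
      push_cast
      group
    rw [h3, h2]
  have hpos : ∀ ρ : a8W (k := k) V π, Ψ (Additive.ofMul ρ) = 0 →
      (ρ : C ≃ₐ[k] C) (t - (σ₁ : C ≃ₐ[k] C) t) = t - (σ₁ : C ≃ₐ[k] C) t := by
    intro ρ hρ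
    rw [map_sub, hconj ρ hρ, ht _ ((hJ ρ).2 hρ)]
  have htwo : ∀ a b : ZMod 2, a ≠ 0 → b ≠ 0 → a = b := by decide
  have hneg : ∀ ρ : a8W (k := k) V π, Ψ (Additive.ofMul ρ) ≠ 0 →
      (ρ : C ≃ₐ[k] C) (t - (σ₁ : C ≃ₐ[k] C) t) = -(t - (σ₁ : C ≃ₐ[k] C) t) := by
    intro ρ hρ
    have h0 := htwo _ _ hρ hσ₁
    -- `ρ t = σ₁ t`
    have h1 : Ψ (Additive.ofMul (σ₁⁻¹ * ρ)) = 0 := by
      rw [ofMul_mul, ofMul_inv, map_add, map_neg, h0]
      abel
    have h2 : (ρ : C ≃ₐ[k] C) t = (σ₁ : C ≃ₐ[k] C) t := by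
      have h3 := ht _ ((hJ _).2 h1)
      have h4 : (ρ : C ≃ₐ[k] C) t =
          (σ₁ : C ≃ₐ[k] C) (((σ₁⁻¹ * ρ : a8W (k := k) V π) : C ≃ₐ[k] C) t) := by
        rw [← AlgEquiv.mul_apply]
        congr 1
        push_cast
        group
      rw [h4, h3]
    -- `ρ σ₁ t = t`
    have h5 : Ψ (Additive.ofMul (ρ * σ₁)) = 0 := by
      rw [ofMul_mul, map_add, h0]
      exact CharTwo.add_self_eq_zero _
    have h6 : (ρ : C ≃ₐ[k] C) ((σ₁ : C ≃ₐ[k] C) t) = t := by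
      have h7 := ht _ ((hJ _).2 h5)
      exact h7
    rw [map_sub, h2, h6]
    ring
  set z : C := t - (σ₁ : C ≃ₐ[k] C) t with hz
  have hz0 : z ≠ 0 := fun h => htσ (sub_eq_zero.1 h).symm
  obtain ⟨w, hw, hwfix⟩ := exists_sqrt (k := k) h2 π hπ hπ0 hT (z ^ 2) (by
    intro τ hτ
    rw [map_pow]
    by_cases h : Ψ (Additive.ofMul (⟨τ, hτ⟩ : a8W (k := k) V π)) = 0
    · rw [hpos ⟨τ, hτ⟩ h]
    · rw [hneg ⟨τ, hτ⟩ h, neg_sq])
  have h1 := hneg σ₁ hσ₁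
  have h3 := hwfix σ₁ σ₁.2
  have h4 : (σ₁ : C ≃ₐ[k] C) z = z := by
    have h5 : (z - w) * (z + w) = 0 := by linear_combination -hw
    rcases mul_eq_zero.1 h5 with h6 | h6
    · rw [sub_eq_zero.1 h6, h3]
    · rw [eq_neg_of_add_eq_zero_left h6, map_neg, h3]
  rw [h4] at h1
  have h5 : (2 : C) * z = 0 := by linear_combination h1
  rcases mul_eq_zero.1 h5 with h6 | h6
  · rw [h6, map_zero] at h2
    exact zero_ne_one h2
  · exact hz0 h6

end SC2
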