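import Pool.Agent.MP_c1dca2_ag.SC2.AB

set_option autoImplicit false

open IsLocalRing

namespace SC2

variable {k C : Type} [Field k] [Field C] [Algebra k C]

/-! ## [SC2-A1] valuation rings above `A` (file A1.lean) -/

/-- The image of `A` in `C` is a local ring; a valuation ring of `C` dominates it
(`LocalSubring.exists_le_valuationSubring`). If `a ∉ A` then `a⁻¹` is in the maximal ideal of `A`,
hence in the maximal ideal of `V`, and `a ∉ V`. -/
theorem exists_above (A : ValuationSubring k) : ∃ V : ValuationSubring C, Above A V := by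
  obtain ⟨V, h, hloc⟩ := IsLocalRing.exists_factor_valuationRing
    (R := A) ((algebraMap k C).comp A.subtype)
  refine ⟨V, fun a => ⟨fun ha => ?_, fun ha => h ⟨a, ha⟩⟩⟩
  by_contra hn
  have ha0 : a ≠ 0 := by
    rintro rfl
    exact hn (zero_mem A)
  have hinv : a⁻¹ ∈ A := (A.mem_or_inv_mem a).resolve_left hn
  have hu : IsUnit ((((algebraMap k C).comp A.subtype).codRestrict V.toSubring h) ⟨a⁻¹, hinv⟩) := by
    refine IsUnit.of_mul_eq_one ⟨algebraMap k C a, ha⟩ ?_
    apply Subtype.ext
    change algebraMap k C a⁻¹ * algebraMap k C a = 1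
    rw [← map_mul, inv_mul_cancel₀ ha0, map_one]
  have hu2 := hloc.map_nonunit _ hu
  obtain ⟨⟨c, hc⟩, hc2⟩ := hu2.exists_right_inv
  have hc3 : a⁻¹ * c = 1 := congrArg Subtype.val hc2
  have hc4 : c = a := by
    have := congrArg (fun t => a * t) hc3
    simp only [← mul_assoc, mul_inv_cancel₀ ha0, one_mul, mul_one] at this
    exact this
  exact hn (hc4 ▸ hc)

/-- the integral closure of `A` is the intersection of the valuation rings which contain `A` -/
theorem a1_integral (A : ValuationSubring k) (y : C)
    (h : ∀ W : ValuationSubring C, (∀ a ∈ A, algebraMap k C a ∈ W) → y ∈ W) :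
    ((algebraMap k C).comp A.subtype).IsIntegralElem y := by
  let _ : Algebra A C := ((algebraMap k C).comp A.subtype).toAlgebra
  by_contra hy
  have hy' : y ∉ (integralClosure A C).toSubring := hy
  obtain ⟨W, hW, hyW⟩ := Subring.exists_le_valuationSubring_of_isIntegrallyClosedIn hy'
  apply hyW
  apply h W
  intro a ha
  apply hW
  exact (integralClosure A C).algebraMap_mem ⟨a, ha⟩

/-- The elements of `V` are fractions of elements integral over `A` with denominators which are
units of `V`. Let `∑ a_i x^i = 0` with `a_i ∈ k`, normalised (divide by a coefficient of largest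
value, the last one of this value) so that `a_i ∈ A` for all `i`, `a_j = 1` and `a_i` is in the maximal
ideal for `i > j`. Put `y = 1 + a_{j+1} x + ... + a_n x^(n-j)` and
`z' = a_{j-1} + a_{j-2} x⁻¹ + ... + a_0 x^(1-j)`, so `x y = - z'`. If `W` is any valuation ring of `C`
containing (the image of) `A`: if `x ∈ W` then `y, x y ∈ W`; if `x⁻¹ ∈ W` then `z' ∈ W` and
`y = - z' x⁻¹ ∈ W`. So `y` and `x y` are in all `W`, hence integral over `A`
(`iInf_valuationSubring_superset`, `Subring.eq_iInf_of_isIntegrallyClosedIn`). `y` is congruent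
to `1` modulo the maximal ideal of `V` because `x ∈ V`. -/
theorem val_frac [Algebra.IsAlgebraic k C] {A : ValuationSubring k} {V : ValuationSubring C}
    (h : Above A V) (x : C) (hx : x ∈ V) :
    ∃ y z : C, ((algebraMap k C).comp A.subtype).IsIntegralElem y ∧
      ((algebraMap k C).comp A.subtype).IsIntegralElem z ∧ V.valuation y = 1 ∧ x * y = z := by
  by_cases hx0 : x = 0
  · refine ⟨1, 0, RingHom.isIntegralElem_one _, RingHom.isIntegralElem_zero _, map_one _, ?_⟩
    rw [hx0, zero_mul]
  obtain ⟨P, hP0, hP⟩ := Algebra.IsAlgebraic.isAlgebraic (R := k) x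
  obtain ⟨j, hj, hmax⟩ := Finset.exists_max_image P.support
    (fun i => toLex (A.valuation (P.coeff i), i)) (Polynomial.support_nonempty.2 hP0)
  have hcj : P.coeff j ≠ 0 := Polynomial.mem_support_iff.1 hj
  have hvj : A.valuation (P.coeff j) ≠ 0 := (Valuation.ne_zero_iff _).2 hcj
  have hmax' : ∀ i, A.valuation (P.coeff i) < A.valuation (P.coeff j) ∨
      (A.valuation (P.coeff i) = A.valuation (P.coeff j) ∧ i ≤ j) := by
    intro i
    by_cases hi : i ∈ P.support
    · exact Prod.Lex.toLex_le_toLex.1 (hmax i hi)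
    · left
      rw [Polynomial.notMem_support_iff.1 hi, map_zero]
      exact zero_lt_iff.2 hvj
  set b : ℕ → k := fun i => P.coeff i / P.coeff j with hb
  have hbj : b j = 1 := div_self hcj
  have hb1 : ∀ i, b i ∈ A := by
    intro i
    rw [← A.valuation_le_one_iff, hb]
    simp only [map_div₀]
    apply div_le_one_of_le₀ _ zero_le
    rcases hmax' i with h1 | h1
    · exact h1.le
    · exact h1.1.le
  have hb2 : ∀ i, j < i → A.valuation (b i) < 1 := by
    intro i hi
    rw [hb]
    simp only [map_div₀]
    rcases hmax' i with h1 | h1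
    · exact (div_lt_one₀ (zero_lt_iff.2 hvj)).2 h1
    · exact absurd h1.2 (not_le.2 hi)
  -- the values in `V` of the small coefficients
  have hb3 : ∀ i, j < i → V.valuation (algebraMap k C (b i)) < 1 := by
    intro i hi
    by_cases h0 : b i = 0
    · rw [h0, map_zero, map_zero]
      exact zero_lt_one
    by_contra hcon
    push Not at hcon
    have h1 : algebraMap k C (b i)⁻¹ ∈ V := by
      rw [← V.valuation_le_one_iff, map_inv₀, map_inv₀]
      exact inv_le_one_of_one_le₀ hcon
    have h2 := (h _).1 h1
    rw [← A.valuation_le_one_iff, map_inv₀] at h2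
    have h3 : A.valuation (b i) ≠ 0 := (Valuation.ne_zero_iff _).2 h0
    have h4 : A.valuation (b i) * (A.valuation (b i))⁻¹ < 1 :=
      mul_lt_one_of_lt_of_le (hb2 i hi) h2
    rw [mul_inv_cancel₀ h3] at h4
    exact lt_irrefl _ h4
  obtain ⟨N, hN⟩ : ∃ N : ℕ, P.natDegree + 1 = j + N := by
    have h1 : j ≤ P.natDegree := Polynomial.le_natDegree_of_ne_zero hcj
    exact ⟨P.natDegree + 1 - j, by omega⟩
  have hN0 : 0 < N := by
    have h1 : j ≤ P.natDegree := Polynomial.le_natDegree_of_ne_zero hcj
    omega
  have hsum : ∑ i ∈ Finset.range (j + N), algebraMap k C (b i) * x ^ i = 0 := by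
    have h1 : ∑ i ∈ Finset.range (P.natDegree + 1), algebraMap k C (P.coeff i) * x ^ i = 0 := by
      rw [← hP, Polynomial.aeval_def, Polynomial.eval₂_eq_sum_range]
    rw [← hN]
    have h2 : ∀ i ∈ Finset.range (P.natDegree + 1), algebraMap k C (b i) * x ^ i =
        (algebraMap k C (P.coeff j))⁻¹ * (algebraMap k C (P.coeff i) * x ^ i) := by
      intro i _
      rw [hb]
      simp only [map_div₀]
      ring
    rw [Finset.sum_congr rfl h2, ← Finset.mul_sum, h1, mul_zero]
  rw [Finset.sum_range_add] at hsum
  set y : C := ∑ i ∈ Finset.range N, algebraMap k C (b (j + i)) * x ^ i with hy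
  set z' : C := ∑ i ∈ Finset.range j, algebraMap k C (b i) * (x⁻¹) ^ (j - 1 - i) with hz'
  have hxy : x * y = -z' := by
    have h1 : ∑ i ∈ Finset.range N, algebraMap k C (b (j + i)) * x ^ (j + i) = x ^ j * y := by
      rw [hy, Finset.mul_sum]
      refine Finset.sum_congr rfl fun i _ => ?_
      rw [pow_add]
      ring
    rw [h1] at hsum
    rcases Nat.eq_zero_or_pos j with hj0 | hj0
    · subst hj0
      rw [Finset.sum_range_zero, zero_add, pow_zero, one_mul] at hsum
      rw [hz', Finset.sum_range_zero, hsum, mul_zero, neg_zero]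
    · have h2 : ∑ i ∈ Finset.range j, algebraMap k C (b i) * x ^ i = x ^ (j - 1) * z' := by
        rw [hz', Finset.mul_sum]
        refine Finset.sum_congr rfl fun i hi => ?_
        rw [Finset.mem_range] at hi
        have h3 : x ^ (j - 1) * (x⁻¹) ^ (j - 1 - i) = x ^ i := by
          have h4 : j - 1 = i + (j - 1 - i) := by omega
          conv_lhs => rw [h4, pow_add]
          rw [Nat.add_sub_cancel_left, mul_assoc, ← mul_pow, mul_inv_cancel₀ hx0, one_pow, mul_one]
        rw [← h3]
        ring
      have h5 : x ^ j = x ^ (j - 1) * x := by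
        rw [← pow_succ]
        congr 1
        omega
      rw [h2, h5, mul_assoc, ← mul_add] at hsum
      have h6 := (mul_eq_zero.1 hsum).resolve_left (pow_ne_zero _ hx0)
      linear_combination h6
  have key : ∀ W : ValuationSubring C, (∀ a ∈ A, algebraMap k C a ∈ W) → y ∈ W ∧ x * y ∈ W := by
    intro W hW
    rcases W.mem_or_inv_mem x with hxW | hxW
    · have h1 : y ∈ W := sum_mem fun i _ => mul_mem (hW _ (hb1 _)) (pow_mem hxW _)
      exact ⟨h1, mul_mem hxW h1⟩
    · have h1 : z' ∈ W := sum_mem fun i _ => mul_mem (hW _ (hb1 _)) (pow_mem hxW _)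
      have h2 : x * y ∈ W := by rw [hxy]; exact neg_mem h1
      refine ⟨?_, h2⟩
      have h3 : y = x⁻¹ * (x * y) := by rw [← mul_assoc, inv_mul_cancel₀ hx0, one_mul]
      rw [h3]
      exact mul_mem hxW h2
  refine ⟨y, x * y, a1_integral A y fun W hW => (key W hW).1,
    a1_integral A _ fun W hW => (key W hW).2, ?_, rfl⟩
  -- the value of `y`
  obtain ⟨N', rfl⟩ : ∃ N', N = N' + 1 := ⟨N - 1, by omega⟩
  have h1 : y = 1 + ∑ i ∈ Finset.range N', algebraMap k C (b (j + (i + 1))) * x ^ (i + 1) := by
    rw [hy, Finset.sum_range_succ', add_comm, add_zero, hbj, map_one, pow_zero, mul_one]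
  rw [h1]
  apply Valuation.map_one_add_of_lt
  apply Valuation.map_sum_lt _ one_ne_zero
  intro i _
  rw [map_mul, map_pow]
  exact mul_lt_one_of_lt_of_le (hb3 _ (by omega))
    (pow_le_one' ((V.valuation_le_one_iff _).2 hx) _)

end SC2
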