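import Pool.Agent.MP_c1dca2_ag.SC2.A3

set_option autoImplicit false

open IsLocalRing

namespace SC2

variable {k C : Type} [Field k] [Field C] [Algebra k C]

/-! ## [SC2-A4] Frobenius elements (file A4.lean; uses A1, A3) -/

/-- the map `A → V` -/
def a4f {A : ValuationSubring k} {V : ValuationSubring C} (h : Above A V) : A →+* V where
  toFun a := ⟨algebraMap k C a, (h a).2 a.2⟩
  map_one' := Subtype.ext (by simp)
  map_mul' a b := Subtype.ext (by simp)
  map_zero' := Subtype.ext (by simp)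
  map_add' a b := Subtype.ext (by simp)

theorem a4f_local {A : ValuationSubring k} {V : ValuationSubring C} (h : Above A V) :
    IsLocalHom (a4f h) := by
  refine ⟨fun a ha => ?_⟩
  have h0 : (a : k) ≠ 0 := by
    intro h1
    have h2 : a4f h a = 0 := Subtype.ext (by
      change algebraMap k C (a : k) = 0
      rw [h1, map_zero])
    rw [h2] at ha
    exact not_isUnit_zero ha
  obtain ⟨b, hb⟩ := ha.exists_right_inv
  have h1 : algebraMap k C a * (b : C) = 1 := congrArg Subtype.val hb
  have h2 : (b : C) = algebraMap k C (a : k)⁻¹ := by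
    rw [map_inv₀]
    exact eq_inv_of_mul_eq_one_right h1
  have h3 : (a : k)⁻¹ ∈ A := by
    rw [← h, ← h2]
    exact b.2
  exact IsUnit.of_mul_eq_one ⟨_, h3⟩ (Subtype.ext (mul_inv_cancel₀ h0))

/-- the map on the residue fields -/
noncomputable def a4k {A : ValuationSubring k} {V : ValuationSubring C} (h : Above A V) :
    ResidueField A →+* ResidueField V :=
  haveI := a4f_local h
  ResidueField.map (a4f h)

theorem a4k_residue {A : ValuationSubring k} {V : ValuationSubring C} (h : Above A V) (a : A) :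
    a4k h (residue A a) = residue V (a4f h a) := rfl

theorem a4_integral {A : ValuationSubring k} {V : ValuationSubring C} (h : Above A V) (y : C)
    (hy : y ∈ V) (hi : ((algebraMap k C).comp A.subtype).IsIntegralElem y) :
    (a4k h).IsIntegralElem (residue V ⟨y, hy⟩) := by
  obtain ⟨p, hp, hpe⟩ := hi
  refine ⟨p.map (residue A), hp.map _, ?_⟩
  rw [Polynomial.eval₂_map]
  have h1 : (a4k h).comp (residue A) = (residue V).comp (a4f h) := rfl
  rw [h1, ← Polynomial.hom_eval₂]
  have h2 : Polynomial.eval₂ (a4f h) (⟨y, hy⟩ : V) p = 0 := by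
    apply Subtype.ext
    change V.subtype _ = 0
    rw [Polynomial.hom_eval₂]
    exact hpe
  rw [h2, map_zero]

theorem a4_nonunits {V : ValuationSubring C} {a b : C} (ha : a ∈ V) (hb : b ∈ V)
    (h : residue V ⟨a, ha⟩ = residue V ⟨b, hb⟩) : a - b ∈ V.nonunits := by
  rw [ValuationSubring.mem_nonunits_iff_exists_mem_maximalIdeal]
  refine ⟨V.sub_mem ha hb, ?_⟩
  rw [← residue_eq_zero_iff]
  have h4 : (⟨a - b, V.sub_mem ha hb⟩ : V) = ⟨a, ha⟩ - ⟨b, hb⟩ := rfl
  rw [h4, map_sub, h, sub_self]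

theorem a4_residue {V : ValuationSubring C} {a b : C} (ha : a ∈ V) (hb : b ∈ V)
    (h : a - b ∈ V.nonunits) : residue V ⟨a, ha⟩ = residue V ⟨b, hb⟩ := by
  rw [ValuationSubring.mem_nonunits_iff_exists_mem_maximalIdeal] at h
  obtain ⟨h1, h2⟩ := h
  have h3 := (residue_eq_zero_iff _).2 h2
  have h4 : (⟨a - b, h1⟩ : V) = ⟨a, ha⟩ - ⟨b, hb⟩ := rfl
  rw [h4, map_sub] at h3
  exact sub_eq_zero.1 h3

/-- The residue field of `V` is algebraic over the finite residue field of `A` (`val_frac`, reduce the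
integral equations), so every element lies in a finite field and `z ↦ z ^ q` is an automorphism which
is the identity on the residue field of `A`. Apply `exists_lift`. -/
theorem exists_frob [IsGalois k C] {A : ValuationSubring k} [Finite (ResidueField A)]
    {V : ValuationSubring C} (h : Above A V) :
    ∃ φ : C ≃ₐ[k] C, Frob (Nat.card (ResidueField A)) V φ := by
  let _ := (a4k h).toAlgebra
  let _ := Fintype.ofFinite (ResidueField A)
  have : Algebra.IsAlgebraic (ResidueField A) (ResidueField V) := by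
    refine ⟨fun w => ?_⟩
    obtain ⟨⟨x, hx⟩, rfl⟩ := residue_surjective w
    obtain ⟨y, z, hy, hz, hyv, hxy⟩ := val_frac h x hx
    have hyV : y ∈ V := (V.valuation_le_one_iff y).1 hyv.le
    have hzV : z ∈ V := by
      rw [← hxy]
      exact V.mul_mem _ _ hx hyV
    have h1 : IsIntegral (ResidueField A) (residue V ⟨y, hyV⟩) := a4_integral h y hyV hy
    have h2 : IsIntegral (ResidueField A) (residue V ⟨z, hzV⟩) := a4_integral h z hzV hz
    have h3 : residue V ⟨x, hx⟩ * residue V ⟨y, hyV⟩ = residue V ⟨z, hzV⟩ := by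
      rw [← map_mul]
      congr 1
      exact Subtype.ext hxy
    have h4 : residue V ⟨y, hyV⟩ ≠ 0 := by
      rw [Ne, residue_eq_zero_iff]
      intro h5
      have h6 := (ValuationSubring.mem_nonunits_iff_exists_mem_maximalIdeal (A := V)).2 ⟨hyV, h5⟩
      rw [ValuationSubring.mem_nonunits_iff, hyv] at h6
      exact lt_irrefl _ h6
    have h5 : residue V ⟨x, hx⟩ = residue V ⟨z, hzV⟩ * (residue V ⟨y, hyV⟩)⁻¹ := by
      rw [← h3, mul_assoc, mul_inv_cancel₀ h4, mul_one]
    rw [h5]
    exact (h2.mul h1.inv).isAlgebraic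
  obtain ⟨σ, hσ, hσ2⟩ := exists_lift h (FiniteField.frobeniusAlgEquivOfAlgebraic
    (ResidueField A) (ResidueField V)).toRingEquiv (by
      intro a ha
      have ha' : a ∈ A := (h a).1 ha
      exact (FiniteField.frobeniusAlgEquivOfAlgebraic
        (ResidueField A) (ResidueField V)).commutes (residue A ⟨a, ha'⟩))
  refine ⟨σ, hσ, fun z hz => ?_⟩
  refine a4_nonunits ((hσ z).2 hz) (V.pow_mem hz _) ?_
  rw [hσ2 z hz, Nat.card_eq_fintype_card]
  have h1 : (⟨z ^ Fintype.card (ResidueField A), V.pow_mem hz _⟩ : V) =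
    ⟨z, hz⟩ ^ Fintype.card (ResidueField A) := rfl
  rw [h1, map_pow]
  rfl

theorem frob_pow {V : ValuationSubring C} {q : ℕ} {φ : C ≃ₐ[k] C} (h : Frob q V φ) (m : ℕ) :
    Frob (q ^ m) V (φ ^ m) := by
  induction m with
  | zero =>
    refine ⟨fun z => Iff.rfl, fun z _ => ?_⟩
    rw [pow_zero, pow_zero, pow_one, AlgEquiv.one_apply, sub_self]
    exact (V.mem_nonunits_iff).2 (by simp)
  | succ m ih =>
    refine ⟨fun z => ?_, fun z hz => ?_⟩
    · rw [pow_succ, AlgEquiv.mul_apply, ih.stab, h.stab]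
    · have h1 : φ z ∈ V := (h.stab z).2 hz
      have h2 : (φ ^ m) (φ z) ∈ V := (ih.stab _).2 h1
      rw [pow_succ, AlgEquiv.mul_apply, pow_succ' q, pow_mul]
      refine a4_nonunits h2 (V.pow_mem (V.pow_mem hz _) _) ?_
      have h3 := a4_residue h2 (V.pow_mem h1 _) (ih.frob _ h1)
      have h4 := a4_residue h1 (V.pow_mem hz _) (h.frob _ hz)
      have h5 : (⟨φ z ^ q ^ m, V.pow_mem h1 _⟩ : V) = ⟨φ z, h1⟩ ^ q ^ m := rfl
      have h6 : (⟨(z ^ q) ^ q ^ m, V.pow_mem (V.pow_mem hz _) _⟩ : V) =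
        ⟨z ^ q, V.pow_mem hz _⟩ ^ q ^ m := rfl
      rw [h3, h5, h6, map_pow, map_pow, h4]

theorem card_odd {A : ValuationSubring k} [Finite (ResidueField A)] {V : ValuationSubring C}
    (h : Above A V) (h2 : V.valuation 2 = 1) :
    Odd (Nat.card (ResidueField A)) ∧ 2 ≤ Nat.card (ResidueField A) := by
  let _ := Fintype.ofFinite (ResidueField A)
  refine ⟨?_, Finite.one_lt_card⟩
  have h20 : (2 : ResidueField A) ≠ 0 := by
    intro h3
    have h4 : a4k h 2 = 0 := by rw [h3, map_zero]
    have h5 : (residue V (2 : V)) = 0 := by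
      rw [map_ofNat] at h4 ⊢
      exact h4
    rw [residue_eq_zero_iff] at h5
    have h6 : (2 : C) ∈ V.nonunits :=
      (ValuationSubring.mem_nonunits_iff_exists_mem_maximalIdeal (A := V)).2 ⟨(2 : V).2, h5⟩
    rw [ValuationSubring.mem_nonunits_iff, h2] at h6
    exact lt_irrefl _ h6
  rw [Nat.card_eq_fintype_card, Nat.odd_iff]
  by_contra hcon
  have h3 : Fintype.card (ResidueField A) % 2 = 0 := by omega
  rw [← FiniteField.even_card_iff_char_two] at h3
  apply h20
  have h4 := CharP.cast_eq_zero (ResidueField A) (ringChar (ResidueField A))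
  rw [h3] at h4
  exact_mod_cast h4

end SC2
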