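import Pool.Agent.MP_c1dca2_ag.SC2.A1

set_option autoImplicit false

open IsLocalRing

namespace SC2

variable {k C : Type} [Field k] [Field C] [Algebra k C]

/-! ## [SC2-A2] the Galois group is transitive on the valuation rings above `A` (file A2.lean; uses A1) -/

/-- the elements of `C` which are integral over `A` -/
abbrev a2_Int (C : Type) [Field C] [Algebra k C] (A : ValuationSubring k) (x : C) : Prop :=
  ((algebraMap k C).comp A.subtype).IsIntegralElem x

theorem a2_int_mem {A : ValuationSubring k} {V : ValuationSubring C} (h : Above A V) {x : C}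
    (hx : a2_Int C A x) : x ∈ V := by
  obtain ⟨p, hp, hpx⟩ := hx
  let f : A →+* V := ((algebraMap k C).comp A.subtype).codRestrict V.toSubring
    (fun a => (h a.1).2 a.2)
  have h1 : IsIntegral V x := by
    refine ⟨p.map f, hp.map f, ?_⟩
    rw [Polynomial.eval₂_map]
    exact hpx
  obtain ⟨y, hy⟩ := (IsIntegrallyClosed.isIntegral_iff (R := V) (K := C)).1 h1
  rw [← hy]
  exact y.2

theorem a2_int_map {A : ValuationSubring k} (g : C ≃ₐ[k] C) {x : C} (hx : a2_Int C A x) :
    a2_Int C A (g x) := by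
  obtain ⟨p, hp, hpx⟩ := hx
  refine ⟨p, hp, ?_⟩
  have h1 : (algebraMap k C).comp A.subtype = (g : C →+* C).comp ((algebraMap k C).comp A.subtype) := by
    ext a
    simp
  have h2 := congrArg g hpx
  rw [map_zero] at h2
  rw [h1]
  exact (Polynomial.hom_eval₂ p ((algebraMap k C).comp A.subtype) (g : C →+* C) x).symm.trans h2

theorem a2_one_way [Algebra.IsAlgebraic k C] {A : ValuationSubring k} {V V' : ValuationSubring C}
    (h : Above A V) (h' : Above A V') (g : C ≃ₐ[k] C)
    (hg : ∀ b, a2_Int C A b → (V'.valuation (g b) < 1 ↔ V.valuation b < 1)) (z : C) (hz : z ∈ V) :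
    g z ∈ V' := by
  obtain ⟨y, z1, hy, hz1, hy1, hyz⟩ := val_frac h z hz
  have h1 : V'.valuation (g y) ≤ 1 := (V'.valuation_le_one_iff _).2 (a2_int_mem h' (a2_int_map g hy))
  have h2 : ¬ V'.valuation (g y) < 1 := by
    rw [hg y hy, hy1]
    exact lt_irrefl _
  have h3 : V'.valuation (g y) = 1 := le_antisymm h1 (not_lt.1 h2)
  have h4 : V'.valuation (g z1) ≤ 1 :=
    (V'.valuation_le_one_iff _).2 (a2_int_mem h' (a2_int_map g hz1))
  rw [← hyz, map_mul, map_mul, h3, mul_one] at h4
  exact (V'.valuation_le_one_iff _).1 h4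

theorem a2_under {A : ValuationSubring k} {V : ValuationSubring C} (h : Above A V) (a : k) :
    V.valuation (algebraMap k C a) < 1 ↔ A.valuation a < 1 := by
  by_cases ha : a = 0
  · rw [ha, map_zero, map_zero, map_zero]
    simp
  · have ha' : algebraMap k C a ≠ 0 := (map_ne_zero _).2 ha
    have h1 : ∀ {L : Type} [Field L] (U : ValuationSubring L) (x : L), x ≠ 0 →
        (U.valuation x < 1 ↔ x⁻¹ ∉ U) := by
      intro L _ U x hx
      rw [← U.valuation_le_one_iff, map_inv₀, not_le,
        one_lt_inv₀ (zero_lt_iff.2 ((Valuation.ne_zero_iff _).2 hx))]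
    rw [h1 V _ ha', h1 A _ ha, ← map_inv₀, h]

/-- Let `B` be the integral closure of `A` in `C`, `G = Gal(C/k)` (profinite, Krull topology, `B`
discrete), `Q`, `Q'` the contractions to `B` of the maximal ideals of `V`, `V'`: both lie over the
maximal ideal of `A`. `Algebra.IsInvariant.exists_smul_of_under_eq_of_profinite`
(Mathlib.RingTheory.Invariant.Profinite; see also Mathlib.RingTheory.Invariant.Galois) gives `σ`
with `σ Q = Q'`. If `z ∈ V`, `val_frac` writes `z = z₁ / y₁`, `y₁ ∉ Q`; then `σ y₁ ∈ B` is not in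
`Q'`, i.e. a unit of `V'`, and `σ z = σ z₁ / σ y₁ ∈ V'`. The same for `σ⁻¹`. -/
theorem exists_conj [IsGalois k C] {A : ValuationSubring k} {V V' : ValuationSubring C}
    (h : Above A V) (h' : Above A V') : ∃ σ : C ≃ₐ[k] C, ∀ z, σ z ∈ V' ↔ z ∈ V := by
  letI : Algebra A C := ((algebraMap k C).comp A.subtype).toAlgebra
  haveI : SMulCommClass (C ≃ₐ[k] C) A C := ⟨fun g a x => by
    change g (algebraMap k C a * x) = algebraMap k C a * g x
    rw [map_mul, g.commutes]⟩
  let B := integralClosure A C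
  letI : TopologicalSpace B := ⊥
  haveI : DiscreteTopology B := ⟨rfl⟩
  haveI : ContinuousSMul (C ≃ₐ[k] C) B := by
    rw [continuousSMul_iff_stabilizer_isOpen]
    intro x
    have h1 : MulAction.stabilizer (C ≃ₐ[k] C) x = MulAction.stabilizer (C ≃ₐ[k] C) (x : C) := by
      ext g
      rw [MulAction.mem_stabilizer_iff, MulAction.mem_stabilizer_iff]
      exact ⟨fun h => congrArg Subtype.val h, fun h => Subtype.ext h⟩
    rw [h1]
    exact stabilizer_isOpen_of_isIntegral (K := k) (x : C)
  haveI : Algebra.IsInvariant A B (C ≃ₐ[k] C) := ⟨fun b hb => by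
    have h1 : (b : C) ∈ Set.range (algebraMap k C) := by
      rw [InfiniteGalois.mem_range_algebraMap_iff_fixed]
      intro g
      exact congrArg Subtype.val (hb g)
    obtain ⟨a, ha⟩ := h1
    have h2 : IsIntegral A (b : C) := b.2
    have h3 : IsIntegral A a := by
      obtain ⟨p, hp, hpb⟩ := h2
      refine ⟨p, hp, ?_⟩
      apply (algebraMap k C).injective
      rw [Polynomial.hom_eval₂, ha, map_zero]
      exact hpb
    obtain ⟨a', ha'⟩ := (IsIntegrallyClosed.isIntegral_iff (R := A) (K := k)).1 h3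
    refine ⟨a', ?_⟩
    apply Subtype.ext
    rw [← ha, ← ha']
    rfl⟩
  have hint : ∀ {U : ValuationSubring C}, Above A U → ∀ b : B, (b : C) ∈ U := fun hU b =>
    a2_int_mem hU b.2
  let ι : ∀ {U : ValuationSubring C}, Above A U → (B →+* U) := fun {U} hU =>
    B.toSubring.subtype.codRestrict U.toSubring (fun b => hint hU b)
  let P : Ideal B := (maximalIdeal V).comap (ι h)
  let P' : Ideal B := (maximalIdeal V').comap (ι h')
  have hmem : ∀ {U : ValuationSubring C} (hU : Above A U) (b : B),
      b ∈ (maximalIdeal U).comap (ι hU) ↔ U.valuation (b : C) < 1 := by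
    intro U hU b
    rw [Ideal.mem_comap]
    exact U.valuation_lt_one_iff (ι hU b)
  haveI : P.IsPrime := Ideal.comap_isPrime _ _
  haveI : P'.IsPrime := Ideal.comap_isPrime _ _
  have hPP : P.under A = P'.under A := by
    ext a
    exact ((hmem h _).trans (a2_under h (a : k))).trans
      ((hmem h' _).trans (a2_under h' (a : k))).symm
  obtain ⟨g, hg⟩ := Algebra.IsInvariant.exists_smul_of_under_eq_of_profinite
    (A := A) (B := B) (G := C ≃ₐ[k] C) P P' hPP
  have hg1 : ∀ b, a2_Int C A b → (V'.valuation (g b) < 1 ↔ V.valuation b < 1) := by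
    intro b hb
    let b' : B := ⟨b, hb⟩
    have h1 := hmem h' (g • b')
    have h2 := hmem h b'
    have h3 : g • b' ∈ P' ↔ b' ∈ P := by
      rw [hg]
      exact Ideal.smul_mem_pointwise_smul_iff
    exact h1.symm.trans (h3.trans h2)
  have hg2 : ∀ b, a2_Int C A b → (V.valuation (g⁻¹ b) < 1 ↔ V'.valuation b < 1) := by
    intro b hb
    have h1 := hg1 (g⁻¹ b) (a2_int_map g⁻¹ hb)
    have h2 : g (g⁻¹ b) = b := by
      rw [← AlgEquiv.mul_apply, mul_inv_cancel, AlgEquiv.one_apply]
    rw [h2] at h1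
    exact h1.symm
  refine ⟨g, fun z => ⟨fun hz => ?_, fun hz => a2_one_way h h' g hg1 z hz⟩⟩
  have h3 := a2_one_way h' h g⁻¹ hg2 _ hz
  have h2 : g⁻¹ (g z) = z := by
    rw [← AlgEquiv.mul_apply, inv_mul_cancel, AlgEquiv.one_apply]
  rwa [h2] at h3

end SC2
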