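import Pool.Agent.MP_c1dca2_ag.SC2.A8

set_option autoImplicit false

open IsLocalRing

namespace SC2

variable {k C : Type} [Field k] [Field C] [Algebra k C]

/-! ## [SC2-A9] Frobenius acts on tame inertia by `q` (file A9.lean; uses A8) -/

/-- Roots of unity of order a power of `2` are incongruent: if `|ζ - 1| < 1`, `ζ^(2^m) = 1`, then
`ζ = 1` (if `ζ ≠ 1` some power `ζ^(2^i)` is `- 1` and `|- 1 - 1| = 1`). -/
theorem root_of_unity {V : ValuationSubring C} (h2 : V.valuation 2 = 1) (m : ℕ) (ζ : C)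
    (hζ : ζ ^ (2 ^ m) = 1) (h1 : V.valuation (ζ - 1) < 1) : ζ = 1 := by
  induction m generalizing ζ with
  | zero => simpa using hζ
  | succ m ih =>
    have hle : V.valuation (ζ + 1) ≤ 1 := by
      have h3 : ζ + 1 = (ζ - 1) + 2 := by ring
      rw [h3]
      refine (V.valuation.map_add _ _).trans ?_
      rw [h2]
      exact max_le h1.le le_rfl
    have h4 : V.valuation (ζ ^ 2 - 1) < 1 := by
      have h5 : ζ ^ 2 - 1 = (ζ - 1) * (ζ + 1) := by ring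
      rw [h5, map_mul]
      exact mul_lt_one_of_lt_of_le h1 hle
    have h6 : ζ ^ 2 = 1 := ih (ζ ^ 2) (by rw [← pow_mul, ← pow_succ', hζ]) h4
    have h6' : ζ = 1 ∨ ζ = -1 := by
      have h9 : (ζ - 1) * (ζ + 1) = 0 := by linear_combination h6
      rcases mul_eq_zero.1 h9 with h9 | h9
      · exact Or.inl (sub_eq_zero.1 h9)
      · exact Or.inr (eq_neg_of_add_eq_zero_left h9)
    rcases h6' with h7 | h7
    · exact h7
    · exfalso
      rw [h7] at h1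
      have h8 : (-1 : C) - 1 = -2 := by ring
      rw [h8, Valuation.map_neg, h2] at h1
      exact lt_irrefl _ h1

theorem a9_two_ne {V : ValuationSubring C} (h2 : V.valuation 2 = 1) : (2 : C) ≠ 0 := by
  intro h
  rw [h, map_zero] at h2
  exact zero_ne_one h2

theorem a9_val_one {V : ValuationSubring C} (m : ℕ) (ζ : C) (hζ : ζ ^ (2 ^ m) = 1) :
    V.valuation ζ = 1 := by
  have h1 : V.valuation ζ ^ (2 ^ m) = 1 := by rw [← map_pow, hζ, map_one]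
  exact (pow_eq_one_iff_of_nonneg zero_le (pow_ne_zero _ two_ne_zero)).1 h1

theorem a9_mem {V : ValuationSubring C} (m : ℕ) (ζ : C) (hζ : ζ ^ (2 ^ m) = 1) : ζ ∈ V := by
  rw [← V.valuation_le_one_iff, a9_val_one m ζ hζ]

/-- Two `2`-power roots of unity which are congruent are equal. -/
theorem a9_eq {V : ValuationSubring C} (h2 : V.valuation 2 = 1) (m : ℕ) (ζ ξ : C)
    (hζ : ζ ^ (2 ^ m) = 1) (hξ : ξ ^ (2 ^ m) = 1) (h : V.valuation (ξ - ζ) < 1) : ξ = ζ := by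
  have hz : ζ ≠ 0 := by
    rintro rfl
    rw [zero_pow (pow_ne_zero _ two_ne_zero)] at hζ
    exact zero_ne_one hζ
  have h1 : ξ / ζ = 1 := by
    refine root_of_unity h2 m (ξ / ζ) (by rw [div_pow, hζ, hξ, div_one]) ?_
    have h3 : ξ / ζ - 1 = (ξ - ζ) / ζ := by field_simp
    rw [h3, map_div₀, a9_val_one m ζ hζ, div_one]
    exact h
  rwa [div_eq_one_iff_eq hz] at h1

theorem a9_iner {V : ValuationSubring C} (h2 : V.valuation 2 = 1) (m : ℕ) (ζ : C)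
    (hζ : ζ ^ (2 ^ m) = 1) (τ : C ≃ₐ[k] C) (hτ : Iner V τ) : τ ζ = ζ := by
  refine a9_eq h2 m ζ (τ ζ) hζ (by rw [← map_pow, hζ, map_one]) ?_
  have h1 := hτ.triv ζ (a9_mem m ζ hζ)
  rwa [V.mem_nonunits_iff] at h1

theorem a9_frob {V : ValuationSubring C} (h2 : V.valuation 2 = 1) (m : ℕ) (ζ : C)
    (hζ : ζ ^ (2 ^ m) = 1) (q : ℕ) (φ : C ≃ₐ[k] C) (hφ : Frob q V φ) : φ ζ = ζ ^ q := by
  refine a9_eq h2 m (ζ ^ q) (φ ζ) (by rw [← pow_mul, mul_comm, pow_mul, hζ, one_pow])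
    (by rw [← map_pow, hζ, map_one]) ?_
  have h1 := hφ.frob ζ (a9_mem m ζ hζ)
  rwa [V.mem_nonunits_iff] at h1

/-- `τ (π m) = ζ π m` with `ζ^(2^m) = 1`, `τ ζ = ζ`, `φ ζ = ζ^q` (`root_of_unity`),
`φ⁻¹ (π m) = η π m`; so `φ τ φ⁻¹ (π m) = φ(η ζ π m) = φ(ζ) π m = ζ^q π m = τ^q (π m)`. -/
theorem tame_relation {V : ValuationSubring C} (h2 : V.valuation 2 = 1)
    (π : ℕ → C) (hπ : ∀ m, π (m + 1) ^ 2 = π m) (hπ0 : π 0 ≠ 0)
    (hπk : ∃ a : k, π 0 = algebraMap k C a) (q : ℕ) (φ : C ≃ₐ[k] C) (hφ : Frob q V φ)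
    (τ : C ≃ₐ[k] C) (hτ : Iner V τ) : Wild V π (φ * τ * φ⁻¹ * (τ ^ q)⁻¹) := by
  have hρ : Iner V (φ * τ * φ⁻¹ * (τ ^ q)⁻¹) := by
    have h1 : τ ^ q ∈ inertia (k := k) V := (inertia V).pow_mem hτ q
    exact Iner.mul (Iner.conj hτ hφ.stab) (Iner.inv h1)
  refine ⟨hρ, fun m => ?_⟩
  have hpow : ∀ m, π m ^ (2 ^ m) = π 0 := by
    intro m
    induction m with
    | zero => simp
    | succ m ih => rw [pow_succ', pow_mul, hπ, ih]
  have hne : π m ≠ 0 := by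
    intro h0
    have h1 := hpow m
    rw [h0, zero_pow (pow_ne_zero _ two_ne_zero)] at h1
    exact hπ0 h1.symm
  obtain ⟨a, ha⟩ := hπk
  have hroot : ∀ σ : C ≃ₐ[k] C, (σ (π m) / π m) ^ (2 ^ m) = 1 := by
    intro σ
    rw [div_pow, ← map_pow, hpow m, ha, σ.commutes]
    exact div_self (by rw [← ha]; exact hπ0)
  have hz : ∀ σ : C ≃ₐ[k] C, σ (π m) = (σ (π m) / π m) * π m := fun σ => by
    field_simp
  set ζ := τ (π m) / π m with hζdef
  have hζ : ζ ^ (2 ^ m) = 1 := hroot τ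
  have hη := hroot φ⁻¹
  set η := φ⁻¹ (π m) / π m with hηdef
  have e1 : τ (π m) = ζ * π m := hz τ
  have e2 : φ⁻¹ (π m) = η * π m := hz φ⁻¹
  have e3 : (φ * τ * φ⁻¹) (π m) = ζ ^ q * π m := by
    have h3 : φ (η * π m) = π m := by
      rw [← e2, ← AlgEquiv.mul_apply]
      simp
    rw [AlgEquiv.mul_apply, AlgEquiv.mul_apply, e2, map_mul τ, a9_iner h2 m η hη τ hτ, e1]
    have h4 : η * (ζ * π m) = ζ * (η * π m) := by ring
    rw [h4, map_mul φ, h3, a9_frob h2 m ζ hζ q φ hφ]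
  have e4 : ∀ n : ℕ, (τ ^ n) (π m) = ζ ^ n * π m := by
    intro n
    induction n with
    | zero => simp
    | succ n ih =>
      rw [pow_succ', AlgEquiv.mul_apply, ih, map_mul, map_pow, a9_iner h2 m ζ hζ τ hτ, e1]
      ring
  have e5 : (φ * τ * φ⁻¹ * (τ ^ q)⁻¹) ((τ ^ q) (π m)) = (φ * τ * φ⁻¹) (π m) := by
    rw [← AlgEquiv.mul_apply]
    congr 1
    group
  rw [e4 q, e3, map_mul, map_pow, a9_iner h2 m ζ hζ _ hρ] at e5
  have hζ0 : ζ ≠ 0 := by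
    intro h0
    rw [h0, zero_pow (pow_ne_zero _ two_ne_zero)] at hζ
    exact zero_ne_one hζ
  exact mul_left_cancel₀ (pow_ne_zero q hζ0) e5

/-- `J` is a subgroup between `{σ | Wild V π σ}` and the inertia group, `χ` a homomorphism on `J`
with values in a group of exponent `2^n`, and continuous. `χ (φ τ φ⁻¹) = q • χ τ`: use
`tame_relation` and `two_group` (`φ τ φ⁻¹ = ρ τ^q` with `Wild V π ρ`). -/
theorem weight [IsAlgClosed C] [IsGalois k C] {V : ValuationSubring C}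
    (h2 : V.valuation 2 = 1) (π : ℕ → C) (hπ : ∀ m, π (m + 1) ^ 2 = π m) (hπ0 : π 0 ≠ 0)
    (hπk : ∃ a : k, π 0 = algebraMap k C a)
    (hT : ∀ u : C, u ≠ 0 → ∃ (m : ℕ) (n : ℤ), 0 < m ∧
      V.valuation u ^ m = V.valuation (π 0) ^ n)
    (J : Subgroup (C ≃ₐ[k] C)) (hJ : ∀ σ ∈ J, Iner V σ)
    (hJ' : ∀ σ : C ≃ₐ[k] C, Wild V π σ → σ ∈ J)
    (H : Type) [AddCommGroup H] (χ : (C ≃ₐ[k] C) → H)
    (hadd : ∀ σ ∈ J, ∀ τ ∈ J, χ (σ * τ) = χ σ + χ τ) (n : ℕ)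
    (htor : ∀ σ ∈ J, (2 ^ n) • χ σ = 0) (E : IntermediateField k C)
    [FiniteDimensional k E] (hE : ∀ σ ∈ J, σ ∈ E.fixingSubgroup → χ σ = 0) (q : ℕ)
    (φ : C ≃ₐ[k] C) (hφ : Frob q V φ) (τ : C ≃ₐ[k] C) (hτ : τ ∈ J) :
    χ (φ * τ * φ⁻¹) = q • χ τ := by
  have hw := tame_relation h2 π hπ hπ0 hπk q φ hφ τ (hJ τ hτ)
  have h1 : χ (φ * τ * φ⁻¹ * (τ ^ q)⁻¹) = 0 :=
    two_group h2 π hπ hπ0 hT H χ (fun σ σ' h h' => hadd σ (hJ' σ h) σ' (hJ' σ' h')) n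
      (fun σ h => htor σ (hJ' σ h)) E (fun σ h hf => hE σ (hJ' σ h) hf) _ hw
  have h3 : χ 1 = 0 := by
    have h4 := hadd 1 J.one_mem 1 J.one_mem
    rw [mul_one] at h4
    exact left_eq_add.1 h4
  have h5 : ∀ n : ℕ, χ (τ ^ n) = n • χ τ := by
    intro n
    induction n with
    | zero => simpa using h3
    | succ n ih =>
      rw [pow_succ, hadd _ (J.pow_mem hτ n) _ hτ, ih, succ_nsmul]
  have h6 : φ * τ * φ⁻¹ = (φ * τ * φ⁻¹ * (τ ^ q)⁻¹) * τ ^ q := by group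
  rw [h6, hadd _ (hJ' _ hw) _ (J.pow_mem hτ q), h1, zero_add, h5]

end SC2
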