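import Pool.Agent.MP_c1dca2_ag.SEC.M4
import Pool.Agent.MP_c1dca2_ag.SC2.A6
import Pool.Agent.MP_c1dca2_ag.SC2.A9
import Pool.Agent.MP_c1dca2_ag.SC2.B1

set_option autoImplicit false

open Polynomial SEC

namespace SC2

variable {k K : Type} [Field k] [Field K] [Algebra k K]

/-! ## [SC2-B3] continuity, and sign characters (file B3.lean; uses A6, A9) -/

/-- The stabiliser of `z ∈ M` in `Gal(M/K)` is open (`z` is algebraic over `K`), `s` is continuous, so
`{σ | s σ z = z}` is an open neighbourhood of `1` and contains `Gal(k^alg / E)` for a finite extension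
`E` of `k` (`krullTopology_mem_nhds_one_iff` or similar; see also `m4_stab`). -/
theorem open_stab (s : Sect k K) (z : Mnr k K) :
    ∃ E : IntermediateField k (kb k K), FiniteDimensional k E ∧
      ∀ σ ∈ E.fixingSubgroup, s.toHom σ z = z := by
  have hz : IsIntegral K z := (Algebra.IsAlgebraic.isAlgebraic (R := K) z).isIntegral
  have : FiniteDimensional K (IntermediateField.adjoin K {z}) :=
    IntermediateField.adjoin.finiteDimensional hz
  have h1 : IsOpen ((IntermediateField.adjoin K {z}).fixingSubgroup :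
      Set (Mnr k K ≃ₐ[K] Mnr k K)) := IntermediateField.fixingSubgroup_isOpen _
  have h2 : IsOpen (s.toHom ⁻¹' ((IntermediateField.adjoin K {z}).fixingSubgroup :
      Set (Mnr k K ≃ₐ[K] Mnr k K))) := h1.preimage s.cont
  have h3 : (s.toHom ⁻¹' ((IntermediateField.adjoin K {z}).fixingSubgroup :
      Set (Mnr k K ≃ₐ[K] Mnr k K))) ∈ nhds (1 : kb k K ≃ₐ[k] kb k K) := by
    refine h2.mem_nhds ?_
    rw [Set.mem_preimage, map_one]
    exact Subgroup.one_mem _
  rw [krullTopology_mem_nhds_one_iff] at h3
  obtain ⟨E, hE, hsub⟩ := h3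
  refine ⟨E, hE, fun σ hσ => ?_⟩
  have h4 := hsub hσ
  rw [Set.mem_preimage, SetLike.mem_coe, IntermediateField.mem_fixingSubgroup_iff] at h4
  exact h4 z (IntermediateField.mem_adjoin_simple_self K z)

/-- A compatible sequence of roots of `a ∈ k` (`k^alg` is algebraically closed). -/
theorem exists_tower (a : k) : ∃ π : ℕ → kb k K, π 0 = algebraMap k (kb k K) a ∧
    ∀ m, π (m + 1) ^ 2 = π m := by
  have : IsAlgClosed (kb k K) := kb_isAlgClosed
  have h : ∀ x : kb k K, ∃ y : kb k K, y ^ 2 = x := fun x =>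
    IsAlgClosed.exists_pow_nat_eq x two_pos
  choose r hr using h
  refine ⟨fun n => Nat.rec (algebraMap k (kb k K) a) (fun _ x => r x) n, rfl, fun m => ?_⟩
  exact hr _

/-- A nonzero element of `M` on which the inertia group acts through signs: `φ τ φ⁻¹` and `τ` act by
the same sign (`q` is odd). Apply `weight` with `J` the inertia group, `H = ZMod 2` (`n = 1`),
`χ σ = 0` if `s σ S = S` and `1` otherwise, `E` from `open_stab`; `π` from `exists_pi`,
`exists_tower`, and `val_torsion`. -/
theorem sign_frob [CharZero k] {A : ValuationSubring k} [IsDiscreteValuationRing A]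
    {V : ValuationSubring (kb k K)} (h : Above A V) (h2 : V.valuation 2 = 1) (s : Sect k K)
    (S : Mnr k K) (hS0 : S ≠ 0)
    (hS : ∀ σ, Iner V σ → s.toHom σ S = S ∨ s.toHom σ S = -S) (q : ℕ) (hq : Odd q)
    (φ : kb k K ≃ₐ[k] kb k K) (hφ : Frob q V φ) (τ : kb k K ≃ₐ[k] kb k K) (hτ : Iner V τ) :
    s.toHom (φ * τ * φ⁻¹) S = S ↔ s.toHom τ S = S := by
  classical
  have hac : IsAlgClosed (kb k K) := kb_isAlgClosed
  have hgal : IsGalois k (kb k K) := kb_isGalois
  have hch : CharZero (Mnr k K) := by
    have : CharZero K := charZero_of_injective_algebraMap (algebraMap k K).injective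
    exact charZero_of_injective_algebraMap (algebraMap K (Mnr k K)).injective
  have hneg : S ≠ -S := by
    intro h0
    apply hS0
    have h1 : (2 : Mnr k K) * S = 0 := by linear_combination h0
    exact (mul_eq_zero.1 h1).resolve_left two_ne_zero
  obtain ⟨a, ha0, ha1⟩ := exists_pi A
  obtain ⟨π, hπ, hπ'⟩ := exists_tower (K := K) a
  obtain ⟨E, hEf, hE⟩ := open_stab s S
  have hπ0 : π 0 ≠ 0 := by
    rw [hπ]
    exact (_root_.map_ne_zero _).2 ha0
  have key := weight (k := k) (C := kb k K) h2 π hπ' hπ0 ⟨a, hπ⟩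
    (fun u hu => by
      rw [hπ]
      exact val_torsion h u hu a ha0 ha1)
    (inertia V) (fun σ hσ => hσ) (fun σ hσ => hσ.iner) (ZMod 2)
    (fun σ => if s.toHom σ S = S then 0 else 1)
    (by
      intro σ hσ τ' hτ'
      have e1 : s.toHom (σ * τ') S = s.toHom σ (s.toHom τ' S) := by
        rw [map_mul, AlgEquiv.mul_apply]
      show (if s.toHom (σ * τ') S = S then (0 : ZMod 2) else 1) =
        (if s.toHom σ S = S then (0 : ZMod 2) else 1) + (if s.toHom τ' S = S then (0 : ZMod 2) else 1)
      rw [e1]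
      rcases hS σ hσ with h3 | h3 <;> rcases hS τ' hτ' with h4 | h4
      · rw [h4, h3, if_pos rfl, add_zero]
      · rw [h4, map_neg, h3, if_neg hneg.symm, if_pos rfl, zero_add]
      · rw [h4, h3, if_neg hneg.symm, if_pos rfl, add_zero]
      · rw [h4, map_neg, h3, neg_neg, if_pos rfl, if_neg hneg.symm]
        decide)
    1 (by
      intro σ hσ
      show (2 ^ 1) • (if s.toHom σ S = S then (0 : ZMod 2) else 1) = 0
      split_ifs <;> decide)
    E (by
      intro σ _ hσE
      exact if_pos (hE σ hσE)) q φ hφ τ hτ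
  have key' : (if s.toHom (φ * τ * φ⁻¹) S = S then (0 : ZMod 2) else 1) =
      q • (if s.toHom τ S = S then (0 : ZMod 2) else 1) := key
  have hq1 : ∀ x : ZMod 2, q • x = x := by
    intro x
    obtain ⟨j, rfl⟩ := hq
    rw [add_smul, one_smul, mul_comm, mul_smul]
    have : (2 : ℕ) • x = 0 := by
      rw [two_nsmul]
      exact CharTwo.add_self_eq_zero x
    rw [this, smul_zero, zero_add]
  rw [hq1] at key'
  constructor
  · intro h5
    rw [if_pos h5] at key'
    by_contra h6
    rw [if_neg h6] at key'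
    exact absurd key' (by decide)
  · intro h5
    rw [if_pos h5] at key'
    by_contra h6
    rw [if_neg h6] at key'
    exact absurd key' (by decide)

end SC2
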