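import Pool.Agent.MP_c1dca2_ag.SC2.AB

set_option autoImplicit false

open Polynomial IsLocalRing

namespace SC2

variable {k C : Type} [Field k] [Field C] [Algebra k C]

/-! ## [SC2-C2] the roots of a polynomial with good reduction (file C2.lean) -/

theorem c2_fun (s : Multiset C) (n : ℕ) (hn : Multiset.card s = n) :
    ∃ r : Fin n → C, s = Finset.univ.val.map r := by
  subst hn
  obtain ⟨l, hl⟩ : ∃ l : List C, s = (l : Multiset C) := ⟨s.toList, (s.coe_toList).symm⟩
  subst hl
  refine ⟨l.get, ?_⟩
  have h := Fin.univ_val_map (f := l.get)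
  rw [List.ofFn_get] at h
  exact h.symm

/-- the ring homomorphism `A → V` -/
noncomputable def c2_g {A : ValuationSubring k} {V : ValuationSubring C} (h : Above A V) :
    A →+* V :=
  ((algebraMap k C).comp A.subtype).codRestrict V.toSubring (fun a => (h a).2 a.2)

theorem c2_local {A : ValuationSubring k} {V : ValuationSubring C} (h : Above A V) :
    IsLocalHom (c2_g h) := by
  refine ⟨fun a ha => ?_⟩
  have h1 : V.valuation (algebraMap k C a) = 1 := (V.valuation_eq_one_iff _).1 ha
  have h2 : algebraMap k C (a : k)⁻¹ ∈ V := by
    rw [map_inv₀, ← V.valuation_le_one_iff, map_inv₀, h1, inv_one]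
  have h3 : (a : k)⁻¹ ∈ A := (h _).1 h2
  have h4 : (a : k) ≠ 0 := by
    intro h5
    rw [h5, map_zero, map_zero] at h1
    exact zero_ne_one h1
  exact IsUnit.of_mul_eq_one ⟨_, h3⟩ (Subtype.ext (mul_inv_cancel₀ h4))

theorem c2_map {A : ValuationSubring k} {V : ValuationSubring C} (h : Above A V) (f : A[X]) :
    (f.map A.subtype).map (algebraMap k C) = (f.map (c2_g h)).map V.subtype := by
  rw [Polynomial.map_map, Polynomial.map_map]
  rfl

theorem c2_val {V : ValuationSubring C} (z : V) : residue V z ≠ 0 ↔ V.valuation (z : C) = 1 := by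
  rw [Ne, residue_eq_zero_iff, V.valuation_lt_one_iff]
  constructor
  · intro h
    exact le_antisymm (V.valuation_le_one z) (not_lt.1 h)
  · intro h
    rw [h]
    exact lt_irrefl _

theorem c2_res {A : ValuationSubring k} {V : ValuationSubring C} (h : Above A V) (f : A[X]) :
    ∃ κ : ResidueField A →+* ResidueField V,
      (f.map (c2_g h)).map (residue V) = (f.map (residue A)).map κ := by
  have := c2_local h
  refine ⟨ResidueField.map (c2_g h), ?_⟩
  rw [Polynomial.map_map, Polynomial.map_map, ResidueField.map_comp_residue]

theorem c2_deg {A : ValuationSubring k} (V : ValuationSubring C) (h : Above A V) (f : A[X])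
    (hdeg : (f.map (residue A)).natDegree = f.natDegree) (h0 : f.map (residue A) ≠ 0) :
    V.valuation (algebraMap k C (f.leadingCoeff : k)) = 1 := by
  have := c2_local h
  have h1 : residue A f.leadingCoeff ≠ 0 := by
    have h2 : (f.map (residue A)).leadingCoeff ≠ 0 := leadingCoeff_ne_zero.2 h0
    rw [leadingCoeff, hdeg, coeff_map] at h2
    exact h2
  have h2 : residue V (c2_g h f.leadingCoeff) ≠ 0 := by
    rw [← ResidueField.map_residue]
    intro h3
    exact h1 ((map_eq_zero _).1 h3)
  exact (c2_val _).1 h2

/-- `f` splits over `C`; the leading coefficient is a unit of `A` because the degree does not drop, so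
the roots are integral over `A` and in `V`; the reduction `∏ (X - r̄ i)` times a unit is separable, so
the `r i` are incongruent. -/
theorem exists_roots [IsAlgClosed C] {A : ValuationSubring k} {V : ValuationSubring C}
    (h : Above A V) (f : A[X]) (hsep : (f.map (residue A)).Separable)
    (hdeg : (f.map (residue A)).natDegree = f.natDegree) :
    ∃ (r : Fin f.natDegree → C) (l : k), V.valuation (algebraMap k C l) = 1 ∧
      (f.map A.subtype).map (algebraMap k C) =
        Polynomial.C (algebraMap k C l) * ∏ i, (X - Polynomial.C (r i)) ∧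
      (∀ i, r i ∈ V) ∧ ∀ i j, i ≠ j → V.valuation (r i - r j) = 1 := by
  have h0 : f.map (residue A) ≠ 0 := hsep.ne_zero
  have hl := c2_deg V h f hdeg h0
  set F : C[X] := (f.map A.subtype).map (algebraMap k C) with hF
  have hinj : Function.Injective ((algebraMap k C).comp A.subtype) :=
    (algebraMap k C).injective.comp A.subtype_injective
  have hFd : F.natDegree = f.natDegree := by
    rw [hF, Polynomial.map_map, natDegree_map_eq_of_injective hinj]
  have hFl : F.leadingCoeff = algebraMap k C (f.leadingCoeff : k) := by
    rw [leadingCoeff, hFd, hF, Polynomial.map_map, coeff_map]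
    rfl
  have hs : F.Splits := IsAlgClosed.splits F
  obtain ⟨r, hr⟩ := c2_fun F.roots f.natDegree (by rw [← hs.natDegree_eq_card_roots, hFd])
  have hprod : F = Polynomial.C (algebraMap k C (f.leadingCoeff : k)) *
      ∏ i, (X - Polynomial.C (r i)) := by
    have h1 := hs.eq_prod_roots
    rw [hr, hFl, Multiset.map_map] at h1
    exact h1
  have hroot : ∀ i, F.eval (r i) = 0 := by
    intro i
    rw [hprod, eval_mul, eval_prod]
    rw [Finset.prod_eq_zero (Finset.mem_univ i) (by simp), mul_zero]
  have hmem : ∀ i, r i ∈ V := by
    intro i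
    rw [← V.valuation_le_one_iff]
    by_contra hcon
    push Not at hcon
    have h1 := hroot i
    set ρ := r i with hρ
    have h2 : F.eval ρ = ∑ j ∈ Finset.range (f.natDegree + 1), F.coeff j * ρ ^ j := by
      rw [eval_eq_sum_range, hFd]
    rw [Finset.sum_range_succ, h1] at h2
    have hρ0 : V.valuation ρ ≠ 0 := by
      intro h3
      rw [h3] at hcon
      exact absurd hcon (by simp)
    have h3 : V.valuation (F.coeff f.natDegree * ρ ^ f.natDegree) =
        V.valuation ρ ^ f.natDegree := by
      rw [map_mul, map_pow]
      have : F.coeff f.natDegree = algebraMap k C (f.leadingCoeff : k) := by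
        rw [← hFl, leadingCoeff, hFd]
      rw [this, hl, one_mul]
    have h4 : V.valuation (∑ j ∈ Finset.range f.natDegree, F.coeff j * ρ ^ j) <
        V.valuation ρ ^ f.natDegree := by
      apply Valuation.map_sum_lt _ (pow_ne_zero _ hρ0)
      intro j hj
      rw [map_mul, map_pow]
      have h5 : V.valuation (F.coeff j) ≤ 1 := by
        rw [hF, Polynomial.map_map, coeff_map, V.valuation_le_one_iff]
        exact (h _).2 (f.coeff j).2
      calc V.valuation (F.coeff j) * V.valuation ρ ^ j ≤ 1 * V.valuation ρ ^ j :=
            mul_le_mul_left h5 _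
        _ = V.valuation ρ ^ j := one_mul _
        _ < V.valuation ρ ^ f.natDegree :=
            pow_lt_pow_right₀ hcon (Finset.mem_range.1 hj)
    have h5 : F.coeff f.natDegree * ρ ^ f.natDegree =
        -(∑ j ∈ Finset.range f.natDegree, F.coeff j * ρ ^ j) := by
      linear_combination -h2
    rw [h5, Valuation.map_neg] at h3
    rw [h3] at h4
    exact lt_irrefl _ h4
  refine ⟨r, f.leadingCoeff, hl, hprod, hmem, ?_⟩
  obtain ⟨κ, hκ⟩ := c2_res h f
  have h1 : f.map (c2_g h) = Polynomial.C (c2_g h f.leadingCoeff) *
      ∏ i, (X - Polynomial.C (⟨r i, hmem i⟩ : V)) := by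
    apply Polynomial.map_injective V.subtype V.subtype_injective
    rw [← c2_map, ← hF, hprod]
    rw [Polynomial.map_mul, Polynomial.map_C, Polynomial.map_prod]
    congr 1
    apply Finset.prod_congr rfl
    intro i _
    rw [Polynomial.map_sub, Polynomial.map_X, Polynomial.map_C]
    rfl
  have h2 : (∏ i, (X - Polynomial.C (residue V (⟨r i, hmem i⟩ : V)))).Separable := by
    have h3 : ((f.map (residue A)).map κ).Separable := hsep.map
    rw [← hκ, h1, Polynomial.map_mul, Polynomial.map_prod] at h3
    have h4 := h3.of_mul_right
    have h5 : ∀ i, (X - Polynomial.C (⟨r i, hmem i⟩ : V)).map (residue V) =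
        X - Polynomial.C (residue V (⟨r i, hmem i⟩ : V)) := by
      intro i
      rw [Polynomial.map_sub, Polynomial.map_X, Polynomial.map_C]
    simp only [h5] at h4
    exact h4
  have h3 := separable_prod_X_sub_C_iff.1 h2
  intro i j hij
  have h4 : residue V ((⟨r i, hmem i⟩ : V) - ⟨r j, hmem j⟩) ≠ 0 := by
    rw [map_sub, sub_ne_zero]
    exact fun h5 => hij (h3 h5)
  exact (c2_val _).1 h4

/-- A root of `f` in `V` congruent to its `q`-th power, `q` the number of elements of the residue field
`F_q` of `A`, gives a root of the reduction in `F_q` (the roots of `X^q - X` in the residue field of `V`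
are the elements of `F_q`). -/
theorem root_not_fixed {A : ValuationSubring k} [Finite (ResidueField A)]
    {V : ValuationSubring C} (h : Above A V) (f : A[X])
    (hroot : ∀ a, (f.map (residue A)).eval a ≠ 0) (ρ : C) (hρ : ρ ∈ V)
    (hf : ((f.map A.subtype).map (algebraMap k C)).eval ρ = 0) :
    ¬ (ρ ^ Nat.card (ResidueField A) - ρ ∈ V.nonunits) := by
  intro hcon
  have := c2_local h
  set R : V := ⟨ρ, hρ⟩ with hR
  have h1 : (residue V R) ^ Nat.card (ResidueField A) = residue V R := by
    have h2 : residue V (R ^ Nat.card (ResidueField A) - R) = 0 := by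
      rw [residue_eq_zero_iff, V.valuation_lt_one_iff]
      exact hcon
    rw [map_sub, map_pow, sub_eq_zero] at h2
    exact h2
  have _ := Fintype.ofFinite (ResidueField A)
  set κ := ResidueField.map (c2_g h) with hκ
  have hone : 1 < Nat.card (ResidueField A) := by
    rw [Nat.card_eq_fintype_card]; exact Fintype.one_lt_card
  have h3 : ∃ a : ResidueField A, κ a = residue V R := by
    have h4 : (X ^ Nat.card (ResidueField A) - X : (ResidueField V)[X]).roots =
        (Finset.univ.val : Multiset (ResidueField A)).map κ := by
      have h5 : (X ^ Nat.card (ResidueField A) - X : (ResidueField V)[X]) =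
          (X ^ Nat.card (ResidueField A) - X : (ResidueField A)[X]).map κ := by
        simp
      have h6 : (X ^ Nat.card (ResidueField A) - X : (ResidueField A)[X]).roots =
          Finset.univ.val := by
        rw [Nat.card_eq_fintype_card]
        exact FiniteField.roots_X_pow_card_sub_X _
      rw [h5, ← h6]
      symm
      apply roots_map_of_injective_of_card_eq_natDegree κ.injective
      rw [h6, FiniteField.X_pow_card_sub_X_natDegree_eq _ hone, Nat.card_eq_fintype_card]
      rfl
    have h7 : residue V R ∈ (X ^ Nat.card (ResidueField A) - X : (ResidueField V)[X]).roots := by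
      rw [mem_roots (FiniteField.X_pow_card_sub_X_ne_zero _ hone), IsRoot.def]
      rw [eval_sub, eval_pow, eval_X, h1, sub_self]
    rw [h4, Multiset.mem_map] at h7
    obtain ⟨a, _, ha⟩ := h7
    exact ⟨a, ha⟩
  obtain ⟨a, ha⟩ := h3
  apply hroot a
  rw [← (map_eq_zero κ), ← Polynomial.eval_map_apply, ha]
  rw [Polynomial.map_map, ResidueField.map_comp_residue, ← Polynomial.map_map,
    Polynomial.eval_map_apply]
  have h8 : (f.map (c2_g h)).eval R = 0 := by
    apply V.subtype_injective
    rw [map_zero, ← Polynomial.eval_map_apply, ← c2_map]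
    exact hf
  rw [h8, map_zero]

end SC2
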