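import Pool.Agent.MP_c1dca2_ag.SEC.Defs

set_option autoImplicit false

open Polynomial IsLocalRing SEC

namespace SC2

/-! ## [SC2-C3] no rational points (file C3.lean) -/

theorem c3_val {k : Type} [Field k] {A : ValuationSubring k} (z : A) (h : residue A z ≠ 0) :
    A.valuation (z : k) = 1 := by
  rw [Ne, residue_eq_zero_iff, A.valuation_lt_one_iff] at h
  exact le_antisymm (A.valuation_le_one z) (not_lt.1 h)

theorem c3_unit {k : Type} [Field k] {A : ValuationSubring k} (g : A[X]) (u : A)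
    (h : (g.map (residue A)).eval (residue A u) ≠ 0) :
    A.valuation ((g.map A.subtype).eval (u : k)) = 1 := by
  rw [Polynomial.eval_map_apply] at h
  have h1 := c3_val _ h
  have h2 : (g.map A.subtype).eval (u : k) = ((g.eval u : A) : k) :=
    Polynomial.eval_map_apply A.subtype u
  rw [h2]
  exact h1

theorem c3_lead {k : Type} [Field k] {A : ValuationSubring k}
    (f : A[X]) (hdeg : (f.map (residue A)).natDegree = f.natDegree)
    (h0 : f.map (residue A) ≠ 0) : residue A f.leadingCoeff ≠ 0 := by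
  have h2 : (f.map (residue A)).leadingCoeff ≠ 0 := leadingCoeff_ne_zero.2 h0
  rw [leadingCoeff, hdeg, coeff_map] at h2
  exact h2

theorem c3_ne {k : Type} [Field k] {A : ValuationSubring k} (f : A[X])
    (hroot : ∀ a, (f.map (residue A)).eval a ≠ 0) : f.map (residue A) ≠ 0 := by
  intro h
  apply hroot 0
  rw [h, eval_zero]

/-- the value of `f x₀` is a square -/
theorem c3_sqval {k : Type} [Field k] {A : ValuationSubring k}
    (f : A[X]) (hdeg : (f.map (residue A)).natDegree = f.natDegree) (heven : Even f.natDegree)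
    (hroot : ∀ a, (f.map (residue A)).eval a ≠ 0) (x0 : k) :
    ∃ b : k, b ≠ 0 ∧ A.valuation ((f.map A.subtype).eval x0) = A.valuation b ^ 2 := by
  by_cases hx : x0 ∈ A
  · refine ⟨1, one_ne_zero, ?_⟩
    rw [map_one, one_pow]
    exact c3_unit f ⟨x0, hx⟩ (hroot _)
  · have hx0 : x0 ≠ 0 := by
      rintro rfl
      exact hx A.zero_mem
    have hu : x0⁻¹ ∈ A := (A.mem_or_inv_mem x0).resolve_left hx
    have hu0 : residue A ⟨x0⁻¹, hu⟩ = 0 := by
      rw [residue_eq_zero_iff, A.valuation_lt_one_iff]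
      rw [← A.valuation_le_one_iff, not_le] at hx
      change A.valuation x0⁻¹ < 1
      rw [map_inv₀]
      exact inv_lt_one_of_one_lt₀ hx
    obtain ⟨m, hm⟩ := heven
    let _ : Invertible x0 := invertibleOfNonzero hx0
    have h1 := eval₂_reverse_mul_pow A.subtype x0 f
    rw [← eval_map, ← eval_map, invOf_eq_inv] at h1
    have h2 : A.valuation ((f.reverse.map A.subtype).eval x0⁻¹) = 1 := by
      apply c3_unit f.reverse ⟨x0⁻¹, hu⟩
      rw [hu0, ← coeff_zero_eq_eval_zero, coeff_map, coeff_zero_reverse]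
      exact c3_lead f hdeg (c3_ne f hroot)
    refine ⟨x0 ^ m, pow_ne_zero _ hx0, ?_⟩
    rw [← h1, map_mul, h2, one_mul, map_pow, map_pow, ← pow_mul, hm]
    congr 1
    ring

section place

variable {k K : Type} [Field k] [Field K] [Algebra k K]

theorem c3_spec (P : RatPlace k K) (g : k[X]) (z : K) (hz : z ∈ P.A) (z0 : k)
    (h0 : z - algebraMap k K z0 ∈ P.A.nonunits) :
    aeval z g - algebraMap k K (g.eval z0) ∈ P.A.nonunits := by
  let ι : k →+* P.A := (algebraMap k K).codRestrict P.A.toSubring P.alg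
  set Z : P.A := ⟨z, hz⟩ with hZ
  have h1 : Z - ι z0 ∈ maximalIdeal P.A := by
    rw [P.A.valuation_lt_one_iff]
    exact h0
  obtain ⟨w, hw⟩ := Polynomial.sub_dvd_eval_sub Z (ι z0) (g.map ι)
  have h2 : (g.map ι).eval Z - (g.map ι).eval (ι z0) ∈ maximalIdeal P.A := by
    rw [hw]
    exact Ideal.mul_mem_right _ _ h1
  rw [P.A.valuation_lt_one_iff] at h2
  have h3 : (((g.map ι).eval Z - (g.map ι).eval (ι z0) : P.A) : K) =
      aeval z g - algebraMap k K (g.eval z0) := by
    have h4 : (((g.map ι).eval Z : P.A) : K) = aeval z g := by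
      have h5 := (Polynomial.eval_map_apply (f := P.A.subtype) (p := g.map ι) Z).symm
      refine Eq.trans h5 ?_
      rw [Polynomial.map_map, Polynomial.aeval_def, Polynomial.eval_map]
      rfl
    have h6 : (g.map ι).eval (ι z0) = ι (g.eval z0) := Polynomial.eval_map_apply ι z0
    rw [h6]
    exact congrArg (fun w => w - algebraMap k K (g.eval z0)) h4
  rw [h3] at h2
  exact h2

theorem c3_inj (P : RatPlace k K) (a : k) (ha : algebraMap k K a ∈ P.A.nonunits) : a = 0 := by
  by_contra h
  rw [ValuationSubring.mem_nonunits_iff] at ha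
  have h1 : P.A.valuation (algebraMap k K a⁻¹) ≤ 1 := (P.A.valuation_le_one_iff _).2 (P.alg _)
  have h2 : P.A.valuation (algebraMap k K a) * P.A.valuation (algebraMap k K a⁻¹) < 1 :=
    mul_lt_one_of_lt_of_le ha h1
  rw [← map_mul, ← map_mul, mul_inv_cancel₀ h, map_one, map_one] at h2
  exact lt_irrefl _ h2

theorem c3_sq (P : RatPlace k K) (y w : K) (w0 : k) (hy : y ^ 2 = w) (hw : w ∈ P.A)
    (h0 : w - algebraMap k K w0 ∈ P.A.nonunits) : ∃ y0 : k, y0 ^ 2 = w0 := by
  have hyA : y ∈ P.A := by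
    rw [← P.A.valuation_le_one_iff]
    by_contra hcon
    push Not at hcon
    have h1 : P.A.valuation w ≤ 1 := (P.A.valuation_le_one_iff _).2 hw
    rw [← hy, map_pow] at h1
    exact absurd (one_lt_pow₀ hcon two_ne_zero) (not_lt.2 h1)
  obtain ⟨y0, hy0⟩ := P.rat y hyA
  refine ⟨y0, ?_⟩
  have h2 := c3_spec P (X ^ 2) y hyA y0 hy0
  rw [map_pow, aeval_X, eval_pow, eval_X, hy] at h2
  have h3 : algebraMap k K (y0 ^ 2 - w0) ∈ P.A.nonunits := by
    rw [ValuationSubring.mem_nonunits_iff] at h0 h2 ⊢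
    have h4 : algebraMap k K (y0 ^ 2 - w0) =
        (w - algebraMap k K w0) - (w - algebraMap k K (y0 ^ 2)) := by
      rw [map_sub]; ring
    rw [h4]
    exact lt_of_le_of_lt (Valuation.map_sub _ _ _) (max_lt h0 h2)
  exact sub_eq_zero.1 (c3_inj P _ h3)

end place

/-- If `x ∈ P.A` let `x₀, y₀ ∈ k` be the residues of `x`, `y`: `y₀² = c f(x₀)`. If `x₀ ∈ A` then `f(x₀)` is a
unit of `A` (no root modulo the maximal ideal); if `x₀ ∉ A` then `|f(x₀)| = |x₀|^(deg f)` (the leading
coefficient is a unit: `hdeg`), a square. If `x ∉ P.A`, the residue `η` of `y / x^(deg f / 2)` satisfies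
`η² = c ·` leading coefficient. In all cases `|c|` is the square of a value of an element of `k`. -/
theorem no_place {k K : Type} [Field k] [Field K] [Algebra k K] {A : ValuationSubring k}
    (f : A[X]) (hdeg : (f.map (residue A)).natDegree = f.natDegree) (heven : Even f.natDegree)
    (hpos : 0 < f.natDegree)
    (hroot : ∀ a, (f.map (residue A)).eval a ≠ 0) (c : k)
    (hc : ∀ b : k, A.valuation c ≠ A.valuation b ^ 2) (x y : K)
    (hxy : y ^ 2 = aeval x (C c * f.map A.subtype)) (P : RatPlace k K) : False := by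
  have _ := hpos
  set F : k[X] := f.map A.subtype with hF
  have hmem : ∀ (g : k[X]) (z : K), z ∈ P.A → aeval z g ∈ P.A := by
    intro g z hz
    let ι : k →+* P.A := (algebraMap k K).codRestrict P.A.toSubring P.alg
    have h4 : (((g.map ι).eval ⟨z, hz⟩ : P.A) : K) = aeval z g := by
      have h5 := (Polynomial.eval_map_apply (f := P.A.subtype) (p := g.map ι) ⟨z, hz⟩).symm
      refine Eq.trans h5 ?_
      rw [Polynomial.map_map, Polynomial.aeval_def, Polynomial.eval_map]
      rfl
    rw [← h4]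
    exact ((g.map ι).eval ⟨z, hz⟩ : P.A).2
  by_cases hx : x ∈ P.A
  · obtain ⟨x0, hx0⟩ := P.rat x hx
    have h1 := c3_spec P (C c * F) x hx x0 hx0
    obtain ⟨y0, hy0⟩ := c3_sq P y _ _ hxy (hmem _ _ hx) h1
    rw [eval_mul, eval_C] at hy0
    obtain ⟨b, hb, hb2⟩ := c3_sqval f hdeg heven hroot x0
    apply hc (y0 / b)
    have hb' : A.valuation b ≠ 0 := by
      rw [Ne, map_eq_zero]; exact hb
    rw [map_div₀, div_pow, eq_div_iff (pow_ne_zero _ hb'), ← hb2, ← map_mul, ← map_pow, hy0]
  · have hxn : x ≠ 0 := by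
      rintro rfl
      exact hx P.A.zero_mem
    have hu : x⁻¹ ∈ P.A := (P.A.mem_or_inv_mem x).resolve_left hx
    have hu0 : x⁻¹ - algebraMap k K 0 ∈ P.A.nonunits := by
      rw [map_zero, sub_zero, ValuationSubring.mem_nonunits_iff]
      rw [← P.A.valuation_le_one_iff, not_le] at hx
      rw [map_inv₀]
      exact inv_lt_one_of_one_lt₀ hx
    obtain ⟨m, hm⟩ := heven
    have hFd : F.natDegree = f.natDegree := by
      rw [hF, natDegree_map_eq_of_injective A.subtype_injective]
    let _ : Invertible x := invertibleOfNonzero hxn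
    have h1 := eval₂_reverse_mul_pow (algebraMap k K) x F
    rw [← aeval_def, ← aeval_def, invOf_eq_inv, hFd] at h1
    have h2 : (y / x ^ m) ^ 2 = aeval x⁻¹ (C c * F.reverse) := by
      rw [div_pow, hxy, map_mul, map_mul, aeval_C, aeval_C, ← h1, hm,
        div_eq_iff (pow_ne_zero _ (pow_ne_zero _ hxn))]
      ring
    have h3 := c3_spec P (C c * F.reverse) x⁻¹ hu 0 hu0
    obtain ⟨y0, hy0⟩ := c3_sq P _ _ _ h2 (hmem _ _ hu) h3
    rw [eval_mul, eval_C, ← coeff_zero_eq_eval_zero, coeff_zero_reverse] at hy0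
    apply hc y0
    have h4 : A.valuation F.leadingCoeff = 1 := by
      have h5 : F.leadingCoeff = (f.leadingCoeff : k) := by
        rw [leadingCoeff, hFd, hF, coeff_map]
        rfl
      rw [h5]
      exact c3_val _ (c3_lead f hdeg (c3_ne f hroot))
    rw [← map_pow, hy0, map_mul, h4, mul_one]

end SC2
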