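import Pool.Agent.MP_c1dca2_ag.SC2.B8
import Pool.Agent.MP_c1dca2_ag.SC2.C3
import Pool.Agent.MP_c1dca2_ag.SEC.G

set_option autoImplicit false

open Polynomial IsLocalRing

namespace SC2

open SEC

variable {k : Type} [Field k]

theorem f_two {C : Type} [Field C] [Algebra k C] {A : ValuationSubring k}
    {V : ValuationSubring C} (h : Above A V) (h2 : (2 : ResidueField A) ≠ 0) :
    V.valuation 2 = 1 := by
  have h1 : A.valuation (2 : k) = 1 := by
    have h3 : residue A (2 : A) ≠ 0 := by
      rw [map_ofNat]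
      exact h2
    have h4 : IsUnit (2 : A) := by
      by_contra h5
      exact h3 ((residue_eq_zero_iff _).2 h5)
    have h6 := (A.valuation_eq_one_iff (2 : A)).1 h4
    exact_mod_cast h6
  have h3 : algebraMap k C 2 ∈ V := (h 2).2 ((A.valuation_le_one_iff 2).1 h1.le)
  have h4 : algebraMap k C (2⁻¹) ∈ V := by
    refine (h _).2 ((A.valuation_le_one_iff _).1 ?_)
    rw [map_inv₀, h1, inv_one]
  rw [map_ofNat] at h3
  rw [map_inv₀, map_ofNat] at h4
  have h5 := (V.valuation_le_one_iff _).2 h3
  have h6 := (V.valuation_le_one_iff _).2 h4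
  have h20 : (2 : C) ≠ 0 := by
    intro h7
    have h8 : (2 : k) = 0 := by
      apply (algebraMap k C).injective
      rw [map_ofNat, map_zero, h7]
    rw [h8, map_zero] at h1
    exact zero_ne_one h1
  apply le_antisymm h5
  by_contra h7
  push Not at h7
  have h8 : V.valuation (2 : C) * V.valuation ((2 : C)⁻¹) < 1 := mul_lt_one_of_lt_of_le h7 h6
  rw [← map_mul, mul_inv_cancel₀ h20, map_one] at h8
  exact absurd h8 (lt_irrefl _)

theorem f_iner_root {C : Type} [Field C] [Algebra k C] {V : ValuationSubring C} {ι : Type}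
    (r : ι → C) (hr : ∀ i, r i ∈ V) (hd : ∀ i j, i ≠ j → V.valuation (r i - r j) = 1)
    (hp : ∀ (σ : C ≃ₐ[k] C) i, ∃ j, σ (r i) = r j) (σ : C ≃ₐ[k] C) (hσ : Iner V σ) (i : ι) :
    σ (r i) = r i := by
  obtain ⟨j, hj⟩ := hp σ i
  by_cases hij : j = i
  · rw [hj, hij]
  · exfalso
    have h1 := hσ.triv (r i) (hr i)
    rw [hj, V.mem_nonunits_iff, hd j i hij] at h1
    exact absurd h1 (lt_irrefl _)

theorem f_perm {C : Type} [Field C] [Algebra k C] {ι : Type} [Fintype ι] (f : k[X]) (l : k)
    (hl : l ≠ 0) (r : ι → C) (hfr : f.map (algebraMap k C) =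
      Polynomial.C (algebraMap k C l) * ∏ i, (X - Polynomial.C (r i)))
    (σ : C ≃ₐ[k] C) (i : ι) : ∃ j, σ (r i) = r j := by
  have hl' : algebraMap k C l ≠ 0 := by
    intro h
    rw [map_eq_zero] at h
    exact hl h
  have h0 : (f.map (algebraMap k C)).eval (r i) = 0 := by
    rw [hfr, eval_mul, eval_prod, Finset.prod_eq_zero (Finset.mem_univ i), mul_zero]
    rw [eval_sub, eval_X, eval_C, sub_self]
  have h1 : (f.map (algebraMap k C)).eval (σ (r i)) = 0 := by
    rw [eval_map_algebraMap] at h0 ⊢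
    have h2 : aeval (σ (r i)) f = σ (aeval (r i) f) := (aeval_algHom_apply σ.toAlgHom (r i) f)
    rw [h2, h0, map_zero]
  rw [hfr, eval_mul, eval_C, eval_prod, mul_eq_zero] at h1
  rcases h1 with h1 | h1
  · exact absurd h1 hl'
  · obtain ⟨j, -, hj⟩ := Finset.prod_eq_zero_iff.1 h1
    rw [eval_sub, eval_X, eval_C, sub_eq_zero] at hj
    exact ⟨j, hj⟩

theorem f_iter {C : Type} [Field C] [Algebra k C] {ι : Type} (r : ι → C) (φ : C ≃ₐ[k] C)
    (π : ι → ι) (hπ : ∀ i, φ (r i) = r (π i)) (m : ℕ) (i : ι) : (φ ^ m) (r i) = r (π^[m] i) := by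
  induction m with
  | zero => simp
  | succ m ih =>
    rw [pow_succ', AlgEquiv.mul_apply, ih, hπ, Function.iterate_succ_apply']

theorem f_x_sub {K : Type} [Field K] [Algebra k K] (x : K) (hx : Transcendental k x)
    (a : kb k K) : algebraMap K (Om K) x - (a : Om K) ≠ 0 := by
  have h := aeval_ne_zero x hx (X - C a) (X_sub_C_ne_zero a)
  rw [map_sub, aeval_X, aeval_C] at h
  exact h

theorem f_sect_x {K : Type} [Field K] [Algebra k K] (x : K) (s : SEC.Sect k K)
    (τ : kb k K ≃ₐ[k] kb k K) (a : kb k K) (ha : τ a = a) (w : Mnr k K)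
    (hw : (w : Om K) = algebraMap K (Om K) x - (a : Om K)) :
    (s.toHom τ w : Om K) = algebraMap K (Om K) x - (a : Om K) := by
  have h1 : w = algebraMap K (Mnr k K) x - ⟨(a : Om K), kb_le _ a.2⟩ := Subtype.ext hw
  rw [h1, map_sub, AlgEquiv.commutes]
  have h2 := s.split τ a (kb_le _ a.2)
  rw [ha] at h2
  rw [AddSubgroupClass.coe_sub, h2]
  rfl

theorem f_sign {K : Type} [Field K] [Algebra k K] (x : K) (hx : Transcendental k x)
    (s : SEC.Sect k K) (τ : kb k K ≃ₐ[k] kb k K) (a b : kb k K) (ha : τ a = a) (hb : τ b = b)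
    (S : Mnr k K) (hS : (S : Om K) ^ 2 * (algebraMap K (Om K) x - (a : Om K)) =
      algebraMap K (Om K) x - (b : Om K)) :
    s.toHom τ S = S ∨ s.toHom τ S = -S := by
  let wa : Mnr k K := algebraMap K (Mnr k K) x - ⟨(a : Om K), kb_le _ a.2⟩
  let wb : Mnr k K := algebraMap K (Mnr k K) x - ⟨(b : Om K), kb_le _ b.2⟩
  have hwa : (wa : Om K) = algebraMap K (Om K) x - (a : Om K) := rfl
  have hwb : (wb : Om K) = algebraMap K (Om K) x - (b : Om K) := rfl
  have h1 : S ^ 2 * wa = wb := Subtype.ext hS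
  have h2 : s.toHom τ wa = wa := Subtype.ext ((f_sect_x x s τ a ha wa hwa).trans hwa.symm)
  have h3 : s.toHom τ wb = wb := Subtype.ext ((f_sect_x x s τ b hb wb hwb).trans hwb.symm)
  have h4 : (s.toHom τ S) ^ 2 * wa = wb := by
    have h5 := congrArg (s.toHom τ) h1
    rw [map_mul, map_pow, h2, h3] at h5
    exact h5
  have h6 : wa ≠ 0 := by
    intro h
    apply f_x_sub x hx a
    rw [← hwa, h]
    rfl
  have h7 : (s.toHom τ S) ^ 2 = S ^ 2 := by
    apply mul_right_cancel₀ h6
    rw [h4, h1]
  exact sq_eq_sq_iff_eq_or_eq_neg.1 h7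

theorem no_section_core {K : Type} [CharZero k] [Field K] [Algebra k K] {A : ValuationSubring k}
    [IsDiscreteValuationRing A] [Finite (ResidueField A)] (h2 : (2 : ResidueField A) ≠ 0)
    (f : A[X]) (hsep : (f.map (residue A)).Separable)
    (hdeg : (f.map (residue A)).natDegree = f.natDegree) (heven : Even f.natDegree)
    (h4 : 4 ≤ f.natDegree) (hroot : ∀ a, (f.map (residue A)).eval a ≠ 0) (c : k)
    (hc : ∀ b : k, A.valuation c ≠ A.valuation b ^ 2) (x y : K) (hx : Transcendental k x)
    (hxy : y ^ 2 = algebraMap k K c * aeval x (f.map A.subtype)) (s : SEC.Sect k K) : False := by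
  have hc0 : c ≠ 0 := by
    rintro rfl
    exact hc 0 (by simp)
  have hac : IsAlgClosed (kb k K) := kb_isAlgClosed
  have hgal : IsGalois k (kb k K) := kb_isGalois
  obtain ⟨V, hV⟩ := exists_above (C := kb k K) A
  have hV2 : V.valuation 2 = 1 := f_two hV h2
  obtain ⟨r, l, hl, hfr, hr, hd⟩ := exists_roots hV f hsep hdeg
  have hl0 : l ≠ 0 := by
    rintro rfl
    rw [map_zero, map_zero] at hl
    exact zero_ne_one hl
  have hrinj : Function.Injective r := by
    intro i j hij
    by_contra hne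
    have h1 := hd i j hne
    rw [hij, sub_self, map_zero] at h1
    exact zero_ne_one h1
  have hfk : (f.map A.subtype).Separable := by
    rw [← separable_map (algebraMap k (kb k K)), hfr]
    have h1 : (∏ i, (X - C (r i)) : (kb k K)[X]).Separable :=
      separable_prod_X_sub_C_iff.2 hrinj
    have h3 : IsUnit (C (algebraMap k (kb k K) l)) := by
      rw [isUnit_C, isUnit_iff_ne_zero]
      intro h
      rw [map_eq_zero] at h
      exact hl0 h
    exact (associated_unit_mul_left _ _ h3).symm.separable h1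
  let o : Fin f.natDegree := ⟨0, by omega⟩
  have hp : ∀ (σ : kb k K ≃ₐ[k] kb k K) i, ∃ j, σ (r i) = r j :=
    fun σ i => f_perm (f.map A.subtype) l hl0 r hfr σ i
  have hI : ∀ σ : kb k K ≃ₐ[k] kb k K, Iner V σ → ∀ i, σ (r i) = r i :=
    fun σ hσ i => f_iner_root r hr hd hp σ hσ i
  obtain ⟨S, hSo, hS⟩ := exists_S (f.map A.subtype) hfk c hc0 x y hx hxy l r hfr o
  obtain ⟨z, hz⟩ := IsAlgClosed.exists_pow_nat_eq (algebraMap k (kb k K) c) (n := 2)
    (by norm_num)
  obtain ⟨τ, hτ, hτz⟩ := exists_tau hV hV2 c hc z hz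
  -- signs
  have hsgn : ∀ i, s.toHom τ (S i) = S i ∨ s.toHom τ (S i) = -S i :=
    fun i => f_sign x hx s τ (r o) (r i) (hI τ hτ o) (hI τ hτ i) (S i) (hS i).2
  classical
  let ε : Fin f.natDegree → Bool := fun i => decide (s.toHom τ (S i) = S i)
  have hε : ∀ i, s.toHom τ (S i) = if ε i then S i else -S i := by
    intro i
    by_cases h : s.toHom τ (S i) = S i
    · simp [ε, h]
    · rcases hsgn i with h' | h'
      · exact absurd h' h
      · simp [ε, h']
  have hcardN : Fintype.card (Fin f.natDegree) = f.natDegree := Fintype.card_fin _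
  have hodd := parity hV2 (f.map A.subtype) c hc0 x y hx hxy (by rw [hcardN]; exact heven) l hl r
    hfr o S (fun i => (hS i).1) (fun i => (hS i).2) s τ hτ (hI τ hτ) z hz hτz ε hε
  obtain ⟨φ, hφ⟩ := exists_frob (C := kb k K) hV
  obtain ⟨hqodd, hq2⟩ := card_odd hV hV2
  choose π hπ using fun i => hp φ i
  have hπinj : Function.Injective π := by
    intro i j hij
    apply hrinj
    apply φ.injective
    rw [hπ, hπ, hij]
  have hπbij : Function.Bijective π := Finite.injective_iff_bijective.1 hπinj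
  have hb : ∀ i, ε (π i) = ε (π o) ↔ ε i = true := fun i =>
    perm_sign hV hV2 s x hx r o hI S (fun i => (hS i).1) (fun i => (hS i).2) _ hqodd φ hφ π hπ τ
      hτ ε hε i
  have ho : ε o = true := by
    simp only [ε, hSo, map_one, decide_true]
  have hcc : ¬ ∃ a b c, a ≠ o ∧ b ≠ c ∧ ε a = true ∧ ε b = false ∧ ε c = false := by
    rintro ⟨a, b, d, hao, hbd, ha, hb', hd'⟩
    have hbo : b ≠ o := fun h => by rw [h, ho] at hb'; exact absurd hb' (by decide)
    have hdo : d ≠ o := fun h => by rw [h, ho] at hd'; exact absurd hd' (by decide)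
    have hab : a ≠ b := fun h => by rw [h, hb'] at ha; exact absurd ha (by decide)
    have had : a ≠ d := fun h => by rw [h, hd'] at ha; exact absurd ha (by decide)
    let idx : Fin 4 → Fin f.natDegree := ![o, a, b, d]
    have hidx : Function.Injective idx := by
      intro i j hij
      fin_cases i <;> fin_cases j <;> simp_all [idx]
    let πe : Equiv.Perm (Fin f.natDegree) := Equiv.ofBijective π hπbij
    obtain ⟨m, hm, hmπ⟩ : ∃ m, 0 < m ∧ ∀ i, π^[m] i = i := by
      refine ⟨orderOf πe, orderOf_pos πe, fun i => ?_⟩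
      have h1 : (πe ^ orderOf πe) i = i := by rw [pow_orderOf_eq_one]; rfl
      have h3 : ∀ n : ℕ, (πe ^ n) i = π^[n] i := by
        intro n
        induction n with
        | zero => rfl
        | succ n ih => rw [pow_succ', Equiv.Perm.mul_apply, ih, Function.iterate_succ_apply']; rfl
      rw [← h3]
      exact h1
    refine elliptic_step hV hV2 s x hx (fun i => r (idx i)) (fun i => hr _)
      (fun i j hij => hd _ _ (fun h => hij (hidx h))) (fun σ hσ i => hI σ hσ _)
      (fun i => S (idx i)) (fun i => (hS _).2) _ hqodd hq2 φ hφ m hm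
      (fun i => by rw [f_iter r φ π hπ, hmπ]) τ hτ ?_ ?_ ?_
    · have h1 := hε a
      rw [ha] at h1
      simpa [idx] using h1
    · have h1 := hε b
      rw [hb'] at h1
      simpa [idx] using h1
    · have h1 := hε d
      rw [hd'] at h1
      simpa [idx] using h1
  obtain ⟨j, hj⟩ := comb (by rw [hcardN]; exact h4) (by rw [hcardN]; exact heven) o ε ho hodd π
    hπbij hb hcc
  have h5 := hφ.frob (r j) (hr j)
  rw [hπ, hj] at h5
  refine root_not_fixed hV f hroot (r j) (hr j) ?_ ?_
  · rw [hfr, eval_mul, eval_prod, Finset.prod_eq_zero (Finset.mem_univ j), mul_zero]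
    rw [eval_sub, eval_X, eval_C, sub_self]
  · rw [V.mem_nonunits_iff] at h5 ⊢
    rw [← Valuation.map_neg, neg_sub]
    exact h5

/-- The section conjecture holds (there are no sections and no rational points) for ramified
quadratic twists of hyperelliptic curves with good reduction and without rational Weierstrass
point modulo the maximal ideal. -/
theorem main [CharZero k] (A : ValuationSubring k) [IsDiscreteValuationRing A]
    [Finite (ResidueField A)] (h2 : (2 : ResidueField A) ≠ 0) (f : A[X])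
    (hsep : (f.map (residue A)).Separable) (hdeg : (f.map (residue A)).natDegree = f.natDegree)
    (heven : Even f.natDegree) (h4 : 4 ≤ f.natDegree)
    (hroot : ∀ a, (f.map (residue A)).eval a ≠ 0) (c : k)
    (hc : ∀ b : k, A.valuation c ≠ A.valuation b ^ 2) :
    SCJ.NoSection k (C c * f.map A.subtype) := by
  intro K _ _ x y hx hxy
  have h1 : IsEmpty (SCJ.Sect k K) := by
    refine ⟨fun s => no_section_core h2 f hsep hdeg heven h4 hroot c hc x y hx ?_ s.toOld⟩
    rw [hxy, map_mul, aeval_C]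
  have h3 : IsEmpty (SCJ.RatPlace k K) :=
    ⟨fun P => no_place f hdeg heven (by omega) hroot c hc x y hxy P.toOld⟩
  exact ⟨⟨fun P => h3.elim P, fun s => h1.elim s⟩, h1, h3⟩

end SC2
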