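import Pool.Agent.MP_c1dca2_ag.SC2.A2
import Pool.Agent.MP_c1dca2_ag.SC2.A3

set_option autoImplicit false

open IsLocalRing

namespace SC2

variable {k C : Type} [Field k] [Field C] [Algebra k C]

/-! ## [SC2-A5] an element of the inertia group which moves `√c` (file A5.lean; uses A2, A3) -/

theorem a5_val_le {A : ValuationSubring k} {V : ValuationSubring C} (h : Above A V) (a b : k) :
    V.valuation (algebraMap k C a) ≤ V.valuation (algebraMap k C b) ↔
      A.valuation a ≤ A.valuation b := by
  by_cases hb : b = 0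
  · subst hb
    rw [map_zero, map_zero, map_zero, le_zero_iff, le_zero_iff, Valuation.zero_iff,
      Valuation.zero_iff, map_eq_zero]
  · have hb' : algebraMap k C b ≠ 0 := (map_ne_zero _).2 hb
    have h1 := h (a / b)
    rw [← V.valuation_le_one_iff, ← A.valuation_le_one_iff, map_div₀, map_div₀, map_div₀,
      div_le_one₀ (zero_lt_iff.2 ((Valuation.ne_zero_iff _).2 hb')),
      div_le_one₀ (zero_lt_iff.2 ((Valuation.ne_zero_iff _).2 hb))] at h1
    exact h1

theorem a5_val_eq {A : ValuationSubring k} {V : ValuationSubring C} (h : Above A V) (a b : k) :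
    V.valuation (algebraMap k C a) = V.valuation (algebraMap k C b) ↔
      A.valuation a = A.valuation b := by
  rw [le_antisymm_iff, le_antisymm_iff, a5_val_le h, a5_val_le h]

theorem a5_ne {A : ValuationSubring k} {V : ValuationSubring C} (h : Above A V) (c : k)
    (hc : ∀ b : k, A.valuation c ≠ A.valuation b ^ 2) (z : C) (hz : z ^ 2 = algebraMap k C c)
    (a b : k) (hb : b ≠ 0) :
    V.valuation (algebraMap k C a) ≠ V.valuation (algebraMap k C b * z) := by
  intro he
  have h1 : V.valuation (algebraMap k C (a ^ 2)) = V.valuation (algebraMap k C (b ^ 2 * c)) := by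
    rw [map_pow, map_pow, he, ← map_pow, mul_pow, hz, ← map_pow, ← map_mul]
  rw [a5_val_eq h, map_mul, map_pow, map_pow] at h1
  apply hc (a / b)
  have hb' : A.valuation b ≠ 0 := (Valuation.ne_zero_iff _).2 hb
  rw [map_div₀, div_pow, h1, mul_div_assoc, mul_comm, div_mul_cancel₀]
  exact pow_ne_zero 2 hb'

theorem a5_le_one {A : ValuationSubring k} {V : ValuationSubring C} (h : Above A V) (c : k)
    (hc : ∀ b : k, A.valuation c ≠ A.valuation b ^ 2) (z : C) (hz : z ^ 2 = algebraMap k C c)
    (a b : k) :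
    V.valuation (algebraMap k C a + algebraMap k C b * z) ≤ 1 ↔
      V.valuation (algebraMap k C a) ≤ 1 ∧ V.valuation (algebraMap k C b * z) ≤ 1 := by
  by_cases hb : b = 0
  · subst hb
    simp
  · rw [Valuation.map_add_of_distinct_val _ (a5_ne h c hc z hz a b hb), max_le_iff]

theorem a5_lt_one {A : ValuationSubring k} {V : ValuationSubring C} (h : Above A V) (c : k)
    (hc : ∀ b : k, A.valuation c ≠ A.valuation b ^ 2) (z : C) (hz : z ^ 2 = algebraMap k C c)
    (b : k) (hb : V.valuation (algebraMap k C b * z) ≤ 1) :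
    V.valuation (algebraMap k C b * z) < 1 := by
  refine lt_of_le_of_ne hb fun he => ?_
  have hb0 : b ≠ 0 := by
    rintro rfl
    rw [map_zero, zero_mul, map_zero] at he
    exact zero_ne_one he
  apply a5_ne h c hc z hz 1 b hb0
  rw [map_one, map_one, he]

/-- Let `k₁ = k(z)`. `c` is not a square in `k`, so there is `σ ∈ Gal(C/k)` with `σ z = - z`. For
`a, b ∈ k` not both `0` the values of `a` and `b z` are different (`|b z|² = |b² c|`), so
`|a + b z| = max(|a|, |b z|)`, for `V` and also for `V ∘ σ`: the valuation rings `V` and `σ V`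
(`{w | σ⁻¹ w ∈ V}`, as a `ValuationSubring`, use `ValuationSubring.comap`) have the same intersection
`A₁` with `k₁`. By `exists_conj` over `k₁` there is `ρ ∈ Gal(C/k₁)` with `ρ (σ V) = V`; `g = ρ σ`
stabilises `V` and `g z = - z`. The elements of `A₁` are congruent to elements of `A` (`|b z| ≠ 1`), so
the automorphism induced by `g` on the residue field of `V` is the identity on the residue field of
`A₁`; by `exists_lift` over `k₁` there is `δ ∈ Gal(C/k₁)` stabilising `V` and inducing the same
automorphism. `τ = g δ⁻¹`. -/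
theorem exists_tau [IsGalois k C] {A : ValuationSubring k} {V : ValuationSubring C}
    (h : Above A V) (h2 : V.valuation 2 = 1) (c : k)
    (hc : ∀ b : k, A.valuation c ≠ A.valuation b ^ 2) (z : C) (hz : z ^ 2 = algebraMap k C c) :
    ∃ τ : C ≃ₐ[k] C, Iner V τ ∧ τ z = -z := by
  -- `σ`
  obtain ⟨σ, hσ⟩ : ∃ σ : C ≃ₐ[k] C, σ z = -z := by
    by_contra hcon
    push Not at hcon
    have h1 : ∀ σ : C ≃ₐ[k] C, σ z = z := by
      intro σ
      have h3 : (σ z) ^ 2 = z ^ 2 := by
        rw [← map_pow, hz, AlgEquiv.commutes]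
      rcases sq_eq_sq_iff_eq_or_eq_neg.1 h3 with h4 | h4
      · exact h4
      · exact absurd h4 (hcon σ)
    have h3 : z ∈ (⊥ : IntermediateField k C) := by
      rw [← InfiniteGalois.fixedField_bot]
      exact fun σ => h1 σ
    rw [IntermediateField.mem_bot] at h3
    obtain ⟨b, hb⟩ := h3
    apply hc b
    rw [← map_pow]
    congr 1
    apply (algebraMap k C).injective
    rw [← hz, ← hb, map_pow]
  have hσ' : σ.symm z = -z := by
    rw [AlgEquiv.symm_apply_eq, map_neg, hσ, neg_neg]
  have hσi : ∀ a b : k, σ.symm (algebraMap k C a + algebraMap k C b * z) =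
      algebraMap k C a + algebraMap k C (-b) * z := by
    intro a b
    rw [map_add, map_mul, AlgEquiv.commutes, AlgEquiv.commutes, hσ', map_neg]
    ring
  have hσf : ∀ a b : k, σ (algebraMap k C a + algebraMap k C b * z) =
      algebraMap k C a + algebraMap k C (-b) * z := by
    intro a b
    rw [map_add, map_mul, AlgEquiv.commutes, AlgEquiv.commutes, hσ, map_neg]
    ring
  -- the field `k₁`
  let k₁ : IntermediateField k C := IntermediateField.adjoin k {z}
  have hzk : z ∈ k₁ := IntermediateField.mem_adjoin_simple_self k z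
  have hform : ∀ x ∈ k₁, ∃ a b : k, x = algebraMap k C a + algebraMap k C b * z := by
    intro x hx
    induction hx using IntermediateField.adjoin_induction with
    | mem x hx =>
      rw [Set.mem_singleton_iff] at hx
      exact ⟨0, 1, by rw [hx]; simp⟩
    | algebraMap a => exact ⟨a, 0, by simp⟩
    | add x y _ _ h1 h2 =>
      obtain ⟨a, b, rfl⟩ := h1
      obtain ⟨a', b', rfl⟩ := h2
      exact ⟨a + a', b + b', by rw [map_add, map_add]; ring⟩
    | inv x _ h1 =>
      obtain ⟨a, b, rfl⟩ := h1
      by_cases h0 : algebraMap k C a + algebraMap k C b * z = 0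
      · exact ⟨0, 0, by rw [h0]; simp⟩
      · refine ⟨a / (a ^ 2 - b ^ 2 * c), -b / (a ^ 2 - b ^ 2 * c), ?_⟩
        have h3 : σ (algebraMap k C a + algebraMap k C b * z) ≠ 0 := by
          rw [Ne, EmbeddingLike.map_eq_zero_iff]
          exact h0
        rw [hσf] at h3
        have h4 : algebraMap k C (a ^ 2 - b ^ 2 * c) =
            (algebraMap k C a + algebraMap k C b * z) *
              (algebraMap k C a + algebraMap k C (-b) * z) := by
          rw [map_sub, map_pow, map_mul, map_pow, map_neg, ← hz]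
          ring
        rw [map_div₀, map_div₀, h4, div_mul_eq_mul_div, ← add_div,
          mul_comm (algebraMap k C a + algebraMap k C b * z), div_mul_cancel_left₀ h3]
    | mul x y _ _ h1 h2 =>
      obtain ⟨a, b, rfl⟩ := h1
      obtain ⟨a', b', rfl⟩ := h2
      refine ⟨a * a' + b * b' * c, a * b' + a' * b, ?_⟩
      rw [map_add, map_add, map_mul, map_mul, map_mul, map_mul, map_mul, ← hz]
      ring
  let A₁ : ValuationSubring k₁ := V.comap (algebraMap k₁ C)
  have hA₁ : Above A₁ V := fun a => Iff.rfl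
  let V' : ValuationSubring C := V.comap (σ.symm : C →+* C)
  have hV' : ∀ w : C, w ∈ V' ↔ σ.symm w ∈ V := fun w => Iff.rfl
  have hA₁' : Above A₁ V' := by
    rintro ⟨x, hx⟩
    obtain ⟨a, b, hab⟩ := hform x hx
    change σ.symm x ∈ V ↔ x ∈ V
    rw [hab, hσi, ← V.valuation_le_one_iff, ← V.valuation_le_one_iff, a5_le_one h c hc z hz,
      a5_le_one h c hc z hz, map_neg, neg_mul, Valuation.map_neg]
  have := IsGalois.tower_top_intermediateField k₁
  obtain ⟨ρ, hρ⟩ := exists_conj hA₁' hA₁
  -- `g`
  let g : C ≃ₐ[k] C := σ.trans (ρ.restrictScalars k)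
  have hg : ∀ w, g w = ρ (σ w) := fun w => rfl
  have hgV : ∀ w, g w ∈ V ↔ w ∈ V := by
    intro w
    rw [hg, hρ, hV', AlgEquiv.symm_apply_apply]
  have hρz : ρ z = z := ρ.commutes ⟨z, hzk⟩
  have hgz : g z = -z := by
    rw [hg, hσ, map_neg, hρz]
  -- `θ`
  let gV : V ≃+* V :=
    { toFun := fun w => ⟨g w, (hgV w).2 w.2⟩
      invFun := fun w => ⟨g.symm w, (hgV _).1 (by rw [AlgEquiv.apply_symm_apply]; exact w.2)⟩
      left_inv := fun w => Subtype.ext (g.symm_apply_apply _)
      right_inv := fun w => Subtype.ext (g.apply_symm_apply _)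
      map_mul' := fun a b => Subtype.ext (map_mul g _ _)
      map_add' := fun a b => Subtype.ext (map_add g _ _) }
  let θ : ResidueField V ≃+* ResidueField V := IsLocalRing.ResidueField.mapEquiv gV
  have hθ : ∀ (w : C) (hw : w ∈ V), θ (residue V ⟨w, hw⟩) = residue V ⟨g w, (hgV w).2 hw⟩ :=
    fun w hw => rfl
  have hres : ∀ (w w' : C) (hw : w ∈ V) (hw' : w' ∈ V),
      residue V ⟨w, hw⟩ = residue V ⟨w', hw'⟩ ↔ V.valuation (w - w') < 1 := by
    intro w w' hw hw'
    rw [← sub_eq_zero, ← map_sub, residue_eq_zero_iff, V.valuation_lt_one_iff]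
    rfl
  obtain ⟨δ, hδV, hδ⟩ := exists_lift hA₁ θ (by
    rintro ⟨x, hx⟩ ha
    obtain ⟨a, b, hab⟩ := hform x hx
    rw [hθ, hres]
    change V.valuation (g x - x) < 1
    have h3 : V.valuation x ≤ 1 := (V.valuation_le_one_iff _).2 ha
    rw [hab, a5_le_one h c hc z hz] at h3
    have h4 : g x - x = -(2 * (algebraMap k C b * z)) := by
      rw [hab, map_add, map_mul, AlgEquiv.commutes, AlgEquiv.commutes, hgz]
      ring
    rw [h4, Valuation.map_neg, map_mul, h2, one_mul]
    exact a5_lt_one h c hc z hz b h3.2)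
  let τ : C ≃ₐ[k] C := (δ.restrictScalars k).symm.trans g
  have hτ : ∀ w, τ w = g (δ.symm w) := fun w => rfl
  have hδs : ∀ w, δ.symm w ∈ V ↔ w ∈ V := by
    intro w
    rw [← hδV, AlgEquiv.apply_symm_apply]
  refine ⟨τ, ⟨fun w => ?_, fun w hw => ?_⟩, ?_⟩
  · rw [hτ, hgV, hδs]
  · rw [hτ, V.mem_nonunits_iff]
    have h3 := hδ (δ.symm w) ((hδs w).2 hw)
    rw [hθ, hres, AlgEquiv.apply_symm_apply] at h3
    rw [← Valuation.map_neg, neg_sub]
    exact h3
  · have h3 : δ z = z := δ.commutes ⟨z, hzk⟩
    have h4 : δ.symm z = z := by rw [AlgEquiv.symm_apply_eq, h3]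
    rw [hτ, h4, hgz]

end SC2
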