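import Pool.Agent.MP_c1dca2_ag.SC2.Base

set_option autoImplicit false

namespace SC2

/-! ## [SC2-E4] torsion points of order a power of `2` have integral coordinates (file E4.lean) -/

theorem e4_quartic {F : Type} [Field F] (O : Subring F) (x a b c d : F) (ha : a ∈ O) (hb : b ∈ O)
    (hc : c ∈ O) (hd : d ∈ O) (h : x ^ 4 + a * x ^ 3 + b * x ^ 2 + c * x + d = 0) :
    IsIntegral O x := by
  refine ⟨Polynomial.X ^ 4 + Polynomial.C ⟨a, ha⟩ * Polynomial.X ^ 3 +
    Polynomial.C ⟨b, hb⟩ * Polynomial.X ^ 2 + Polynomial.C ⟨c, hc⟩ * Polynomial.X +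
    Polynomial.C ⟨d, hd⟩, by monicity!, ?_⟩
  simp only [Polynomial.eval₂_add, Polynomial.eval₂_mul, Polynomial.eval₂_pow,
    Polynomial.eval₂_X, Polynomial.eval₂_C]
  exact h

theorem e4_sq {F : Type} [Field F] (O : Subring F) (y a : F) (ha : a ∈ O) (h : y ^ 2 = a) :
    IsIntegral O y := by
  refine ⟨Polynomial.X ^ 2 - Polynomial.C ⟨a, ha⟩, by monicity!, ?_⟩
  simp only [Polynomial.eval₂_sub, Polynomial.eval₂_pow, Polynomial.eval₂_X, Polynomial.eval₂_C]
  change y ^ 2 - a = 0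
  rw [h, sub_self]

/-- Induction on `n`. If `y = 0` then `x` is one of the `e i`. Otherwise `2 • P = (x₃, y₃)` is killed
by `2 ^ (n - 1)`, so `x₃ ∈ O`, and with `l = g'(x) / (2 y)` (`g` the cubic)
`4 g(x) (x₃ + 2 x - e 0 - e 1 - e 2) = g'(x)²`: a monic equation of degree `4` for `x` over `O`
(`g'(x)² - 4 g(x) (2 x - e 0 - e 1 - e 2) - 4 x₃ g(x)` is monic of degree `4`). Then `y² ∈ O`, and
`y ∈ O` because `y` is integral over `O`. -/
theorem torsion_mem {F : Type} [Field F] {e : Fin 3 → F} (hc : Cv e) (O : Subring F)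
    (hO : ∀ z : F, IsIntegral O z → z ∈ O) (he : ∀ i, e i ∈ O) (n : ℕ) (x y : F)
    (h : OnC e x y) (hn : (2 ^ n) • aff hc x y h = 0) : x ∈ O ∧ y ∈ O := by
  induction n generalizing x y with
  | zero =>
    rw [pow_zero, one_smul] at hn
    exact absurd hn (aff_ne_zero hc x y h)
  | succ n ih =>
    have hx : x ∈ O := by
      by_cases hy : y = 0
      · have h1 : (x - e 0) * (x - e 1) * (x - e 2) = 0 := by
          rw [← (show y ^ 2 = (x - e 0) * (x - e 1) * (x - e 2) from h), hy]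
          ring
        rcases mul_eq_zero.1 h1 with h1 | h1
        · rcases mul_eq_zero.1 h1 with h1 | h1
          · rw [sub_eq_zero.1 h1]; exact he 0
          · rw [sub_eq_zero.1 h1]; exact he 1
        · rw [sub_eq_zero.1 h1]; exact he 2
      · have h2y : 2 * y ≠ 0 := mul_ne_zero hc.two hy
        set g' : F := (x - e 0) * (x - e 1) + (x - e 1) * (x - e 2) + (x - e 2) * (x - e 0) with hg
        obtain ⟨l, hl⟩ : ∃ l : F, l * (2 * y) = g' := ⟨g' / (2 * y), div_mul_cancel₀ _ h2y⟩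
        obtain ⟨x₃, hx3⟩ : ∃ x₃ : F, x₃ = l ^ 2 + (e 0 + e 1 + e 2) - x - x := ⟨_, rfl⟩
        obtain ⟨h3, h4⟩ := add_aff_self hc x y h l x₃ _ hy hl hx3 rfl
        have h5 : (2 ^ n) • aff hc x₃ _ h3 = 0 := by
          rw [← h4, ← two_nsmul, smul_smul, ← pow_succ]
          exact hn
        have h6 : x₃ ∈ O := (ih _ _ h3 h5).1
        apply hO
        have m4 : (4 : F) ∈ O := by exact_mod_cast natCast_mem O 4
        have m2 : (2 : F) ∈ O := by exact_mod_cast natCast_mem O 2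
        have m8 : (8 : F) ∈ O := by exact_mod_cast natCast_mem O 8
        have ms : e 0 + e 1 + e 2 ∈ O := add_mem (add_mem (he 0) (he 1)) (he 2)
        have mt : e 0 * e 1 + e 1 * e 2 + e 2 * e 0 ∈ O :=
          add_mem (add_mem (mul_mem (he 0) (he 1)) (mul_mem (he 1) (he 2)))
            (mul_mem (he 2) (he 0))
        have mu : e 0 * e 1 * e 2 ∈ O := mul_mem (mul_mem (he 0) (he 1)) (he 2)
        refine e4_quartic O x (-(4 * x₃))
          (4 * (e 0 + e 1 + e 2) * x₃ - 2 * (e 0 * e 1 + e 1 * e 2 + e 2 * e 0))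
          (8 * (e 0 * e 1 * e 2) - 4 * (e 0 * e 1 + e 1 * e 2 + e 2 * e 0) * x₃)
          ((e 0 * e 1 + e 1 * e 2 + e 2 * e 0) ^ 2 - 4 * (e 0 * e 1 * e 2) * (e 0 + e 1 + e 2) +
            4 * (e 0 * e 1 * e 2) * x₃) ?_ ?_ ?_ ?_ ?_
        · exact neg_mem (mul_mem m4 h6)
        · exact sub_mem (mul_mem (mul_mem m4 ms) h6) (mul_mem m2 mt)
        · exact sub_mem (mul_mem m8 mu) (mul_mem (mul_mem m4 mt) h6)
        · exact add_mem (sub_mem (pow_mem mt 2) (mul_mem (mul_mem m4 mu) ms))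
            (mul_mem (mul_mem m4 mu) h6)
        · have h7 : y ^ 2 = (x - e 0) * (x - e 1) * (x - e 2) := h
          have h8 : g' ^ 2 = 4 * ((x - e 0) * (x - e 1) * (x - e 2)) *
              (x₃ + x + x - (e 0 + e 1 + e 2)) := by
            rw [← hl, ← h7, hx3]
            ring
          rw [hg] at h8
          linear_combination h8
    refine ⟨hx, hO y (e4_sq O y _ ?_ h)⟩
    exact mul_mem (mul_mem (sub_mem hx (he 0)) (sub_mem hx (he 1))) (sub_mem hx (he 2))

end SC2
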