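import Pool.Agent.MP_c1dca2_ag.SC2.H4

set_option autoImplicit false

open Polynomial

namespace SC2

/-! ## [SC2-H5] the multiples of the generic point (file H5.lean; uses H4) -/

theorem h5_gK {κ : Type} [Field κ] (e : Fin 3 → κ) :
    gK e = (RatFunc.X - algebraMap κ (RatFunc κ) (e 0)) *
      (RatFunc.X - algebraMap κ (RatFunc κ) (e 1)) *
      (RatFunc.X - algebraMap κ (RatFunc κ) (e 2)) := by
  rw [gK, cub, map_mul, map_mul, map_sub, map_sub, map_sub, RatFunc.algebraMap_X,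
    RatFunc.algebraMap_C, RatFunc.algebraMap_C, RatFunc.algebraMap_C, RatFunc.algebraMap_eq_C]

/-- the generic point `(t g, g²)` of the twisted curve -/
theorem onC_gen {κ : Type} [Field κ] (e : Fin 3 → κ) :
    OnC (eg e) (RatFunc.X * gK e) (gK e ^ 2) := by
  have h := h5_gK e
  rw [OnC]
  simp only [eg]
  calc (gK e ^ 2) ^ 2 = gK e ^ 3 * gK e := by ring
    _ = gK e ^ 3 * ((RatFunc.X - algebraMap κ (RatFunc κ) (e 0)) *
      (RatFunc.X - algebraMap κ (RatFunc κ) (e 1)) *
      (RatFunc.X - algebraMap κ (RatFunc κ) (e 2))) := by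
        congr 1
    _ = _ := by ring

/-- the Frobenius point `(t^q g, g^((q+3)/2))` (`q` odd) -/
theorem onC_frob {κ : Type} [Field κ] (e : Fin 3 → κ) (q : ℕ) (hq : Odd q)
    (hg : cub e ^ q = (X ^ q - C (e 0)) * (X ^ q - C (e 1)) * (X ^ q - C (e 2))) :
    OnC (eg e) (RatFunc.X ^ q * gK e) (gK e ^ ((q + 3) / 2)) := by
  have h : gK e ^ q = (RatFunc.X ^ q - algebraMap κ (RatFunc κ) (e 0)) *
      (RatFunc.X ^ q - algebraMap κ (RatFunc κ) (e 1)) *
      (RatFunc.X ^ q - algebraMap κ (RatFunc κ) (e 2)) := by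
    have h1 := congrArg (algebraMap κ[X] (RatFunc κ)) hg
    rw [map_pow, map_mul, map_mul, map_sub, map_sub, map_sub, map_pow, RatFunc.algebraMap_X,
      RatFunc.algebraMap_C, RatFunc.algebraMap_C, RatFunc.algebraMap_C] at h1
    rw [gK, h1, RatFunc.algebraMap_eq_C]
  have h2 : (q + 3) / 2 * 2 = 3 + q := by
    obtain ⟨m, rfl⟩ := hq
    omega
  rw [OnC]
  simp only [eg]
  rw [← pow_mul, h2, pow_add, h]
  ring

theorem h5_ht_zero {κ : Type} [Field κ] {e : Fin 3 → κ} :
    IsHt (xg (0 : Pt (eg e))) 0 := by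
  refine ⟨![1, 0], gK e, gK_ne_zero e, ?_, ⟨![1, 0], by simp [Fin.sum_univ_two]⟩, ?_, ⟨0, by simp⟩⟩
  · intro i
    rw [xg, xco_zero]
    fin_cases i
    · simp [gK_ne_zero e]
    · simp
  · intro i
    fin_cases i <;> simp

theorem h5_ht_aff {κ : Type} [Field κ] {e : Fin 3 → κ} (hc : Cv e) (m : ℕ) (y : RatFunc κ)
    (h : OnC (eg e) (RatFunc.X ^ m * gK e) y) :
    IsHt (xg (aff (cv_eg hc) _ _ h)) m := by
  refine ⟨![X ^ m, 1], 1, one_ne_zero, ?_, ⟨![0, 1], by simp [Fin.sum_univ_two]⟩, ?_,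
    ⟨0, by simp⟩⟩
  · intro i
    rw [xg, xco_aff]
    fin_cases i
    · simp [gK_ne_zero e]
    · simp
  · intro i
    fin_cases i <;> simp

/-- The height of `n • P` is `n²` (induction with `par_height` for `n • P` and `P`; the heights of `0`
and `P` are `0` and `1`). -/
theorem ht_smul {κ : Type} [Field κ] {e : Fin 3 → κ} (hc : Cv e) (n : ℕ) :
    IsHt (xg (n • aff (cv_eg hc) _ _ (onC_gen e))) (n ^ 2) := by
  set P := aff (cv_eg hc) _ _ (onC_gen e) with hP
  have h1 : IsHt (xg P) 1 := by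
    have h2 : OnC (eg e) (RatFunc.X ^ 1 * gK e) (gK e ^ 2) := by
      rw [pow_one]; exact onC_gen e
    have h3 := h5_ht_aff hc 1 _ h2
    have h4 : aff (cv_eg hc) _ _ h2 = P := by
      rw [hP, aff_inj, pow_one]
      exact ⟨rfl, rfl⟩
    rwa [h4] at h3
  induction n using Nat.strong_induction_on with
  | _ n ih =>
    match n, ih with
    | 0, _ =>
      rw [zero_smul]
      exact h5_ht_zero
    | 1, _ =>
      rw [one_smul, one_pow]
      exact h1
    | (n + 2), ih =>
      have ha := ih (n + 1) (by omega)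
      have hd := ih n (by omega)
      obtain ⟨c, hcc⟩ := exists_ht ((n + 2) • P)
      have e1 : (n + 1) • P + P = (n + 2) • P := by
        rw [show n + 2 = (n + 1) + 1 from rfl, succ_nsmul P (n + 1)]
      have e2 : (n + 1) • P - P = n • P := by
        rw [succ_nsmul P n, add_sub_cancel_right]
      have h := par_height hc ((n + 1) • P) P ((n + 1) ^ 2) 1 c (n ^ 2) ha h1
        (by rw [e1]; exact hcc) (by rw [e2]; exact hd)
      have hc2 : c = (n + 2) ^ 2 := by nlinarith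
      rw [← hc2]
      exact hcc

/-- The height of the Frobenius point is `q`, and `q ≠ q²`. -/
theorem frob_ne {κ : Type} [Field κ] {e : Fin 3 → κ} (hc : Cv e) (q : ℕ) (hq : Odd q)
    (hq2 : 2 ≤ q)
    (hg : cub e ^ q = (X ^ q - C (e 0)) * (X ^ q - C (e 1)) * (X ^ q - C (e 2))) :
    q • aff (cv_eg hc) _ _ (onC_gen e) ≠ aff (cv_eg hc) _ _ (onC_frob e q hq hg) := by
  intro h
  have h1 := ht_smul hc q
  rw [h] at h1
  have h2 := h5_ht_aff hc q _ (onC_frob e q hq hg)
  have h3 := h1.unique h2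
  nlinarith

end SC2
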