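import Pool.Agent.MP_c1dca2_ag.SC2.E3
import Pool.Agent.MP_c1dca2_ag.SC2.H5

set_option autoImplicit false

open Polynomial

namespace SC2

/-! ## [SC2-U2] no generic point is multiplied by `q` by Frobenius (file U2.lean; uses E3, H5) -/

/-- `X` transcendental gives `κ(t) → L`, `t ↦ X`; `g(X) = Y² ≠ 0`. `exists_ecmap` with `u = Y` maps the
twisted curve `eg e` to the curve over `L`: the generic point goes to `(X, Y)`, the Frobenius point
to `(X^q, Y^q)`. The equation `hXY'` says `g(X)^q = ∏ (X^q - e i)` in `L`, hence the hypothesis `hg`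
of `frob_ne`. As the map is injective, `q •` generic point `=` Frobenius point: contradiction to
`frob_ne`. -/
theorem no_generic {κ : Type} [Field κ] {e : Fin 3 → κ} (hc : Cv e) (q : ℕ) (hq : Odd q)
    (hq2 : 2 ≤ q) (L : Type) [Field L] [Algebra κ L] (x y : L)
    (hcL : Cv (fun i => algebraMap κ L (e i))) (hxy : OnC (fun i => algebraMap κ L (e i)) x y)
    (hxy' : OnC (fun i => algebraMap κ L (e i)) (x ^ q) (y ^ q)) (hx : Transcendental κ x)
    (h : q • aff hcL x y hxy = aff hcL (x ^ q) (y ^ q) hxy') : False := by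
  have hinj : Function.Injective (aeval x : κ[X] →ₐ[κ] L) :=
    transcendental_iff_injective.1 hx
  have hcub : aeval x (cub e) = y ^ 2 := by
    rw [OnC] at hxy
    rw [hxy, cub]
    simp only [map_mul, map_sub, aeval_X, aeval_C]
  have hg : cub e ^ q = (X ^ q - C (e 0)) * (X ^ q - C (e 1)) * (X ^ q - C (e 2)) := by
    apply hinj
    rw [map_pow, hcub]
    simp only [map_mul, map_sub, map_pow, aeval_X, aeval_C]
    rw [OnC] at hxy'
    rw [← hxy', ← pow_mul, ← pow_mul, mul_comm]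
  have hinj' : Function.Injective ((aeval x : κ[X] →ₐ[κ] L) : κ[X] →+* L) := hinj
  set φ : RatFunc κ →+* L := RatFunc.liftRingHom ((aeval x : κ[X] →ₐ[κ] L) : κ[X] →+* L)
    (nonZeroDivisors_le_comap_nonZeroDivisors_of_injective _ hinj') with hφ
  have hφp : ∀ p : κ[X], φ (algebraMap κ[X] (RatFunc κ) p) = aeval x p := by
    intro p
    rw [hφ, RatFunc.liftRingHom_algebraMap]
    rfl
  have hφc : ∀ c : κ, φ (algebraMap κ (RatFunc κ) c) = algebraMap κ L c := by
    intro c
    rw [IsScalarTower.algebraMap_apply κ κ[X] (RatFunc κ), hφp, ← Polynomial.C_eq_algebraMap,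
      aeval_C]
  have hφg : φ (gK e) = y ^ 2 := by rw [gK, hφp, hcub]
  have hφX : φ RatFunc.X = x := by
    rw [← RatFunc.algebraMap_X, hφp, aeval_X]
  have hy : y ≠ 0 := by
    rintro rfl
    apply gK_ne_zero e
    apply φ.injective
    rw [hφg, map_zero]
    ring
  obtain ⟨G, hGi, hG⟩ := exists_ecmap φ y hy (eg e) (fun i => algebraMap κ L (e i)) (cv_eg hc) hcL
    (fun i => by rw [eg, map_mul, hφc, hφg, mul_comm])
  obtain ⟨h1, h2⟩ := hG _ _ (onC_gen e)
  obtain ⟨h3, h4⟩ := hG _ _ (onC_frob e q hq hg)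
  apply frob_ne hc q hq hq2 hg
  apply hGi
  rw [map_nsmul, h2, h4]
  have e1 : φ (RatFunc.X * gK e) / y ^ 2 = x := by
    rw [map_mul, hφX, hφg]
    field_simp
  have e2 : φ (gK e ^ 2) / y ^ 3 = y := by
    rw [map_pow, hφg]
    field_simp
  have e3 : φ (RatFunc.X ^ q * gK e) / y ^ 2 = x ^ q := by
    rw [map_mul, map_pow, hφX, hφg]
    field_simp
  have e4 : φ (gK e ^ ((q + 3) / 2)) / y ^ 3 = y ^ q := by
    rw [map_pow, hφg, ← pow_mul]
    have : 2 * ((q + 3) / 2) = q + 3 := by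
      obtain ⟨m, rfl⟩ := hq
      omega
    rw [this, pow_add]
    field_simp
  have a1 : aff hcL _ _ h1 = aff hcL x y hxy := (aff_inj hcL _ _ _ _ _ _).2 ⟨e1, e2⟩
  have a2 : aff hcL _ _ h3 = aff hcL (x ^ q) (y ^ q) hxy' := (aff_inj hcL _ _ _ _ _ _).2 ⟨e3, e4⟩
  rw [a1, a2]
  exact h

end SC2
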