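import Pool.Agent.MP_c1dca2_ag.SC2.U1
import Pool.Agent.MP_c1dca2_ag.SC2.U2

set_option autoImplicit false

open Polynomial

namespace SC2

/-! ## [SC2-U3] `q` is not an eigenvalue of Frobenius on the Tate module (file U3.lean; uses U1, U2) -/

theorem u3_smul {G : Type} [AddCommGroup G] (R : ℕ → G) (hR : ∀ n, R (n + 1) + R (n + 1) = R n)
    (n k : ℕ) : (2 ^ k) • R (n + k) = R n := by
  induction k with
  | zero => simp
  | succ k ih =>
    rw [pow_succ, mul_smul, two_smul, ← add_assoc n k 1, hR, ih]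

theorem u3_zero {G : Type} [AddCommGroup G] (R : ℕ → G) (h0' : R 0 + R 0 = 0)
    (hR : ∀ n, R (n + 1) + R (n + 1) = R n) (n : ℕ) : (2 ^ (n + 1)) • R n = 0 := by
  have h1 := u3_smul R hR 0 n
  rw [zero_add] at h1
  rw [pow_succ', mul_smul, h1, two_smul, h0']

theorem u3_ne {G : Type} [AddCommGroup G] (R : ℕ → G) (h0 : R 0 ≠ 0) (h0' : R 0 + R 0 = 0)
    (hR : ∀ n, R (n + 1) + R (n + 1) = R n) (n m : ℕ) (hnm : n < m) :
    R m ≠ R n ∧ R m ≠ - R n := by
  have h1 : (2 ^ m) • R m ≠ 0 := by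
    have := u3_smul R hR 0 m
    rw [zero_add] at this
    rw [this]; exact h0
  have h2 : (2 ^ m) • R n = 0 := by
    obtain ⟨j, hj⟩ : ∃ j, m = (n + 1) + j := ⟨m - (n + 1), by omega⟩
    rw [hj, pow_add, mul_comm, mul_smul, u3_zero R h0' hR n, smul_zero]
  constructor
  · intro h
    exact h1 (by rw [h, h2])
  · intro h
    exact h1 (by rw [h, smul_neg, h2, neg_zero])

/-- `R n` has order exactly `2 ^ (n + 1)`, so `R n ≠ ± R m` for `n ≠ m`: the `x`-coordinates are
distinct (equal `x` gives `y² = y'²`, `y' = ± y`). Apply `exists_generic` and `no_generic`. -/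
theorem no_weight {κ : Type} [Field κ] {e : Fin 3 → κ} (hc : Cv e) (q : ℕ) (hq : Odd q)
    (hq2 : 2 ≤ q) (R : ℕ → Pt e) (h0 : R 0 ≠ 0) (h0' : R 0 + R 0 = 0)
    (hR : ∀ n, R (n + 1) + R (n + 1) = R n)
    (hF : ∀ n x y h, R n = aff hc x y h → ∃ h', q • R n = aff hc (x ^ q) (y ^ q) h') : False := by
  have hne : ∀ n, R n ≠ 0 := by
    intro n hn
    have := u3_smul R hR 0 n
    rw [zero_add, hn, smul_zero] at this
    exact h0 this.symm
  have hex : ∀ n, ∃ x y h, R n = aff hc x y h := fun n => (pt_cases hc (R n)).resolve_left (hne n)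
  choose x y h hxy using hex
  have hq' : ∀ n, ∃ h', q • R n = aff hc (x n ^ q) (y n ^ q) h' := fun n =>
    hF n (x n) (y n) (h n) (hxy n)
  choose h' hq'' using hq'
  have hlt : ∀ n m, n < m → x m ≠ x n := by
    intro n m hnm hx
    obtain ⟨h1, h2⟩ := u3_ne R h0 h0' hR n m hnm
    rw [hxy n, hxy m] at h1 h2
    have h3 : (y m - y n) * (y m + y n) = 0 := by
      have e1 := h m
      have e2 := h n
      rw [OnC] at e1 e2
      rw [hx] at e1
      linear_combination e1 - e2
    rcases mul_eq_zero.1 h3 with h4 | h4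
    · apply h1
      rw [aff_inj]
      exact ⟨hx, sub_eq_zero.1 h4⟩
    · apply h2
      rw [neg_aff, aff_inj]
      exact ⟨hx, by linear_combination h4⟩
  have hinj : Function.Injective x := by
    intro n m hnm
    rcases lt_trichotomy n m with hh | hh | hh
    · exact absurd hnm.symm (hlt n m hh)
    · exact hh
    · exact absurd hnm (hlt m n hh)
  obtain ⟨L, iF, iA, X, Y, hcL, hXY, hXY', htr, hfin⟩ := exists_generic hc x y h hinj q h'
    (fun n => by rw [← hxy n]; exact hq'' n)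
  exact no_generic hc q hq hq2 L X Y hcL hXY hXY' htr hfin

end SC2
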