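import Pool.Agent.MP_c1dca2_ag.SC2.R2
import Pool.Agent.MP_c1dca2_ag.SC2.E3
import Pool.Agent.MP_c1dca2_ag.SC2.U3

set_option autoImplicit false

open IsLocalRing

namespace SC2

/-! ## [SC2-R3] inertia and Frobenius on torsion points (file R3.lean; uses E3, R1, R2, U3) -/

theorem r3_map_T2 {G H : Type} [AddCommGroup G] [AddCommGroup H] (f : G →+ H) {P : G}
    (hP : P ∈ T2 G) : f P ∈ T2 H := by
  obtain ⟨n, hn⟩ := hP
  exact ⟨n, by rw [← map_nsmul, hn, map_zero]⟩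

theorem r3_residue_eq {C : Type} [Field C] {V : ValuationSubring C} {a b : C} (ha : a ∈ V)
    (hb : b ∈ V) (h : a - b ∈ V.nonunits) : residue V ⟨a, ha⟩ = residue V ⟨b, hb⟩ := by
  rw [ValuationSubring.mem_nonunits_iff_exists_mem_maximalIdeal] at h
  obtain ⟨h1, h2⟩ := h
  have h3 := (residue_eq_zero_iff _).2 h2
  have h4 : (⟨a - b, h1⟩ : V) = ⟨a, ha⟩ - ⟨b, hb⟩ := rfl
  rw [h4, map_sub] at h3
  exact sub_eq_zero.1 h3

/-- An automorphism which is trivial modulo the maximal ideal fixes the torsion points of order a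
power of `2` (`t2_inj`). -/
theorem iner_fix {C : Type} [Field C] {V : ValuationSubring C} {e : Fin 3 → C} (hc : Cv e)
    (hV : GoodRed V e) (g : C →+* C) (hg : ∀ z ∈ V, g z - z ∈ V.nonunits)
    (hge : ∀ i, g (e i) = e i) (P : Pt e) (hP : P ∈ T2 (Pt e)) :
    ecMap g e e hc hc hge P = P := by
  rcases pt_cases hc P with rfl | ⟨x, y, h, rfl⟩
  · rw [map_zero]
  · have h1 := r3_map_T2 (ecMap g e e hc hc hge) hP
    rw [ecMap_aff] at h1 ⊢
    obtain ⟨hx, hy⟩ := t2_mem hc hV x y h hP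
    rw [aff_inj]
    exact t2_inj hc hV _ _ _ _ _ _ h1 hP ((ValuationSubring.mem_nonunits_iff V).1 (hg x hx))
      ((ValuationSubring.mem_nonunits_iff V).1 (hg y hy))

theorem r3_T2 {G : Type} [AddCommGroup G] (R : ℕ → G) (h0 : R 0 + R 0 = 0)
    (hR : ∀ n, R (n + 1) + R (n + 1) = R n) (n : ℕ) : R n ∈ T2 G := by
  refine ⟨n + 1, ?_⟩
  induction n with
  | zero => rw [zero_add, pow_one, two_nsmul, h0]
  | succ n ih => rw [pow_succ, mul_smul, two_nsmul, hR, ih]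

/-- Reduce with `exists_red` and apply `no_weight` over the residue field. -/
theorem no_frob {C : Type} [Field C] {V : ValuationSubring C} {e : Fin 3 → C} (hc : Cv e)
    (hV : GoodRed V e) (q : ℕ) (hq : Odd q) (hq2 : 2 ≤ q) (g : C →+* C)
    (hg : ∀ z ∈ V, g z - z ^ q ∈ V.nonunits) (hge : ∀ i, g (e i) = e i) (R : ℕ → Pt e)
    (h0 : R 0 ≠ 0) (h0' : R 0 + R 0 = 0) (hR : ∀ n, R (n + 1) + R (n + 1) = R n)
    (hF : ∀ n, ecMap g e e hc hc hge (R n) = q • R n) : False := by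
  obtain ⟨red, hinj, hred⟩ := exists_red hc hV
  have hT := r3_T2 R h0' hR
  refine no_weight (cv_redE hV) q hq hq2 (fun n => red ⟨R n, hT n⟩) ?_ ?_ ?_ ?_
  · intro h
    rw [← map_zero red] at h
    have h1 := hinj h
    exact h0 (congrArg Subtype.val h1)
  · rw [← map_add, ← map_zero red]
    congr 1
    exact Subtype.ext h0'
  · intro n
    rw [← map_add]
    congr 1
    exact Subtype.ext (hR n)
  · intro n x y h hxy
    change red ⟨R n, hT n⟩ = _ at hxy
    rcases pt_cases hc (R n) with h1 | ⟨x₀, y₀, h2, h1⟩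
    · exfalso
      have h3 : (⟨R n, hT n⟩ : T2 (Pt e)) = 0 := Subtype.ext h1
      rw [h3, map_zero] at hxy
      exact aff_ne_zero (cv_redE hV) x y h hxy.symm
    · have hT1 : aff hc x₀ y₀ h2 ∈ T2 (Pt e) := h1 ▸ hT n
      have h3 : (⟨R n, hT n⟩ : T2 (Pt e)) = ⟨aff hc x₀ y₀ h2, hT1⟩ := Subtype.ext h1
      obtain ⟨hx, hy, h4, h5⟩ := hred x₀ y₀ h2 hT1
      rw [h3, h5, aff_inj] at hxy
      obtain ⟨hx1, hy1⟩ := hxy
      have h6 := hF n
      rw [h1, ecMap_aff] at h6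
      have hT2 : aff hc (g x₀) (g y₀) (onC_map g e e hge h2) ∈ T2 (Pt e) := by
        rw [h6]
        exact (T2 (Pt e)).nsmul_mem hT1 q
      have h7 : q • (⟨aff hc x₀ y₀ h2, hT1⟩ : T2 (Pt e)) =
          ⟨aff hc (g x₀) (g y₀) (onC_map g e e hge h2), hT2⟩ := Subtype.ext h6.symm
      obtain ⟨hx', hy', h8, h9⟩ := hred _ _ (onC_map g e e hge h2) hT2
      have hgx : residue V ⟨g x₀, hx'⟩ = x ^ q := by
        rw [← hx1, ← map_pow]
        exact r3_residue_eq hx' (V.pow_mem hx q) (hg x₀ hx)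
      have hgy : residue V ⟨g y₀, hy'⟩ = y ^ q := by
        rw [← hy1, ← map_pow]
        exact r3_residue_eq hy' (V.pow_mem hy q) (hg y₀ hy)
      rw [h3, ← map_nsmul, h7, h9]
      have h10 : OnC (redE hV) (x ^ q) (y ^ q) := by
        rw [← hgx, ← hgy]
        exact h8
      refine ⟨h10, ?_⟩
      rw [aff_inj]
      exact ⟨hgx, hgy⟩

end SC2
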