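import Pool.Agent.MP_c1dca2_ag.SC2.B1
import Pool.Agent.MP_c1dca2_ag.SC2.E4
import Pool.Agent.MP_c1dca2_ag.SC2.R3
import Pool.Agent.MP_c1dca2_ag.SC2.AB

set_option autoImplicit false

open Polynomial SEC

namespace SC2

variable {k K : Type} [Field k] [Field K] [Algebra k K]

/-! ## [SC2-B2] the action of a section on the points over `M` (file B2.lean; uses E3, E4, R1, R3) -/

/-- `s σ` is the identity on `e i ∈ M` if `σ (e i) = e i` -/
theorem s_eM (s : Sect k K) (e : Fin 3 → kb k K) (σ : kb k K ≃ₐ[k] kb k K)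
    (hσ : ∀ i, σ (e i) = e i) (i : Fin 3) :
    ((s.toHom σ : Mnr k K ≃ₐ[K] Mnr k K) : Mnr k K →+* Mnr k K) (eM e i) = eM e i := by
  apply Subtype.ext
  have h := s.split σ (e i) (kb_le _ (e i).2)
  rw [hσ] at h
  exact h

/-- the action of `s σ` on the points -/
noncomputable def act (s : Sect k K) {e : Fin 3 → kb k K} (hc : Cv (eM e))
    (σ : kb k K ≃ₐ[k] kb k K) (hσ : ∀ i, σ (e i) = e i) : Pt (eM e) →+ Pt (eM e) :=
  ecMap ((s.toHom σ : Mnr k K ≃ₐ[K] Mnr k K) : Mnr k K →+* Mnr k K) (eM e) (eM e) hc hc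
    (s_eM s e σ hσ)

theorem b2_congr {F F' : Type} [Field F] [Field F'] {g g' : F →+* F'} (h : g = g')
    (e : Fin 3 → F) (e' : Fin 3 → F') (hc : Cv e) (hc' : Cv e') (he : ∀ i, g (e i) = e' i)
    (he' : ∀ i, g' (e i) = e' i) (P : Pt e) :
    ecMap g e e' hc hc' he P = ecMap g' e e' hc hc' he' P := by
  subst h
  rfl

theorem act_mul (s : Sect k K) {e : Fin 3 → kb k K} (hc : Cv (eM e))
    (σ τ : kb k K ≃ₐ[k] kb k K) (hσ : ∀ i, σ (e i) = e i) (hτ : ∀ i, τ (e i) = e i)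
    (hστ : ∀ i, (σ * τ) (e i) = e i) (P : Pt (eM e)) :
    act s hc (σ * τ) hστ P = act s hc σ hσ (act s hc τ hτ P) := by
  have h1 : ((s.toHom (σ * τ) : Mnr k K ≃ₐ[K] Mnr k K) : Mnr k K →+* Mnr k K) =
      ((s.toHom σ : Mnr k K ≃ₐ[K] Mnr k K) : Mnr k K →+* Mnr k K).comp
        ((s.toHom τ : Mnr k K ≃ₐ[K] Mnr k K) : Mnr k K →+* Mnr k K) := by
    ext z
    rw [map_mul]
    rfl
  have h2 : ∀ i, (((s.toHom σ : Mnr k K ≃ₐ[K] Mnr k K) : Mnr k K →+* Mnr k K).comp
      ((s.toHom τ : Mnr k K ≃ₐ[K] Mnr k K) : Mnr k K →+* Mnr k K)) (eM e i) = eM e i := by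
    intro i
    rw [RingHom.comp_apply, s_eM s e τ hτ, s_eM s e σ hσ]
  unfold act
  rw [b2_congr h1 (eM e) (eM e) hc hc _ h2]
  rw [ecMap_comp]

/-- The inclusion `k^alg → M`. -/
def iotaM : kb k K →+* Mnr k K where
  toFun := fun a => ⟨(a : Om K), kb_le _ a.2⟩
  map_one' := rfl
  map_mul' := fun _ _ => rfl
  map_zero' := rfl
  map_add' := fun _ _ => rfl

theorem b2_integral (z : Mnr k K) (hz : IsIntegral (iotaM (k := k) (K := K)).range z) :
    z ∈ (iotaM (k := k) (K := K)).range := by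
  obtain ⟨p, hp, hpz⟩ := hz
  have h1 : IsIntegral (kb k K) (z : Om K) := by
    have h2 : ∀ a : (iotaM (k := k) (K := K)).range, ((a : Mnr k K) : Om K) ∈ kb k K := by
      rintro ⟨a, b, rfl⟩
      exact b.2
    let ψ : (iotaM (k := k) (K := K)).range →+* kb k K :=
      { toFun := fun a => ⟨((a : Mnr k K) : Om K), h2 a⟩
        map_one' := rfl
        map_mul' := fun _ _ => rfl
        map_zero' := rfl
        map_add' := fun _ _ => rfl }
    refine ⟨p.map ψ, hp.map ψ, ?_⟩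
    rw [eval₂_map]
    have h3 := congrArg (fun w : Mnr k K => (w : Om K)) hpz
    simp only [ZeroMemClass.coe_zero] at h3
    rw [← h3]
    have h4 := Polynomial.hom_eval₂ p (algebraMap (iotaM (k := k) (K := K)).range (Mnr k K))
      (algebraMap (Mnr k K) (Om K)) z
    exact h4.symm
  have h5 : IsAlgebraic k (z : Om K) := by
    have : Algebra.IsAlgebraic k (kb k K) := algebraicClosure.isAlgebraic k (Om K)
    exact h1.isAlgebraic.restrictScalars k
  exact ⟨⟨(z : Om K), mem_algebraicClosure_iff.2 h5⟩, Subtype.ext rfl⟩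

theorem b2_iota_inj : Function.Injective (iotaM (k := k) (K := K)) :=
  (iotaM (k := k) (K := K)).injective

/-- Torsion points of order a power of `2` over `M` have coordinates in `k^alg` (`torsion_mem` with
`O` the range of `iotaM`, which is integrally closed in `M`). -/
theorem t2_descend {e : Fin 3 → kb k K} (hc : Cv e) (hc' : Cv (eM e)) (P : Pt (eM e))
    (hP : P ∈ T2 (Pt (eM e))) :
    ∃ P' ∈ T2 (Pt e), ecMap iotaM e (eM e) hc hc' (fun _ => rfl) P' = P := by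
  rcases pt_cases hc' P with rfl | ⟨X, Y, h, rfl⟩
  · exact ⟨0, (T2 (Pt e)).zero_mem, map_zero _⟩
  · obtain ⟨n, hn⟩ := hP
    obtain ⟨⟨x, rfl⟩, ⟨y, rfl⟩⟩ := torsion_mem hc' (iotaM (k := k) (K := K)).range b2_integral
      (fun i => ⟨e i, rfl⟩) n X Y h hn
    have h1 : OnC e x y := by
      rw [OnC] at h ⊢
      apply b2_iota_inj
      rw [map_pow, h]
      simp only [map_mul, map_sub]
      rfl
    have h2 : ecMap iotaM e (eM e) hc hc' (fun _ => rfl) (aff hc x y h1) =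
        aff hc' (iotaM x) (iotaM y) h := ecMap_aff iotaM e (eM e) hc hc' (fun _ => rfl) x y h1
    refine ⟨aff hc x y h1, ⟨n, ?_⟩, h2⟩
    apply ecMap_injective iotaM e (eM e) hc hc' (fun _ => rfl)
    rw [map_nsmul, h2, hn, map_zero]

/-- The action of a section on a point with coordinates in `k^alg` is the Galois action. -/
theorem act_iota (s : Sect k K) {e : Fin 3 → kb k K} (hc : Cv e) (hc' : Cv (eM e))
    (σ : kb k K ≃ₐ[k] kb k K) (hσ : ∀ i, σ (e i) = e i) (P' : Pt e) :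
    act s hc' σ hσ (ecMap iotaM e (eM e) hc hc' (fun _ => rfl) P') =
      ecMap iotaM e (eM e) hc hc' (fun _ => rfl)
        (ecMap ((σ : kb k K ≃ₐ[k] kb k K) : kb k K →+* kb k K) e e hc hc hσ P') := by
  rcases pt_cases hc P' with rfl | ⟨x, y, h, rfl⟩
  · simp only [map_zero]
  · have key : ∀ z : kb k K,
        ((s.toHom σ : Mnr k K ≃ₐ[K] Mnr k K) : Mnr k K →+* Mnr k K) (iotaM z) =
          iotaM (((σ : kb k K ≃ₐ[k] kb k K) : kb k K →+* kb k K) z) := by
      intro z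
      apply Subtype.ext
      exact s.split σ z (kb_le _ z.2)
    have h1 := ecMap_aff iotaM e (eM e) hc hc' (fun _ => rfl) x y h
    have h2 := ecMap_aff ((σ : kb k K ≃ₐ[k] kb k K) : kb k K →+* kb k K) e e hc hc hσ x y h
    have h3 := ecMap_aff iotaM e (eM e) hc hc' (fun _ => rfl) _ _
      (onC_map ((σ : kb k K ≃ₐ[k] kb k K) : kb k K →+* kb k K) e e hσ h)
    have h4 := ecMap_aff ((s.toHom σ : Mnr k K ≃ₐ[K] Mnr k K) : Mnr k K →+* Mnr k K) (eM e) (eM e)
      hc' hc' (s_eM s e σ hσ) _ _ (onC_map iotaM e (eM e) (fun _ => rfl) h)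
    refine (congrArg (act s hc' σ hσ) h1).trans (h4.trans ?_)
    refine Eq.trans ?_ (congrArg _ h2).symm
    refine Eq.trans ?_ h3.symm
    rw [aff_inj]
    exact ⟨key x, key y⟩

/-- Inertia acts trivially on torsion points of order a power of `2` (`t2_descend`, `act_iota`,
`iner_fix`). -/
theorem act_t2 (s : Sect k K) {V : ValuationSubring (kb k K)} {e : Fin 3 → kb k K}
    (hc : Cv e) (hc' : Cv (eM e)) (hV : GoodRed V e) (σ : kb k K ≃ₐ[k] kb k K)
    (hσ : ∀ i, σ (e i) = e i) (hI : Iner V σ) (P : Pt (eM e)) (hP : P ∈ T2 (Pt (eM e))) :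
    act s hc' σ hσ P = P := by
  obtain ⟨P', hP', rfl⟩ := t2_descend hc hc' P hP
  rw [act_iota s hc hc' σ hσ P']
  rw [iner_fix hc hV _ (fun z hz => hI.triv z hz) hσ P' hP']

end SC2
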