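import Pool.Agent.MP_c1dca2_ag.SC2.B2
import Pool.Agent.MP_c1dca2_ag.SC2.B3

set_option autoImplicit false

open Polynomial SEC

namespace SC2

variable {k K : Type} [Field k] [Field K] [Algebra k K]

/-! ## [SC2-B4] the weight relation for division points (file B4.lean; uses A9, B2, B3) -/

/-- The action as a total function. -/
noncomputable def b4_ac (s : Sect k K) {e : Fin 3 → kb k K} (hc : Cv (eM e))
    (σ : kb k K ≃ₐ[k] kb k K) : Pt (eM e) → Pt (eM e) :=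
  open Classical in
  if hσ : ∀ i, σ (e i) = e i then act s hc σ hσ else fun _ => 0

theorem b4_ac_eq (s : Sect k K) {e : Fin 3 → kb k K} (hc : Cv (eM e))
    (σ : kb k K ≃ₐ[k] kb k K) (hσ : ∀ i, σ (e i) = e i) (P : Pt (eM e)) :
    b4_ac s hc σ P = act s hc σ hσ P := by
  rw [b4_ac, dif_pos hσ]

theorem b4_mul_e {e : Fin 3 → kb k K} {σ τ : kb k K ≃ₐ[k] kb k K} (hσ : ∀ i, σ (e i) = e i)
    (hτ : ∀ i, τ (e i) = e i) : ∀ i, (σ * τ) (e i) = e i := by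
  intro i
  rw [AlgEquiv.mul_apply, hτ, hσ]

theorem b4_inv_e {e : Fin 3 → kb k K} {σ : kb k K ≃ₐ[k] kb k K} (hσ : ∀ i, σ (e i) = e i) :
    ∀ i, σ⁻¹ (e i) = e i := by
  intro i
  have h : σ⁻¹ (σ (e i)) = e i := by
    rw [← AlgEquiv.mul_apply]
    simp
  rwa [hσ] at h

theorem b4_act_one (s : Sect k K) {e : Fin 3 → kb k K} (hc : Cv (eM e))
    (h1 : ∀ i, (1 : kb k K ≃ₐ[k] kb k K) (e i) = e i) (P : Pt (eM e)) :
    act s hc 1 h1 P = P := by
  unfold act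
  refine ecMap_id _ (fun z => ?_) _ _ _ P
  rw [map_one]
  rfl

theorem b4_act_inv (s : Sect k K) {e : Fin 3 → kb k K} (hc : Cv (eM e))
    (σ : kb k K ≃ₐ[k] kb k K) (hσ : ∀ i, σ (e i) = e i) (P : Pt (eM e)) :
    act s hc σ hσ (act s hc σ⁻¹ (b4_inv_e hσ) P) = P := by
  rw [← act_mul s hc σ σ⁻¹ hσ (b4_inv_e hσ) (b4_mul_e hσ (b4_inv_e hσ))]
  have : ∀ (ρ : kb k K ≃ₐ[k] kb k K) (hρ : ∀ i, ρ (e i) = e i), ρ = 1 → act s hc ρ hρ P = P := by
    rintro ρ hρ rfl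
    exact b4_act_one s hc hρ P
  exact this _ _ (mul_inv_cancel σ)

theorem b4_act_inv' (s : Sect k K) {e : Fin 3 → kb k K} (hc : Cv (eM e))
    (σ : kb k K ≃ₐ[k] kb k K) (hσ : ∀ i, σ (e i) = e i) (P : Pt (eM e)) :
    act s hc σ⁻¹ (b4_inv_e hσ) (act s hc σ hσ P) = P := by
  rw [← act_mul s hc σ⁻¹ σ (b4_inv_e hσ) hσ (b4_mul_e (b4_inv_e hσ) hσ)]
  have : ∀ (ρ : kb k K ≃ₐ[k] kb k K) (hρ : ∀ i, ρ (e i) = e i), ρ = 1 → act s hc ρ hρ P = P := by
    rintro ρ hρ rfl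
    exact b4_act_one s hc hρ P
  exact this _ _ (inv_mul_cancel σ)

/-- A point is fixed by an open subgroup. -/
theorem b4_open (s : Sect k K) {e : Fin 3 → kb k K} (hc : Cv (eM e)) (P : Pt (eM e)) :
    ∃ E : IntermediateField k (kb k K), FiniteDimensional k E ∧
      ∀ σ ∈ E.fixingSubgroup, ∀ hσ : ∀ i, σ (e i) = e i, act s hc σ hσ P = P := by
  rcases pt_cases hc P with rfl | ⟨x, y, h, rfl⟩
  · obtain ⟨E, hE, -⟩ := open_stab s 0
    exact ⟨E, hE, fun σ _ hσ => map_zero _⟩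
  · obtain ⟨E, hE, h1⟩ := open_stab s x
    obtain ⟨E', hE', h1'⟩ := open_stab s y
    refine ⟨E ⊔ E', inferInstance, fun σ hσ hσe => ?_⟩
    have h3 : σ ∈ E.fixingSubgroup :=
      IntermediateField.fixingSubgroup_le le_sup_left hσ
    have h4 : σ ∈ E'.fixingSubgroup :=
      IntermediateField.fixingSubgroup_le le_sup_right hσ
    unfold act
    rw [ecMap_aff, aff_inj]
    exact ⟨h1 σ h3, h1' σ h4⟩

/-- `J = {σ | Iner V σ, act σ P = P}`. If `Wild V π σ` then `σ ∈ J`: `weight`/`two_group` for the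
character `χ σ = 0` if `act σ P = P` and `1` otherwise with values in `ZMod 2` (additive on the
inertia group because `act σ P = ± P`; if `P = - P` there is nothing to prove). For `σ ∈ J` put
`v σ = act σ Q - Q`; `2^n • v σ = 0`, and `v (σ τ) = v σ + act σ (v τ) = v σ + v τ` (`act_t2`).
`weight` with `χ = v`, `H = Pt (eM e)`: `v (φ τ φ⁻¹) = q • v τ`. On the other hand `v φ` is torsion
too (`act φ P = P`), `act φ (act φ⁻¹ Q - Q) = - v φ`, and
`v (φ τ φ⁻¹) = v φ + act φ (v τ) + act (φ τ φ⁻¹) (- v φ) = act φ (v τ)` (`φ τ φ⁻¹` is in the inertia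
group, `Iner.conj`, `act_t2`). Continuity: `open_stab` for the coordinates of `Q` (and of `P`). -/
theorem v_weight [CharZero k] {A : ValuationSubring k} [IsDiscreteValuationRing A]
    {V : ValuationSubring (kb k K)} (h : Above A V) (h2 : V.valuation 2 = 1) (s : Sect k K)
    {e : Fin 3 → kb k K} (hc : Cv e) (hc' : Cv (eM e)) (hV : GoodRed V e)
    (hI : ∀ σ, Iner V σ → ∀ i, σ (e i) = e i) (P : Pt (eM e))
    (hP : ∀ σ (hσ : Iner V σ), act s hc' σ (hI σ hσ) P = P ∨ act s hc' σ (hI σ hσ) P = -P)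
    (q : ℕ) (φ : kb k K ≃ₐ[k] kb k K) (hφ : Frob q V φ) (hφe : ∀ i, φ (e i) = e i)
    (hφP : act s hc' φ hφe P = P) (n : ℕ) (Q : Pt (eM e)) (hQ : (2 ^ n) • Q = P)
    (τ : kb k K ≃ₐ[k] kb k K) (hτ : Iner V τ) (hτP : act s hc' τ (hI τ hτ) P = P) :
    act s hc' φ hφe (act s hc' τ (hI τ hτ) Q - Q) = q • (act s hc' τ (hI τ hτ) Q - Q) := by
  have hcl : IsAlgClosed (kb k K) := kb_isAlgClosed
  have hgal : IsGalois k (kb k K) := kb_isGalois
  -- the tower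
  obtain ⟨a, ha0, ha1⟩ := exists_pi A
  obtain ⟨π, hπ0, hπ⟩ := exists_tower (K := K) a
  have hπ0' : π 0 ≠ 0 := by
    rw [hπ0]
    exact (_root_.map_ne_zero _).2 ha0
  have hT : ∀ u : kb k K, u ≠ 0 → ∃ (m : ℕ) (n : ℤ), 0 < m ∧
      V.valuation u ^ m = V.valuation (π 0) ^ n := by
    intro u hu
    rw [hπ0]
    exact val_torsion h u hu a ha0 ha1
  -- the group `J`
  have hacm : ∀ σ τ, Iner V σ → Iner V τ → ∀ R, b4_ac s hc' (σ * τ) R =
      b4_ac s hc' σ (b4_ac s hc' τ R) := by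
    intro σ τ hσ hτ R
    rw [b4_ac_eq s hc' σ (hI σ hσ), b4_ac_eq s hc' τ (hI τ hτ),
      b4_ac_eq s hc' (σ * τ) (b4_mul_e (hI σ hσ) (hI τ hτ)), act_mul]
  let J : Subgroup (kb k K ≃ₐ[k] kb k K) :=
    { carrier := {σ | Iner V σ ∧ b4_ac s hc' σ P = P}
      mul_mem' := by
        rintro σ τ ⟨hσ, hσP⟩ ⟨hτ, hτP⟩
        exact ⟨hσ.mul hτ, by rw [hacm σ τ hσ hτ, hτP, hσP]⟩
      one_mem' := by
        refine ⟨Iner.one V, ?_⟩
        rw [b4_ac_eq s hc' 1 (fun i => rfl)]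
        exact b4_act_one s hc' _ P
      inv_mem' := by
        rintro σ ⟨hσ, hσP⟩
        refine ⟨hσ.inv, ?_⟩
        rw [b4_ac_eq s hc' σ (hI σ hσ)] at hσP
        rw [b4_ac_eq s hc' σ⁻¹ (b4_inv_e (hI σ hσ))]
        nth_rewrite 1 [← hσP]
        exact b4_act_inv' s hc' σ (hI σ hσ) P }
  have hJ : ∀ σ ∈ J, Iner V σ := fun σ hσ => hσ.1
  have hJP : ∀ σ ∈ J, b4_ac s hc' σ P = P := fun σ hσ => hσ.2
  -- the wild group is contained in `J`
  have hJ' : ∀ σ : kb k K ≃ₐ[k] kb k K, Wild V π σ → σ ∈ J := by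
    intro σ hσ
    refine ⟨hσ.iner, ?_⟩
    by_cases hPP : -P = P
    · rcases hP σ hσ.iner with h3 | h3
      · rw [b4_ac_eq s hc' σ (hI σ hσ.iner), h3]
      · rw [b4_ac_eq s hc' σ (hI σ hσ.iner), h3, hPP]
    · classical
      let χ : (kb k K ≃ₐ[k] kb k K) → ZMod 2 := fun σ => if b4_ac s hc' σ P = P then 0 else 1
      have hP' : ∀ σ, Iner V σ → b4_ac s hc' σ P = P ∨ b4_ac s hc' σ P = -P := by
        intro σ hσ
        rw [b4_ac_eq s hc' σ (hI σ hσ)]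
        exact hP σ hσ
      have hneg : ∀ σ, Iner V σ → b4_ac s hc' σ (-P) = -(b4_ac s hc' σ P) := by
        intro σ hσ
        rw [b4_ac_eq s hc' σ (hI σ hσ), b4_ac_eq s hc' σ (hI σ hσ), map_neg]
      have hadd : ∀ σ τ, Wild V π σ → Wild V π τ → χ (σ * τ) = χ σ + χ τ := by
        intro σ τ hσ hτ
        simp only [χ]
        rw [hacm σ τ hσ.iner hτ.iner]
        rcases hP' τ hτ.iner with h3 | h3
        · rw [h3, if_pos rfl, add_zero]
        · rw [h3, hneg σ hσ.iner, if_neg hPP]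
          rcases hP' σ hσ.iner with h4 | h4
          · rw [h4, if_neg hPP, if_pos rfl, zero_add]
          · rw [h4, neg_neg, if_pos rfl, if_neg hPP]
            decide
      obtain ⟨E, hE, hE'⟩ := b4_open s hc' P
      have h5 := two_group h2 π hπ hπ0' hT (ZMod 2) χ hadd 1
        (fun σ _ => by rw [pow_one, two_nsmul]; exact CharTwo.add_self_eq_zero _) E
        (fun σ hσ hσE => by
          simp only [χ]
          rw [b4_ac_eq s hc' σ (hI σ hσ.iner), hE' σ hσE, if_pos rfl]) σ hσ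
      simp only [χ] at h5
      by_contra hne
      rw [if_neg hne] at h5
      exact one_ne_zero h5
  -- the cocycle
  let v : (kb k K ≃ₐ[k] kb k K) → Pt (eM e) := fun σ => b4_ac s hc' σ Q - Q
  have htor : ∀ σ ∈ J, (2 ^ n) • v σ = 0 := by
    intro σ hσ
    simp only [v]
    have h3 := hJP σ hσ
    rw [b4_ac_eq s hc' σ (hI σ (hJ σ hσ))] at h3 ⊢
    rw [smul_sub, ← map_nsmul, hQ, h3, sub_self]
  have hadd : ∀ σ ∈ J, ∀ τ ∈ J, v (σ * τ) = v σ + v τ := by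
    intro σ hσ τ hτ
    simp only [v]
    rw [hacm σ τ (hJ σ hσ) (hJ τ hτ)]
    have h3 : b4_ac s hc' τ Q = v τ + Q := by simp only [v]; abel
    have h4 : act s hc' σ (hI σ (hJ σ hσ)) (v τ) = v τ :=
      act_t2 s hc hc' hV σ _ (hJ σ hσ) (v τ) ⟨n, htor τ hτ⟩
    rw [h3, b4_ac_eq s hc' σ (hI σ (hJ σ hσ)), b4_ac_eq s hc' σ (hI σ (hJ σ hσ)), map_add, h4]
    abel
  obtain ⟨E, hE, hE'⟩ := b4_open s hc' Q
  have hτJ : τ ∈ J := ⟨hτ, by rw [b4_ac_eq s hc' τ (hI τ hτ), hτP]⟩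
  have hw := weight h2 π hπ hπ0' ⟨a, hπ0⟩ hT J hJ hJ' (Pt (eM e)) v hadd n htor E
    (fun σ hσ hσE => by
      simp only [v]
      rw [b4_ac_eq s hc' σ (hI σ (hJ σ hσ)), hE' σ hσE, sub_self]) q φ hφ τ hτJ
  have hvτ : v τ = act s hc' τ (hI τ hτ) Q - Q := by
    simp only [v]
    rw [b4_ac_eq s hc' τ (hI τ hτ)]
  rw [hvτ] at hw
  rw [← hw]
  simp only [v]
  -- computation of `v (φ τ φ⁻¹)`
  have hφi := b4_inv_e hφe
  rw [b4_ac_eq s hc' (φ * τ * φ⁻¹) (b4_mul_e (b4_mul_e hφe (hI τ hτ)) hφi),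
    act_mul s hc' (φ * τ) φ⁻¹ (b4_mul_e hφe (hI τ hτ)) hφi, act_mul s hc' φ τ hφe (hI τ hτ)]
  set w := act s hc' φ⁻¹ hφi Q - Q with hwdef
  have hφP' : act s hc' φ⁻¹ hφi P = P := by
    nth_rewrite 1 [← hφP]
    exact b4_act_inv' s hc' φ hφe P
  have hwt : (2 ^ n) • w = 0 := by
    rw [hwdef, smul_sub, ← map_nsmul, hQ, hφP', sub_self]
  have h3 : act s hc' φ⁻¹ hφi Q = Q + w := by rw [hwdef]; abel
  have h4 : act s hc' τ (hI τ hτ) w = w := act_t2 s hc hc' hV τ _ hτ w ⟨n, hwt⟩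
  have h5 : act s hc' φ hφe w = Q - act s hc' φ hφe Q := by
    rw [hwdef, map_sub, b4_act_inv]
  rw [h3, map_add, h4, map_add, h5, map_sub]
  abel

end SC2
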