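import Pool.Agent.MP_c1dca2_ag.SC2.B4

set_option autoImplicit false

open Polynomial SEC

namespace SC2

variable {k K : Type} [Field k] [Field K] [Algebra k K]

/-! ## [SC2-B5] the contradiction from the tower (file B5.lean; uses B1, B2, B4, E2, R3) -/

/-- `act` on an affine point -/
theorem b5_act_aff (s : Sect k K) {e : Fin 3 → kb k K} (hc : Cv (eM e))
    (σ : kb k K ≃ₐ[k] kb k K) (hσ : ∀ i, σ (e i) = e i) (x y : Mnr k K) (h : OnC (eM e) x y) :
    ∃ h', act s hc σ hσ (aff hc x y h) = aff hc (s.toHom σ x) (s.toHom σ y) h' := by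
  unfold act
  rw [ecMap_aff]
  exact ⟨_, rfl⟩

theorem b5_half [CharZero k] {e : Fin 3 → kb k K} (he : Function.Injective e)
    (P : Pt (eM e)) : ∃ Q : Pt (eM e), Q + Q = P := by
  by_cases hP : P = 0
  · exact ⟨0, by rw [hP, add_zero]⟩
  · exact exists_half he P hP

/-- `P = (X, Y)`. Let `Q 0` be the half of `P` given by `halve` (coordinates
`X + α β + β γ + γ α`, `(α + β) (β + γ) (γ + α)`) and `Q (n+1)` a half of `Q n` (`exists_half`;
`Q n ≠ 0` because `P ≠ 0`). `R n = act τ (Q n) - Q n`. `R 0 ≠ 0`: the first coordinate of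
`act τ (Q 0)` is `X - α β + β γ - γ α`, the difference `2 α (β + γ)` is not `0`
(`β² - γ² = e 2 - e 1 ≠ 0`). `R 0 + R 0 = 0` and `R (n+1) + R (n+1) = R n` because `act τ P = P`
(`s τ Y = Y`) and `2 • Q (n+1) = Q n`. `v_weight`: `act φ (R n) = q • R n`. The `R n` are torsion, come
from points over `k^alg` (`t2_descend`, `act_iota`, `ecMap_injective`), and `no_frob` with
`g = φ` gives a contradiction. -/
theorem tower_contra [CharZero k] {A : ValuationSubring k} [IsDiscreteValuationRing A]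
    {V : ValuationSubring (kb k K)} (h : Above A V) (h2 : V.valuation 2 = 1) (s : Sect k K)
    {e : Fin 3 → kb k K} (hc : Cv e) (hV : GoodRed V e)
    (hI : ∀ σ : kb k K ≃ₐ[k] kb k K, Iner V σ → ∀ i, σ (e i) = e i)
    (X Y α β γ : Mnr k K) (hXY : OnC (eM e) X Y) (hα : α ^ 2 = X - eM e 0)
    (hβ : β ^ 2 = X - eM e 1) (hγ : γ ^ 2 = X - eM e 2) (hY : α * β * γ = Y) (hα0 : α ≠ 0)
    (hIX : ∀ σ : kb k K ≃ₐ[k] kb k K, Iner V σ → s.toHom σ X = X ∧
      (s.toHom σ Y = Y ∨ s.toHom σ Y = -Y))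
    (q : ℕ) (hq : Odd q) (hq2 : 2 ≤ q) (φ : kb k K ≃ₐ[k] kb k K) (hφ : Frob q V φ)
    (hφe : ∀ i, φ (e i) = e i) (hφX : s.toHom φ X = X) (hφY : s.toHom φ Y = Y)
    (τ : kb k K ≃ₐ[k] kb k K) (hτ : Iner V τ) (hτα : s.toHom τ α = α)
    (hτβ : s.toHom τ β = -β) (hτγ : s.toHom τ γ = -γ) : False := by
  have hc' : Cv (eM e) := cv_eM hc.inj
  obtain ⟨h0, hQ0⟩ := halve hc' X Y hXY α β γ hα hβ hγ hY
  set P : Pt (eM e) := aff hc' X Y hXY with hPdef
  choose half hhalf using b5_half (k := k) (K := K) hc.inj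
  let Q : ℕ → Pt (eM e) := fun n => half^[n] (aff hc' _ _ h0)
  have hQ0' : Q 0 = aff hc' _ _ h0 := rfl
  have hQs : ∀ n, Q (n + 1) + Q (n + 1) = Q n := by
    intro n
    simp only [Q, Function.iterate_succ_apply']
    exact hhalf _
  have hQP : ∀ n, (2 ^ (n + 1)) • Q n = P := by
    intro n
    induction n with
    | zero => rw [hQ0', zero_add, pow_one, two_nsmul, hQ0]
    | succ n ih => rw [pow_succ, mul_smul, two_nsmul, hQs, ih]
  -- the action of `τ`, `φ` and inertia on `P`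
  have hτX : s.toHom τ X = X := (hIX τ hτ).1
  have hτY : s.toHom τ Y = Y := by
    rw [← hY, map_mul, map_mul, hτα, hτβ, hτγ]
    ring
  have hτe := hI τ hτ
  have hτP : act s hc' τ (hI τ hτ) P = P := by
    obtain ⟨h', h1⟩ := b5_act_aff s hc' τ (hI τ hτ) X Y hXY
    rw [hPdef, h1, aff_inj]
    exact ⟨hτX, hτY⟩
  have hφP : act s hc' φ hφe P = P := by
    obtain ⟨h', h1⟩ := b5_act_aff s hc' φ hφe X Y hXY
    rw [hPdef, h1, aff_inj]
    exact ⟨hφX, hφY⟩
  have hIP : ∀ σ (hσ : Iner V σ), act s hc' σ (hI σ hσ) P = P ∨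
      act s hc' σ (hI σ hσ) P = -P := by
    intro σ hσ
    obtain ⟨h', h1⟩ := b5_act_aff s hc' σ (hI σ hσ) X Y hXY
    rw [hPdef, h1, neg_aff, aff_inj, aff_inj]
    obtain ⟨h3, h4⟩ := hIX σ hσ
    exact h4.imp (fun h4 => ⟨h3, h4⟩) (fun h4 => ⟨h3, h4⟩)
  -- the points `R n`
  let R : ℕ → Pt (eM e) := fun n => act s hc' τ (hI τ hτ) (Q n) - Q n
  have hRs : ∀ n, R (n + 1) + R (n + 1) = R n := by
    intro n
    have h3 : R (n + 1) + R (n + 1) = act s hc' τ (hI τ hτ) (Q (n + 1) + Q (n + 1)) -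
        (Q (n + 1) + Q (n + 1)) := by
      simp only [R, map_add]
      abel
    rw [h3, hQs]
  have hR00 : R 0 + R 0 = 0 := by
    have h3 : R 0 + R 0 = act s hc' τ (hI τ hτ) (Q 0 + Q 0) - (Q 0 + Q 0) := by
      simp only [R, map_add]
      abel
    have h4 : Q 0 + Q 0 = P := hQ0
    rw [h3, h4, hτP, sub_self]
  have hR0 : R 0 ≠ 0 := by
    intro h3
    have h4 : act s hc' τ (hI τ hτ) (Q 0) = Q 0 := sub_eq_zero.1 h3
    obtain ⟨h', h1⟩ := b5_act_aff s hc' τ (hI τ hτ) _ _ h0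
    rw [hQ0', h1, aff_inj] at h4
    have h5 := h4.1
    simp only [map_add, map_mul, hτX, hτα, hτβ, hτγ] at h5
    have h6 : 2 * (α * (β + γ)) = 0 := by linear_combination -h5
    have h7 : β + γ ≠ 0 := by
      intro h7
      have h8 : eM e 2 = eM e 1 := by
        have h9 : β ^ 2 - γ ^ 2 = (β + γ) * (β - γ) := by ring
        rw [h7, zero_mul, hβ, hγ] at h9
        linear_combination h9
      exact absurd (hc'.inj h8) (by decide)
    exact (mul_ne_zero hc'.two (mul_ne_zero hα0 h7)) h6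
  have hRt : ∀ n, R n ∈ T2 (Pt (eM e)) := by
    intro n
    refine ⟨n + 1, ?_⟩
    simp only [R]
    rw [smul_sub, ← map_nsmul, hQP, hτP, sub_self]
  have hRF : ∀ n, act s hc' φ hφe (R n) = q • R n := fun n =>
    v_weight h h2 s hc hc' hV hI P hIP q φ hφ hφe hφP (n + 1) (Q n) (hQP n) τ hτ hτP
  -- descend
  choose R' hR't hR' using fun n => t2_descend hc hc' (R n) (hRt n)
  have hinj := ecMap_injective (iotaM (k := k) (K := K)) e (eM e) hc hc' (fun _ => rfl)
  refine no_frob hc hV q hq hq2 ((φ : kb k K ≃ₐ[k] kb k K) : kb k K →+* kb k K) hφ.frob hφe R'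
    ?_ ?_ ?_ ?_
  · intro h3
    apply hR0
    rw [← hR' 0, h3, map_zero]
  · apply hinj
    rw [map_add, map_zero, hR', hR00]
  · intro n
    apply hinj
    rw [map_add, hR', hR', hRs]
  · intro n
    apply hinj
    rw [map_nsmul, hR', ← hRF n, ← act_iota s hc hc' φ hφe, hR']

end SC2
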