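import Pool.Agent.MP_c1dca2_ag.SC2.B5
import Pool.Agent.MP_c1dca2_ag.SC2.A4

set_option autoImplicit false

open Polynomial SEC

namespace SC2

variable {k K : Type} [Field k] [Field K] [Algebra k K]

/-! ## [SC2-B6] four roots (file B6.lean; uses A4, B5) -/

theorem b6_alg {F : Type} [Field F] (x r0 r1 r2 S1 S2 μ κ e1 : F) (hD : x - r0 ≠ 0)
    (h20 : r2 - r0 ≠ 0) (hS1 : S1 ^ 2 * (x - r0) = x - r1) (hS2 : S2 ^ 2 * (x - r0) = x - r2)
    (hκ : κ * (r2 - r0) = r1 - r0) (he : e1 * (r2 - r0) = r2 - r1) (hμ : μ ^ 2 = κ) :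
    (μ * S2) ^ 2 = S1 ^ 2 - e1 := by
  have h1 : (x - r0) * (r2 - r0) ≠ 0 := mul_ne_zero hD h20
  refine mul_right_cancel₀ h1 ?_
  linear_combination (S2 ^ 2 * (x - r0) * (r2 - r0)) * hμ + (S2 ^ 2 * (x - r0)) * hκ +
    (r1 - r0) * hS2 - (r2 - r0) * hS1 + (x - r0) * he

/-- square roots of units fixed by inertia are fixed -/
theorem b6_mu {V : ValuationSubring (kb k K)} (h2 : V.valuation 2 = 1) (μ κ : kb k K)
    (hμ : μ ^ 2 = κ) (hκ : V.valuation κ = 1) (σ : kb k K ≃ₐ[k] kb k K) (hσ : Iner V σ)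
    (hσκ : σ κ = κ) : σ μ = μ := by
  have h1 : (σ μ) ^ 2 = μ ^ 2 := by rw [← map_pow, hμ, hσκ]
  have hv : V.valuation μ = 1 := by
    have h3 : V.valuation μ ^ 2 = 1 := by rw [← map_pow, hμ, hκ]
    exact (pow_eq_one_iff.1 h3).resolve_right two_ne_zero
  rcases sq_eq_sq_iff_eq_or_eq_neg.1 h1 with h3 | h3
  · exact h3
  · exfalso
    have h4 := hσ.triv μ ((V.valuation_le_one_iff μ).1 hv.le)
    rw [V.mem_nonunits_iff, h3] at h4
    have h5 : -μ - μ = -(2 * μ) := by ring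
    rw [h5, Valuation.map_neg, map_mul, h2, hv, one_mul] at h4
    exact absurd h4 (lt_irrefl _)

theorem b6_split (s : Sect k K) (σ : kb k K ≃ₐ[k] kb k K) (a : kb k K) :
    s.toHom σ (iotaM a) = iotaM (σ a) :=
  Subtype.ext (s.split σ a _)

/-- Put `e 0 = 0`, `e 1 = (r 2 - r 1) / (r 2 - r 0)`, `e 2 = (r 3 - r 1) / (r 3 - r 0)`,
`X = (S 1)²` (`= (x - r 1) / (x - r 0)`); `X - e 1 = κ₂ (S 2)²`, `X - e 2 = κ₃ (S 3)²` with
`κ₂ = (r 1 - r 0) / (r 2 - r 0)`, `κ₃ = (r 1 - r 0) / (r 3 - r 0)`, and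
`e 1 - e 2 = (r 0 - r 1) (r 3 - r 2) / ((r 2 - r 0) (r 3 - r 0))` up to sign: all units. Let
`μ₂² = κ₂`, `μ₃² = κ₃` in `k^alg`: fixed by the inertia group (square roots of units fixed by it:
`σ μ = ± μ`, `|σ μ - μ| < 1`, `|2 μ| = 1`). `α = S 1`, `β = μ₂ S 2`, `γ = μ₃ S 3`, `Y = α β γ`.
For all `σ` fixing the `r i`, `s σ` maps `S i` to `± S i` (`S i ^ 2` is fixed) and, if `σ` fixes
`κ₂`, `κ₃`, `μ_i` to `± μ_i`. So `s σ Y = ± Y` for `σ = φ^m`, and `s (φ^(2 m)) Y = Y`: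
`tower_contra` with `φ ^ (2 m)`, `q ^ (2 m)` (`frob_pow`). `x` is not in `k^alg`, so `S 1 ≠ 0`
(`hx`). -/
theorem elliptic_step [CharZero k] {A : ValuationSubring k} [IsDiscreteValuationRing A]
    {V : ValuationSubring (kb k K)} (h : Above A V) (h2 : V.valuation 2 = 1) (s : Sect k K)
    (x : K) (hx : Transcendental k x) (r : Fin 4 → kb k K) (hr : ∀ i, r i ∈ V)
    (hd : ∀ i j, i ≠ j → V.valuation (r i - r j) = 1)
    (hI : ∀ σ : kb k K ≃ₐ[k] kb k K, Iner V σ → ∀ i, σ (r i) = r i)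
    (S : Fin 4 → Mnr k K)
    (hS : ∀ i, (S i : Om K) ^ 2 * (algebraMap K (Om K) x - (r 0 : Om K)) =
      algebraMap K (Om K) x - (r i : Om K))
    (q : ℕ) (hq : Odd q) (hq2 : 2 ≤ q) (φ : kb k K ≃ₐ[k] kb k K) (hφ : Frob q V φ) (m : ℕ)
    (hm : 0 < m) (hφr : ∀ i, (φ ^ m) (r i) = r i)
    (τ : kb k K ≃ₐ[k] kb k K) (hτ : Iner V τ) (h1 : s.toHom τ (S 1) = S 1)
    (h2' : s.toHom τ (S 2) = -S 2) (h3 : s.toHom τ (S 3) = -S 3) : False := by
  have hcl : IsAlgClosed (kb k K) := kb_isAlgClosed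
  -- `x` is not algebraic
  have hxr : ∀ i, algebraMap K (Om K) x ≠ (r i : Om K) := by
    intro i hi
    apply hx
    have h4 : IsAlgebraic k (r i : Om K) := (mem_algebraicClosure_iff).1 (r i).2
    rw [← hi] at h4
    exact (isAlgebraic_algebraMap_iff (algebraMap K (Om K)).injective).1 h4
  set ι : kb k K →+* Mnr k K := iotaM with hι
  set xM : Mnr k K := algebraMap K (Mnr k K) x with hxM
  have hS' : ∀ i, S i ^ 2 * (xM - ι (r 0)) = xM - ι (r i) := by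
    intro i
    apply Subtype.ext
    exact hS i
  have hD : ∀ i, xM - ι (r i) ≠ 0 := by
    intro i hi
    apply hxr i
    have h4 := congrArg (Subtype.val) (sub_eq_zero.1 hi)
    exact h4
  have hr0 : ∀ i j, i ≠ j → r i - r j ≠ 0 := by
    intro i j hij h4
    have h5 := hd i j hij
    rw [h4, map_zero] at h5
    exact zero_ne_one h5
  have hS0 : ∀ i, S i ≠ 0 := by
    intro i hi
    have h4 := hS' i
    rw [hi] at h4
    apply hD i
    rw [← h4]
    ring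
  -- the elements of the field of constants
  set e : Fin 3 → kb k K := ![0, (r 2 - r 1) / (r 2 - r 0), (r 3 - r 1) / (r 3 - r 0)] with hedef
  have he0 : e 0 = 0 := rfl
  have he1 : e 1 = (r 2 - r 1) / (r 2 - r 0) := rfl
  have he2 : e 2 = (r 3 - r 1) / (r 3 - r 0) := rfl
  have hv : ∀ i j i' j', i ≠ j → i' ≠ j' → V.valuation ((r i - r j) / (r i' - r j')) = 1 := by
    intro i j i' j' hij hij'
    rw [map_div₀, hd i j hij, hd i' j' hij', div_one]
  have hvM : ∀ z, V.valuation z = 1 → z ∈ V := fun z hz => (V.valuation_le_one_iff z).1 hz.le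
  have hr20 := hr0 2 0 (by decide)
  have hr30 := hr0 3 0 (by decide)
  have he12 : V.valuation (e 1 - e 2) = 1 := by
    have h4 : e 1 - e 2 = (r 1 - r 0) / (r 2 - r 0) * ((r 2 - r 3) / (r 3 - r 0)) := by
      rw [he1, he2]
      field_simp
      ring
    rw [h4, map_mul, hv 1 0 2 0 (by decide) (by decide), hv 2 3 3 0 (by decide) (by decide),
      one_mul]
  have he01 : V.valuation (e 0 - e 1) = 1 := by
    rw [he0, he1, zero_sub, Valuation.map_neg, hv 2 1 2 0 (by decide) (by decide)]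
  have he02 : V.valuation (e 0 - e 2) = 1 := by
    rw [he0, he2, zero_sub, Valuation.map_neg, hv 3 1 3 0 (by decide) (by decide)]
  have hV : GoodRed V e := by
    refine ⟨h2, fun i => ?_, fun i j hij => ?_⟩
    · fin_cases i
      · exact V.zero_mem
      · exact hvM _ (hv 2 1 2 0 (by decide) (by decide))
      · exact hvM _ (hv 3 1 3 0 (by decide) (by decide))
    · fin_cases i <;> fin_cases j
      · exact absurd rfl hij
      · exact he01
      · exact he02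
      · rw [← Valuation.map_neg, neg_sub]; exact he01
      · exact absurd rfl hij
      · exact he12
      · rw [← Valuation.map_neg, neg_sub]; exact he02
      · rw [← Valuation.map_neg, neg_sub]; exact he12
      · exact absurd rfl hij
  have hc : Cv e := by
    refine ⟨?_, fun i j hij => ?_⟩
    · intro h4
      rw [h4, map_zero] at h2
      exact zero_ne_one h2
    · by_contra hne
      have h4 := hV.diff i j hne
      rw [hij, sub_self, map_zero] at h4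
      exact zero_ne_one h4
  obtain ⟨μ₂, hμ₂⟩ := IsAlgClosed.exists_pow_nat_eq ((r 1 - r 0) / (r 2 - r 0)) two_pos
  obtain ⟨μ₃, hμ₃⟩ := IsAlgClosed.exists_pow_nat_eq ((r 1 - r 0) / (r 3 - r 0)) two_pos
  -- the sections fixing the `r i`
  have hfe : ∀ σ : kb k K ≃ₐ[k] kb k K, (∀ i, σ (r i) = r i) → ∀ i, σ (e i) = e i := by
    intro σ hσ i
    fin_cases i
    · exact map_zero _
    · change σ ((r 2 - r 1) / (r 2 - r 0)) = (r 2 - r 1) / (r 2 - r 0)
      simp only [map_div₀, map_sub, hσ]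
    · change σ ((r 3 - r 1) / (r 3 - r 0)) = (r 3 - r 1) / (r 3 - r 0)
      simp only [map_div₀, map_sub, hσ]
  have hXf : ∀ σ : kb k K ≃ₐ[k] kb k K, (∀ i, σ (r i) = r i) → ∀ i,
      s.toHom σ (S i ^ 2) = S i ^ 2 := by
    intro σ hσ i
    refine mul_right_cancel₀ (hD 0) ?_
    have h4 := congrArg (s.toHom σ) (hS' i)
    rw [map_mul, map_sub, map_sub, hι, b6_split, b6_split, hσ, hσ, hxM, AlgEquiv.commutes] at h4
    rw [hS' i]
    exact h4
  have hβ : (ι μ₂ * S 2) ^ 2 = S 1 ^ 2 - eM e 1 := by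
    refine b6_alg xM (ι (r 0)) (ι (r 1)) (ι (r 2)) (S 1) (S 2) (ι μ₂)
      (ι ((r 1 - r 0) / (r 2 - r 0))) (eM e 1) (hD 0) ?_ (hS' 1) (hS' 2) ?_ ?_ ?_
    · rw [← map_sub]
      exact (_root_.map_ne_zero _).2 hr20
    · rw [← map_sub, ← map_mul, div_mul_cancel₀ _ hr20, map_sub]
    · have h4 : eM e 1 = ι (e 1) := rfl
      rw [h4, ← map_sub, ← map_mul, he1, div_mul_cancel₀ _ hr20, map_sub]
    · rw [← map_pow, hμ₂]
  have hγ : (ι μ₃ * S 3) ^ 2 = S 1 ^ 2 - eM e 2 := by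
    refine b6_alg xM (ι (r 0)) (ι (r 1)) (ι (r 3)) (S 1) (S 3) (ι μ₃)
      (ι ((r 1 - r 0) / (r 3 - r 0))) (eM e 2) (hD 0) ?_ (hS' 1) (hS' 3) ?_ ?_ ?_
    · rw [← map_sub]
      exact (_root_.map_ne_zero _).2 hr30
    · rw [← map_sub, ← map_mul, div_mul_cancel₀ _ hr30, map_sub]
    · have h4 : eM e 2 = ι (e 2) := rfl
      rw [h4, ← map_sub, ← map_mul, he2, div_mul_cancel₀ _ hr30, map_sub]
    · rw [← map_pow, hμ₃]
  have hα : (S 1) ^ 2 = S 1 ^ 2 - eM e 0 := by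
    have h4 : eM e 0 = 0 := Subtype.ext rfl
    rw [h4, sub_zero]
  set Y : Mnr k K := S 1 * (ι μ₂ * S 2) * (ι μ₃ * S 3) with hYdef
  have hXY : OnC (eM e) (S 1 ^ 2) Y := by
    rw [OnC, hYdef, mul_pow, mul_pow, hβ, hγ]
    nth_rewrite 1 [hα]
    rfl
  have hYf : ∀ σ : kb k K ≃ₐ[k] kb k K, (∀ i, σ (r i) = r i) →
      s.toHom σ Y = Y ∨ s.toHom σ Y = -Y := by
    intro σ hσ
    apply sq_eq_sq_iff_eq_or_eq_neg.1
    have hei : ∀ i, s.toHom σ (eM e i) = eM e i := by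
      intro i
      have h4 : eM e i = ι (e i) := rfl
      rw [h4, hι, b6_split, hfe σ hσ]
    rw [← map_pow, hXY, map_mul, map_mul, map_sub, map_sub, map_sub, hXf σ hσ, hei, hei, hei]
  -- the Frobenius element
  have hψ : ∀ z, s.toHom (φ ^ (2 * m)) z = s.toHom (φ ^ m) (s.toHom (φ ^ m) z) := by
    intro z
    rw [two_mul, pow_add, map_mul, AlgEquiv.mul_apply]
  have hψr : ∀ i, (φ ^ (2 * m)) (r i) = r i := by
    intro i
    rw [two_mul, pow_add, AlgEquiv.mul_apply, hφr, hφr]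
  have hψY : s.toHom (φ ^ (2 * m)) Y = Y := by
    rw [hψ]
    rcases hYf (φ ^ m) hφr with h4 | h4
    · rw [h4, h4]
    · rw [h4, map_neg, h4, neg_neg]
  refine tower_contra h h2 s hc hV (fun σ hσ => hfe σ (hI σ hσ)) (S 1 ^ 2) Y (S 1)
    (ι μ₂ * S 2) (ι μ₃ * S 3) hXY hα hβ hγ rfl (hS0 1)
    (fun σ hσ => ⟨hXf σ (hI σ hσ) 1, hYf σ (hI σ hσ)⟩) (q ^ (2 * m)) hq.pow ?_ (φ ^ (2 * m))
    (frob_pow hφ (2 * m)) (hfe _ hψr) (hXf _ hψr 1) hψY τ hτ h1 ?_ ?_
  · calc 2 ≤ q := hq2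
      _ = q ^ 1 := (pow_one q).symm
      _ ≤ q ^ (2 * m) := Nat.pow_le_pow_right (by omega) (by omega)
  · rw [map_mul, h2', hι, b6_split, b6_mu h2 μ₂ _ hμ₂ (hv 1 0 2 0 (by decide) (by decide)) τ hτ
      (by simp only [map_div₀, map_sub, hI τ hτ])]
    ring
  · rw [map_mul, h3, hι, b6_split, b6_mu h2 μ₃ _ hμ₃ (hv 1 0 3 0 (by decide) (by decide)) τ hτ
      (by simp only [map_div₀, map_sub, hI τ hτ])]
    ring

end SC2
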