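import Mathlib

set_option autoImplicit false

namespace SC2

/-! ## [SC2-C1] the combinatorial lemma (file C1.lean) -/

/-- Let `F = {i | ε i = false}`. If `F` has one element `j`: the set `T = {i | ε i = true}` has at least
three elements, by `hb` `ε (π i)` (`i ∈ T`) is constant, `π` is injective and `F` has only one element,
so it is `true`, `π T = T` and `π j = j`. Otherwise `F` has at least three elements and by `hc` `T = {o}`;
for `i ≠ o` `ε (π i) ≠ ε (π o)`; if `ε (π o) = false` then all these `ε (π i)` are `true`, but `T` has one
element and there are at least three `i ≠ o`; so `ε (π o) = true` and `π o = o`. -/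
theorem comb {ι : Type} [Fintype ι] [DecidableEq ι] (hcard : 4 ≤ Fintype.card ι)
    (heven : Even (Fintype.card ι)) (o : ι) (ε : ι → Bool) (ho : ε o = true)
    (hodd : Odd (Finset.univ.filter (fun i => ε i = false)).card) (π : ι → ι)
    (hπ : Function.Bijective π) (hb : ∀ i, ε (π i) = ε (π o) ↔ ε i = true)
    (hc : ¬ ∃ a b c, a ≠ o ∧ b ≠ c ∧ ε a = true ∧ ε b = false ∧ ε c = false) :
    ∃ j, π j = j := by
  by_cases h1 : (Finset.univ.filter (fun i => ε i = false)).card = 1
  · obtain ⟨j, hj⟩ := Finset.card_eq_one.1 h1
    have hF : ∀ i, ε i = false ↔ i = j := by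
      intro i
      have : i ∈ Finset.univ.filter (fun i => ε i = false) ↔ i ∈ ({j} : Finset ι) := by rw [hj]
      simpa using this
    have hT : ε (π o) = true := by
      by_contra hcon
      rw [Bool.not_eq_true] at hcon
      have h2 : ∀ i, i ≠ j → π i = j := by
        intro i hi
        have h3 : ε i = true := by
          rw [← Bool.not_eq_false]
          exact fun h => hi ((hF i).1 h)
        have h4 := (hb i).2 h3
        rw [hcon] at h4
        exact (hF _).1 h4
      have h5 : (Finset.univ.erase j).card ≤ 1 := by
        rw [Finset.card_le_one]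
        intro a ha b hb'
        exact hπ.1 ((h2 a (Finset.ne_of_mem_erase ha)).trans
          (h2 b (Finset.ne_of_mem_erase hb')).symm)
      rw [Finset.card_erase_of_mem (Finset.mem_univ _), Finset.card_univ] at h5
      omega
    refine ⟨j, (hF _).1 ?_⟩
    rw [← Bool.not_eq_true]
    intro h3
    have h4 := (hb j).1 (h3.trans hT.symm)
    rw [(hF j).2 rfl] at h4
    exact absurd h4 (by decide)
  · have h2 : 1 < (Finset.univ.filter (fun i => ε i = false)).card := by
      have := hodd.pos
      omega
    obtain ⟨b, hbF, c, hcF, hbc⟩ := Finset.one_lt_card.1 h2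
    rw [Finset.mem_filter] at hbF hcF
    have hT : ∀ a, ε a = true → a = o := by
      intro a ha
      by_contra hne
      exact hc ⟨a, b, c, hne, hbc, ha, hbF.2, hcF.2⟩
    by_cases h3 : ε (π o) = true
    · exact ⟨o, hT _ h3⟩
    · exfalso
      have h5 : ∀ i, ε i = false → π i = o := by
        intro i hi
        apply hT
        by_contra h6
        have h7 : ε (π i) = ε (π o) := by
          rw [Bool.not_eq_true] at h3 h6
          rw [h3, h6]
        have h8 := (hb i).1 h7
        rw [hi] at h8
        exact absurd h8 (by decide)
      exact hbc (hπ.1 ((h5 b hbF.2).trans (h5 c hcF.2).symm))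

end SC2
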