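import Pool.Agent.MP_c1dca2_ag.SEC.M3
import Pool.Agent.MP_c1dca2_ag.SC2.B6
import Pool.Agent.MP_c1dca2_ag.SC2.A5
import Pool.Agent.MP_c1dca2_ag.SC2.C1
import Pool.Agent.MP_c1dca2_ag.SC2.C2

set_option autoImplicit false

open Polynomial IsLocalRing SEC

namespace SC2

variable {k K : Type} [Field k] [Field K] [Algebra k K]

/-! ## [SC2-B7] signs of the square roots (file B7.lean; uses SEC/M3, A5, B3) -/

theorem b7_sub_ne (x : K) (hx : Transcendental k x) (a : kb k K) :
    algebraMap K (Om K) x - (a : Om K) ≠ 0 := by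
  have h := aeval_ne_zero x hx (X - C a) (X_sub_C_ne_zero a)
  rw [map_sub, aeval_X, aeval_C] at h
  exact h

theorem b7_mem (x : K) (a : kb k K) : algebraMap K (Om K) x - (a : Om K) ∈ Mnr k K :=
  sub_mem ((Mnr k K).algebraMap_mem x) (kb_le _ a.2)

/-- `(x - r i) (x - r o)` has a square root in `M` (`sqrt_even` of SEC/M3.lean with
`H = (X - C (r i)) * (X - C (r o))`, a divisor of `f`; for `i = o` take `S = 1`); divide it by
`x - r o ∈ M`. -/
theorem exists_S [CharZero k] (f : k[X]) (hf : f.Separable) (c : k) (hc : c ≠ 0) (x y : K)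
    (hx : Transcendental k x) (hxy : y ^ 2 = algebraMap k K c * aeval x f) {ι : Type}
    [Fintype ι] [DecidableEq ι] (l : k) (r : ι → kb k K)
    (hfr : f.map (algebraMap k (kb k K)) =
      C (algebraMap k (kb k K) l) * ∏ i, (X - C (r i))) (o : ι) :
    ∃ S : ι → Mnr k K, S o = 1 ∧ ∀ i, S i ≠ 0 ∧
      (S i : Om K) ^ 2 * (algebraMap K (Om K) x - (r o : Om K)) =
        algebraMap K (Om K) x - (r i : Om K) := by
  have key : ∀ i, ∃ T : Mnr k K, (i = o → T = 1) ∧ T ≠ 0 ∧
      (T : Om K) ^ 2 * (algebraMap K (Om K) x - (r o : Om K)) =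
        algebraMap K (Om K) x - (r i : Om K) := by
    intro i
    by_cases hio : i = o
    · refine ⟨1, fun _ => rfl, one_ne_zero, ?_⟩
      rw [hio]
      simp
    · have h1 : ((X - C (r i)) * (X - C (r o))) ∣ f.map (algebraMap k (kb k K)) := by
        rw [hfr, ← Finset.prod_pair (f := fun j => X - C (r j)) hio]
        exact Dvd.dvd.mul_left (Finset.prod_dvd_prod_of_subset _ _ _ (Finset.subset_univ _)) _
      have h2 : Even ((X - C (r i)) * (X - C (r o))).natDegree := by
        rw [natDegree_mul (X_sub_C_ne_zero _) (X_sub_C_ne_zero _), natDegree_X_sub_C,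
          natDegree_X_sub_C]
        exact ⟨1, rfl⟩
      obtain ⟨z, hz⟩ := IsAlgClosed.exists_pow_nat_eq
        (aeval (algebraMap K (Om K) x) ((X - C (r i)) * (X - C (r o)))) (n := 2) (by norm_num)
      have hzm := sqrt_even f hf c hc x y hxy _ h1 h2 z hz
      rw [map_mul, map_sub, map_sub, aeval_X, aeval_C, aeval_C] at hz
      have hz' : z ^ 2 = (algebraMap K (Om K) x - (r i : Om K)) *
        (algebraMap K (Om K) x - (r o : Om K)) := hz
      have h3 := b7_sub_ne x hx (r i)
      have h4 := b7_sub_ne x hx (r o)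
      have hz0 : z ≠ 0 := by
        intro h0
        rw [h0] at hz'
        exact mul_ne_zero h3 h4 (by rw [← hz']; ring)
      refine ⟨⟨z / (algebraMap K (Om K) x - (r o : Om K)), div_mem hzm (b7_mem x (r o))⟩,
        fun h => absurd h hio, ?_, ?_⟩
      · intro h0
        exact div_ne_zero hz0 h4 (congrArg Subtype.val h0)
      · change (z / (algebraMap K (Om K) x - (r o : Om K))) ^ 2 * _ = _
        rw [div_pow, hz']
        field_simp
  choose S hS using key
  exact ⟨S, (hS o).1 rfl, fun i => ⟨(hS i).2.1, (hS i).2.2⟩⟩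

theorem b7_fix {V : ValuationSubring (kb k K)} (h2 : V.valuation 2 = 1) (l : k)
    (hl : V.valuation (algebraMap k (kb k K) l) = 1) (τ : kb k K ≃ₐ[k] kb k K) (hτ : Iner V τ)
    (t : kb k K) (ht : t ^ 2 = algebraMap k (kb k K) l) : τ t = t := by
  have h1 : (τ t) ^ 2 = t ^ 2 := by rw [← map_pow, ht, τ.commutes]
  rcases sq_eq_sq_iff_eq_or_eq_neg.1 h1 with h3 | h3
  · exact h3
  exfalso
  have hv : V.valuation t = 1 := by
    have h4 : V.valuation t ^ 2 = 1 ^ 2 := by rw [← map_pow, ht, hl, one_pow]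
    exact (pow_left_inj₀ zero_le zero_le two_ne_zero).1 h4
  have h4 := hτ.triv t ((V.valuation_le_one_iff t).1 hv.le)
  rw [h3, V.mem_nonunits_iff] at h4
  have h5 : -t - t = -(2 * t) := by ring
  rw [h5, Valuation.map_neg, map_mul, h2, hv, mul_one] at h4
  exact lt_irrefl _ h4

/-- `y² = c l (x - r o)^N ∏ (S i)²`, `N` even: `y = ± z λ (x - r o)^(N/2) ∏ S i` with `z² = c`, `λ² = l` in
`k^alg`; `λ` is fixed by `τ` (unit), `z` is moved, `s τ y = y`: so `∏ (s τ S i / S i) = - 1`. -/
theorem parity [CharZero k] {V : ValuationSubring (kb k K)} (h2 : V.valuation 2 = 1)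
    (f : k[X]) (c : k) (hc : c ≠ 0) (x y : K)
    (hx : Transcendental k x) (hxy : y ^ 2 = algebraMap k K c * aeval x f) {ι : Type}
    [Fintype ι] [DecidableEq ι] (heven : Even (Fintype.card ι)) (l : k)
    (hl : V.valuation (algebraMap k (kb k K) l) = 1) (r : ι → kb k K)
    (hfr : f.map (algebraMap k (kb k K)) =
      C (algebraMap k (kb k K) l) * ∏ i, (X - C (r i))) (o : ι)
    (S : ι → Mnr k K) (hS0 : ∀ i, S i ≠ 0)
    (hS : ∀ i, (S i : Om K) ^ 2 * (algebraMap K (Om K) x - (r o : Om K)) =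
      algebraMap K (Om K) x - (r i : Om K)) (s : Sect k K)
    (τ : kb k K ≃ₐ[k] kb k K) (hτ : Iner V τ) (hτr : ∀ i, τ (r i) = r i) (z : kb k K)
    (hz : z ^ 2 = algebraMap k (kb k K) c) (hτz : τ z = -z) (ε : ι → Bool)
    (hε : ∀ i, s.toHom τ (S i) = if ε i then S i else -S i) :
    Odd (Finset.univ.filter (fun i => ε i = false)).card := by
  have hac : IsAlgClosed (kb k K) :=
    (algebraicClosure.isAlgClosure k (Om K)).isAlgClosed
  obtain ⟨t, ht⟩ := IsAlgClosed.exists_pow_nat_eq (algebraMap k (kb k K) l) (n := 2) (by norm_num)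
  have hτt := b7_fix h2 l hl τ hτ t ht
  obtain ⟨m, hm⟩ := heven
  have hl0 : algebraMap k (kb k K) l ≠ 0 := by
    intro h0
    rw [h0, map_zero] at hl
    exact zero_ne_one hl
  have ht0 : t ≠ 0 := by
    intro h0
    rw [h0] at ht
    exact hl0 (by rw [← ht]; ring)
  have hz0 : z ≠ 0 := by
    intro h0
    rw [h0] at hz
    exact hc ((map_eq_zero (algebraMap k (kb k K))).1 (by rw [← hz]; ring))
  let zM : Mnr k K := ⟨(z : Om K), kb_le _ z.2⟩
  let tM : Mnr k K := ⟨(t : Om K), kb_le _ t.2⟩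
  let uM : Mnr k K := algebraMap K (Mnr k K) x - ⟨(r o : Om K), kb_le _ (r o).2⟩
  have hzM0 : zM ≠ 0 := by
    intro h
    apply hz0
    apply Subtype.ext
    exact congrArg (fun w : Mnr k K => (w : Om K)) h
  have htM0 : tM ≠ 0 := by
    intro h
    apply ht0
    apply Subtype.ext
    exact congrArg (fun w : Mnr k K => (w : Om K)) h
  have huM0 : uM ≠ 0 := fun h => b7_sub_ne x hx (r o) (congrArg Subtype.val h)
  let P : Mnr k K := zM * tM * uM ^ m * ∏ i, S i
  have hP0 : P ≠ 0 := mul_ne_zero (mul_ne_zero (mul_ne_zero hzM0 htM0) (pow_ne_zero _ huM0))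
    (Finset.prod_ne_zero_iff.2 fun i _ => hS0 i)
  have hy : (algebraMap K (Om K) y) ^ 2 = algebraMap k (Om K) c * (algebraMap k (Om K) l *
      ∏ i, (algebraMap K (Om K) x - (r i : Om K))) := by
    rw [← map_pow, hxy, map_mul, ← IsScalarTower.algebraMap_apply, ← aeval_algebraMap_apply,
      ← aeval_map_algebraMap (kb k K), hfr, map_mul, aeval_C, map_prod,
      ← IsScalarTower.algebraMap_apply]
    congr 2
    refine Finset.prod_congr rfl fun i _ => ?_
    rw [map_sub, aeval_X, aeval_C]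
    rfl
  have hPc : (P : Om K) = (z : Om K) * (t : Om K) *
      (algebraMap K (Om K) x - (r o : Om K)) ^ m * ∏ i, (S i : Om K) := by
    have h1 := map_prod (Mnr k K).val S Finset.univ
    have h3 : (P : Om K) = (Mnr k K).val P := rfl
    rw [h3]
    change (Mnr k K).val (zM * tM * uM ^ m * ∏ i, S i) = _
    rw [map_mul, h1, map_mul, map_mul, map_pow]
    rfl
  have hz' : (z : Om K) ^ 2 = algebraMap k (Om K) c := congrArg Subtype.val hz
  have ht' : (t : Om K) ^ 2 = algebraMap k (Om K) l := congrArg Subtype.val ht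
  have hsq : P ^ 2 = (algebraMap K (Mnr k K) y) ^ 2 := by
    apply Subtype.ext
    change (P : Om K) ^ 2 = (algebraMap K (Om K) y) ^ 2
    rw [hy, hPc, ← hz', ← ht']
    have h1 : ∏ i, (algebraMap K (Om K) x - (r i : Om K)) =
        (∏ i, (S i : Om K)) ^ 2 * (algebraMap K (Om K) x - (r o : Om K)) ^ (m + m) := by
      rw [← hm, ← Finset.card_univ, ← Finset.prod_const, ← Finset.prod_pow,
        ← Finset.prod_mul_distrib]
      exact Finset.prod_congr rfl fun i _ => (hS i).symm
    rw [h1]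
    ring
  have hsP : s.toHom τ P = P := by
    have h1 : s.toHom τ (algebraMap K (Mnr k K) y) = algebraMap K (Mnr k K) y :=
      AlgEquiv.commutes _ _
    rcases sq_eq_sq_iff_eq_or_eq_neg.1 hsq with h3 | h3
    · rw [h3, h1]
    · rw [h3, map_neg, h1]
  have hsz : s.toHom τ zM = -zM := by
    apply Subtype.ext
    rw [s.split τ z (kb_le _ z.2), hτz]
    rfl
  have hst : s.toHom τ tM = tM := by
    apply Subtype.ext
    rw [s.split τ t (kb_le _ t.2), hτt]
  have hsu : s.toHom τ uM = uM := by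
    have h1 : s.toHom τ ⟨(r o : Om K), kb_le _ (r o).2⟩ = ⟨(r o : Om K), kb_le _ (r o).2⟩ := by
      apply Subtype.ext
      rw [s.split τ (r o) (kb_le _ (r o).2), hτr]
    change s.toHom τ (algebraMap K (Mnr k K) x - ⟨(r o : Om K), kb_le _ (r o).2⟩) = _
    rw [map_sub, h1, AlgEquiv.commutes]
  have hsS : s.toHom τ (∏ i, S i) =
      (-1) ^ (Finset.univ.filter (fun i => ε i = false)).card * ∏ i, S i := by
    rw [map_prod]
    have h1 : ∀ i, s.toHom τ (S i) = (if ε i = false then (-1 : Mnr k K) else 1) * S i := by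
      intro i
      rw [hε i]
      cases ε i <;> simp
    rw [Finset.prod_congr rfl fun i _ => h1 i, Finset.prod_mul_distrib, Finset.prod_ite,
      Finset.prod_const, Finset.prod_const_one, mul_one]
  by_contra hodd
  rw [Nat.not_odd_iff_even] at hodd
  rw [hodd.neg_one_pow, one_mul] at hsS
  have h1 : s.toHom τ P = -P := by
    change s.toHom τ (zM * tM * uM ^ m * ∏ i, S i) = -(zM * tM * uM ^ m * ∏ i, S i)
    rw [map_mul, map_mul, map_mul, map_pow, hsz, hst, hsu, hsS]
    ring
  rw [hsP] at h1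
  have h3 : (2 : Mnr k K) * P = 0 := by linear_combination h1
  have : CharZero K := charZero_of_injective_algebraMap (algebraMap k K).injective
  have : CharZero (Mnr k K) := charZero_of_injective_algebraMap (algebraMap K (Mnr k K)).injective
  exact (mul_ne_zero two_ne_zero hP0) h3

end SC2
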