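import Pool.Agent.MP_c1dca2_ag.SC2.B7

set_option autoImplicit false

open Polynomial IsLocalRing SEC

namespace SC2

variable {k K : Type} [Field k] [Field K] [Algebra k K]

/-! ## [SC2-B8] Frobenius and the signs (file B8.lean; uses B3) -/

/-- `φ (r i) = r (π i)`. `s φ (S i)` and `S (π i) / S (π o)` have the same square
`(x - r (π i)) / (x - r (π o))` (`s φ` fixes `x` and maps `r i` to `φ (r i)`), so
`s φ (S i) = ± S (π i) / S (π o)`. Hence `s (φ τ φ⁻¹)` multiplies `S (π i) / S (π o)` by the sign of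
`s τ` on `S i`. By `sign_frob` (applied to `S (π i)`, `S (π o)`) `s (φ τ φ⁻¹)` and `s τ` act on `S (π i)`
and on `S (π o)` by the same signs. -/
theorem perm_sign [CharZero k] {A : ValuationSubring k} [IsDiscreteValuationRing A]
    {V : ValuationSubring (kb k K)} (h : Above A V) (h2 : V.valuation 2 = 1) (s : Sect k K)
    (x : K) (hx : Transcendental k x) {ι : Type} (r : ι → kb k K) (o : ι)
    (hI : ∀ σ : kb k K ≃ₐ[k] kb k K, Iner V σ → ∀ i, σ (r i) = r i)
    (S : ι → Mnr k K) (hS0 : ∀ i, S i ≠ 0)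
    (hS : ∀ i, (S i : Om K) ^ 2 * (algebraMap K (Om K) x - (r o : Om K)) =
      algebraMap K (Om K) x - (r i : Om K))
    (q : ℕ) (hq : Odd q) (φ : kb k K ≃ₐ[k] kb k K) (hφ : Frob q V φ) (π : ι → ι)
    (hπ : ∀ i, φ (r i) = r (π i)) (τ : kb k K ≃ₐ[k] kb k K) (hτ : Iner V τ) (ε : ι → Bool)
    (hε : ∀ i, s.toHom τ (S i) = if ε i then S i else -S i) (i : ι) :
    ε (π i) = ε (π o) ↔ ε i = true := by
  have hch : CharZero (Mnr k K) := by
    have : CharZero K := charZero_of_injective_algebraMap (algebraMap k K).injective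
    exact charZero_of_injective_algebraMap (algebraMap K (Mnr k K)).injective
  -- elements of `M`
  let R : ι → Mnr k K := fun j => ⟨(r j : Om K), kb_le _ (r j).2⟩
  let X : Mnr k K := algebraMap K (Mnr k K) x
  have hXR : ∀ j, S j ^ 2 * (X - R o) = X - R j := fun j => Subtype.ext (hS j)
  have hXo : X - R o ≠ 0 := by
    intro h0
    apply hx
    have h1 : algebraMap K (Om K) x = (r o : Om K) := by
      have := congrArg Subtype.val (sub_eq_zero.1 h0)
      exact this
    have h3 : IsAlgebraic k (algebraMap K (Om K) x) := by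
      rw [h1]
      exact (mem_algebraicClosure_iff).1 (r o).2
    exact (isAlgebraic_algebraMap_iff (algebraMap K (Om K)).injective).1 h3
  have hRs : ∀ (σ : kb k K ≃ₐ[k] kb k K) (j j' : ι), σ (r j) = r j' → s.toHom σ (R j) = R j' := by
    intro σ j j' hj
    apply Subtype.ext
    have h1 := s.split σ (r j) (kb_le _ (r j).2)
    rw [hj] at h1
    exact h1
  have hXs : ∀ σ : kb k K ≃ₐ[k] kb k K, s.toHom σ X = X := fun σ => (s.toHom σ).commutes x
  -- inertia acts by signs
  have hsgn : ∀ j, ∀ σ, Iner V σ → s.toHom σ (S j) = S j ∨ s.toHom σ (S j) = -S j := by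
    intro j σ hσ
    have h1 := congrArg (s.toHom σ) (hXR j)
    rw [map_mul, map_pow, map_sub, map_sub, hXs, hRs σ o o (hI σ hσ o), hRs σ j j (hI σ hσ j),
      ← hXR j] at h1
    exact sq_eq_sq_iff_eq_or_eq_neg.1 (mul_right_cancel₀ hXo h1)
  -- the conjugate
  have hconj : Iner V (φ * τ * φ⁻¹) := hτ.conj hφ.stab
  have hΨ : ∀ j, s.toHom (φ * τ * φ⁻¹) (S j) = if ε j then S j else -S j := by
    intro j
    have h1 := sign_frob h h2 s (S j) (hS0 j) (hsgn j) q hq φ hφ τ hτ
    by_cases hj : ε j = true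
    · rw [if_pos hj]
      exact h1.2 (by rw [hε, if_pos hj])
    · rw [if_neg hj]
      rcases hsgn j _ hconj with h3 | h3
      · exfalso
        have h4 := h1.1 h3
        rw [hε, if_neg hj] at h4
        exact hS0 j (self_eq_neg.1 h4.symm)
      · exact h3
  -- the image under Frobenius
  have hW : s.toHom (φ * τ * φ⁻¹) (s.toHom φ (S i)) =
      if ε i then s.toHom φ (S i) else -s.toHom φ (S i) := by
    have h1 : s.toHom (φ * τ * φ⁻¹) (s.toHom φ (S i)) = s.toHom φ (s.toHom τ (S i)) := by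
      rw [← AlgEquiv.mul_apply, ← AlgEquiv.mul_apply, ← map_mul, ← map_mul,
        inv_mul_cancel_right]
    rw [h1, hε]
    split_ifs
    · rfl
    · rw [map_neg]
  have hsq : (s.toHom φ (S i) * S (π o)) ^ 2 = S (π i) ^ 2 := by
    have h1 := congrArg (s.toHom φ) (hXR i)
    rw [map_mul, map_pow, map_sub, map_sub, hXs, hRs φ o (π o) (hπ o), hRs φ i (π i) (hπ i),
      ← hXR (π i), ← hXR (π o)] at h1
    apply mul_right_cancel₀ hXo
    rw [← h1]
    ring
  have hW0 : s.toHom φ (S i) * S (π o) ≠ 0 := by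
    intro h0
    rw [h0] at hsq
    exact hS0 (π i) (pow_eq_zero_iff two_ne_zero |>.1 (by rw [← hsq]; ring))
  set W : Mnr k K := s.toHom φ (S i) with hWdef
  have hi := hΨ (π i)
  have ho := hΨ (π o)
  have key : (if ε (π i) then W * S (π o) else -(W * S (π o))) =
      (if ε i then W else -W) * (if ε (π o) then S (π o) else -S (π o)) := by
    rcases sq_eq_sq_iff_eq_or_eq_neg.1 hsq with h3 | h3
    · rw [← h3, map_mul, hW, ho] at hi
      exact hi.symm
    · have h4 : S (π i) = -(W * S (π o)) := by rw [h3, neg_neg]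
      rw [h4, map_neg, map_mul, hW, ho] at hi
      rw [neg_eq_iff_eq_neg] at hi
      rw [hi]
      split_ifs <;> ring
  have hne : ∀ a : Mnr k K, a ≠ 0 → a ≠ -a := fun a ha h0 => ha (self_eq_neg.1 h0)
  cases h3 : ε (π i) <;> cases h4 : ε (π o) <;> cases h5 : ε i <;>
    simp only [h3, h4, h5, if_true, Bool.false_eq_true, if_false] at key ⊢
  all_goals first
    | (simp; done)
    | exact absurd (by linear_combination key) (hne _ hW0)
    | exact absurd (by linear_combination -key) (hne _ hW0)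

end SC2
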