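import Mathlib

/-!
# [SC2] MP_c1dca2_ag: elliptic curves `y² = (x - e₀)(x - e₁)(x - e₂)`, basic group law
-/

set_option autoImplicit false

open WeierstrassCurve Polynomial

namespace SC2

section Curve

variable {F : Type} [Field F]

/-- The curve `y² = (x - e 0)(x - e 1)(x - e 2)`. -/
def EC (e : Fin 3 → F) : Affine F where
  a₁ := 0
  a₂ := -(e 0 + e 1 + e 2)
  a₃ := 0
  a₄ := e 0 * e 1 + e 1 * e 2 + e 2 * e 0
  a₆ := -(e 0 * e 1 * e 2)

/-- The characteristic is not `2` and the roots are distinct. -/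
structure Cv (e : Fin 3 → F) : Prop where
  two : (2 : F) ≠ 0
  inj : Function.Injective e

/-- The points of `y² = (x - e 0)(x - e 1)(x - e 2)`. -/
def Pt (e : Fin 3 → F) : Type := (EC e).Point

noncomputable instance (e : Fin 3 → F) : AddCommGroup (Pt e) :=
  letI := Classical.decEq F
  (inferInstance : AddCommGroup (EC e).Point)

/-- The equation of the curve. -/
def OnC (e : Fin 3 → F) (x y : F) : Prop := y ^ 2 = (x - e 0) * (x - e 1) * (x - e 2)

variable {e : Fin 3 → F}

theorem equation_iff (x y : F) : (EC e).Equation x y ↔ OnC e x y := by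
  rw [Affine.equation_iff, OnC]
  simp only [EC]
  constructor <;> intro h <;> linear_combination h

theorem nonsing (hc : Cv e) (x y : F) (h : OnC e x y) : (EC e).Nonsingular x y := by
  rw [Affine.nonsingular_iff, equation_iff]
  refine ⟨h, ?_⟩
  simp only [EC]
  by_contra hcon
  push Not at hcon
  obtain ⟨h1, h2⟩ := hcon
  have hy : y = 0 := by
    have h3 : 2 * y = 0 := by linear_combination h2
    exact (mul_eq_zero.1 h3).resolve_left hc.two
  subst hy
  rw [OnC] at h
  have h01 : e 0 - e 1 ≠ 0 := sub_ne_zero.2 (fun h => absurd (hc.inj h) (by decide))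
  have h12 : e 1 - e 2 ≠ 0 := sub_ne_zero.2 (fun h => absurd (hc.inj h) (by decide))
  have h20 : e 2 - e 0 ≠ 0 := sub_ne_zero.2 (fun h => absurd (hc.inj h) (by decide))
  have h4 : (x - e 0) * (x - e 1) * (x - e 2) = 0 := by rw [← h]; ring
  have h5 : (x - e 1) * (x - e 2) + (x - e 0) * (x - e 2) + (x - e 0) * (x - e 1) = 0 := by
    linear_combination -h1
  rcases mul_eq_zero.1 h4 with h4 | h4
  · rcases mul_eq_zero.1 h4 with h4 | h4
    · have hx : x = e 0 := sub_eq_zero.1 h4
      subst hx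
      have : (e 0 - e 1) * (e 2 - e 0) = 0 := by linear_combination -h5
      exact (mul_ne_zero h01 h20) this
    · have hx : x = e 1 := sub_eq_zero.1 h4
      subst hx
      have : (e 0 - e 1) * (e 1 - e 2) = 0 := by linear_combination -h5
      exact (mul_ne_zero h01 h12) this
  · have hx : x = e 2 := sub_eq_zero.1 h4
    subst hx
    have : (e 2 - e 0) * (e 1 - e 2) = 0 := by linear_combination -h5
    exact (mul_ne_zero h20 h12) this

/-- The affine point `(x, y)`. -/
def aff (hc : Cv e) (x y : F) (h : OnC e x y) : Pt e := Affine.Point.some x y (nonsing hc x y h)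

theorem pt_cases (hc : Cv e) (P : Pt e) : P = 0 ∨ ∃ x y h, P = aff hc x y h := by
  match P with
  | Affine.Point.zero => exact Or.inl rfl
  | Affine.Point.some x y h =>
    exact Or.inr ⟨x, y, (equation_iff x y).1 h.1, rfl⟩

theorem aff_ne_zero (hc : Cv e) (x y : F) (h : OnC e x y) : aff hc x y h ≠ 0 :=
  Affine.Point.some_ne_zero _

theorem aff_inj (hc : Cv e) (x y : F) (h : OnC e x y) (x' y' : F) (h' : OnC e x' y') :
    aff hc x y h = aff hc x' y' h' ↔ x = x' ∧ y = y' := by
  constructor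
  · intro h1
    injection h1 with h2 h3
    exact ⟨h2, h3⟩
  · rintro ⟨rfl, rfl⟩
    rfl

theorem onC_neg {x y : F} (h : OnC e x y) : OnC e x (-y) := by
  rw [OnC] at h ⊢
  rw [← h]
  ring

theorem neg_aff (hc : Cv e) (x y : F) (h : OnC e x y) :
    -(aff hc x y h) = aff hc x (-y) (onC_neg h) := by
  have h1 : (EC e).negY x y = -y := by simp [Affine.negY, EC]
  change Affine.Point.neg _ = _
  simp only [aff, Affine.Point.neg]
  congr 1

theorem add_aff_of_ne (hc : Cv e) (x₁ y₁ : F) (h₁ : OnC e x₁ y₁) (x₂ y₂ : F)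
    (h₂ : OnC e x₂ y₂) (hx : x₁ ≠ x₂) (l x₃ y₃ : F) (hl : l * (x₁ - x₂) = y₁ - y₂)
    (hx3 : x₃ = l ^ 2 + (e 0 + e 1 + e 2) - x₁ - x₂) (hy3 : y₃ = -(y₁ + l * (x₃ - x₁))) :
    ∃ h₃ : OnC e x₃ y₃, aff hc x₁ y₁ h₁ + aff hc x₂ y₂ h₂ = aff hc x₃ y₃ h₃ := by
  let _ := Classical.decEq F
  have hs : (EC e).slope x₁ x₂ y₁ y₂ = l := by
    rw [Affine.slope_of_X_ne hx, div_eq_iff (sub_ne_zero.2 hx), hl]
  have h4 : (EC e).addX x₁ x₂ l = x₃ := by
    rw [hx3]; simp only [Affine.addX, EC]; ring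
  have h5 : (EC e).addY x₁ x₂ y₁ l = y₃ := by
    rw [Affine.addY, Affine.negAddY, h4, hy3]; simp only [Affine.negY, EC]; ring
  have h6 := Affine.Point.add_of_X_ne (h₁ := nonsing hc x₁ y₁ h₁) (h₂ := nonsing hc x₂ y₂ h₂) hx
  have h7 := Affine.nonsingular_add (nonsing hc x₁ y₁ h₁) (nonsing hc x₂ y₂ h₂)
    (fun hxy => hx hxy.1)
  rw [hs, h4, h5] at h7
  refine ⟨(equation_iff x₃ y₃).1 h7.1, Eq.trans h6 ?_⟩
  change Affine.Point.some _ _ _ = Affine.Point.some x₃ y₃ _
  simp only [hs, h4, h5]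

theorem add_aff_self (hc : Cv e) (x y : F) (h : OnC e x y) (l x₃ y₃ : F) (hy : y ≠ 0)
    (hl : l * (2 * y) = (x - e 0) * (x - e 1) + (x - e 1) * (x - e 2) + (x - e 2) * (x - e 0))
    (hx3 : x₃ = l ^ 2 + (e 0 + e 1 + e 2) - x - x) (hy3 : y₃ = -(y + l * (x₃ - x))) :
    ∃ h₃ : OnC e x₃ y₃, aff hc x y h + aff hc x y h = aff hc x₃ y₃ h₃ := by
  let _ := Classical.decEq F
  have hn : y ≠ (EC e).negY x y := by
    intro h'
    have h1 : (EC e).negY x y = -y := by simp [Affine.negY, EC]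
    rw [h1] at h'
    have : 2 * y = 0 := by linear_combination h'
    exact (mul_ne_zero hc.two hy) this
  have h2y : 2 * y ≠ 0 := mul_ne_zero hc.two hy
  have hs : (EC e).slope x x y y = l := by
    rw [Affine.slope_of_Y_ne rfl hn, div_eq_iff (by
      simp only [Affine.negY, EC]
      intro h'
      apply h2y
      linear_combination h')]
    simp only [Affine.negY, EC]
    linear_combination -hl
  have h4 : (EC e).addX x x l = x₃ := by
    rw [hx3]; simp only [Affine.addX, EC]; ring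
  have h5 : (EC e).addY x x y l = y₃ := by
    rw [Affine.addY, Affine.negAddY, h4, hy3]; simp only [Affine.negY, EC]; ring
  have h6 := Affine.Point.add_self_of_Y_ne (h₁ := nonsing hc x y h) hn
  have h7 := Affine.nonsingular_add (nonsing hc x y h) (nonsing hc x y h) (fun hxy => hn hxy.2)
  rw [hs, h4, h5] at h7
  refine ⟨(equation_iff x₃ y₃).1 h7.1, Eq.trans h6 ?_⟩
  change Affine.Point.some _ _ _ = Affine.Point.some x₃ y₃ _
  simp only [hs, h4, h5]

theorem aff_two_zero (hc : Cv e) (x y : F) (h : OnC e x y) :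
    aff hc x y h + aff hc x y h = 0 ↔ y = 0 := by
  constructor
  · intro h1
    have h2 : aff hc x y h = -aff hc x y h := eq_neg_of_add_eq_zero_left h1
    rw [neg_aff, aff_inj] at h2
    have : 2 * y = 0 := by linear_combination h2.2
    exact (mul_eq_zero.1 this).resolve_left hc.two
  · rintro rfl
    have h2 : aff hc x 0 h = -aff hc x 0 h := by
      rw [neg_aff, aff_inj]; simp
    nth_rewrite 2 [h2]
    exact add_neg_cancel _

end Curve

/-- The points whose order is a power of `2`. -/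
def T2 (G : Type) [AddCommGroup G] : AddSubgroup G where
  carrier := {P | ∃ n : ℕ, (2 ^ n) • P = 0}
  zero_mem' := ⟨0, by simp⟩
  add_mem' := by
    rintro a b ⟨m, hm⟩ ⟨n, hn⟩
    refine ⟨m + n, ?_⟩
    rw [smul_add, pow_add, mul_comm, mul_smul, hm, smul_zero, mul_comm, mul_smul, hn, smul_zero,
      add_zero]
  neg_mem' := by
    rintro a ⟨m, hm⟩
    exact ⟨m, by rw [smul_neg, hm, neg_zero]⟩

/-- The homogeneous `x`-coordinate of a point. -/
noncomputable def xco {F : Type} [Field F] {e : Fin 3 → F} (P : Pt e) : Fin 2 → F :=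
  Affine.Point.xRep (show (EC e).Point from P)

theorem xco_zero {F : Type} [Field F] {e : Fin 3 → F} : xco (0 : Pt e) = ![1, 0] :=
  Affine.Point.xRep_zero

theorem xco_aff {F : Type} [Field F] {e : Fin 3 → F} (hc : Cv e) (x y : F) (h : OnC e x y) :
    xco (aff hc x y h) = ![x, 1] :=
  Affine.Point.xRep_some _

/-- The map `P¹ × P¹ → P²`. -/
def sym2 {F : Type} [Field F] (u v : Fin 2 → F) : Fin 3 → F :=
  ![u 0 * v 0, u 0 * v 1 + u 1 * v 0, u 1 * v 1]

/-- The map `P² → P²` which gives `x(P+Q) x(P-Q)`, `x(P+Q) + x(P-Q)` in terms of `x(P) x(Q)` and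
`x(P) + x(Q)`. -/
noncomputable def addSub {F : Type} [Field F] (e : Fin 3 → F) (v : Fin 3 → F) : Fin 3 → F :=
  fun i => MvPolynomial.eval v ((EC e).addSubMap i)

end SC2
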