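import Pool.Agent.MP_c1dca2_ag.SC2.Base

set_option autoImplicit false

open Polynomial

namespace SC2

/-! ## [SC2-H1] heights over `κ(t)` (file H1.lean) -/

/-- The height of a point of projective space over `κ(t)`: the largest degree of coprime polynomial
coordinates. -/
def IsHt {κ : Type} [Field κ] {m : ℕ} (v : Fin m → RatFunc κ) (n : ℕ) : Prop :=
  ∃ (p : Fin m → κ[X]) (c : RatFunc κ), c ≠ 0 ∧
    (∀ i, algebraMap κ[X] (RatFunc κ) (p i) = c * v i) ∧
    (∃ a : Fin m → κ[X], ∑ i, a i * p i = 1) ∧ (∀ i, (p i).natDegree ≤ n) ∧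
    ∃ i, (p i).coeff n ≠ 0

theorem h1_factor {κ : Type} [Field κ] {m : ℕ} {v : Fin m → RatFunc κ} {p p' : Fin m → κ[X]}
    {c c' : RatFunc κ} (hc' : c' ≠ 0)
    (hp : ∀ i, algebraMap κ[X] (RatFunc κ) (p i) = c * v i)
    (hp' : ∀ i, algebraMap κ[X] (RatFunc κ) (p' i) = c' * v i)
    (ha' : ∃ a : Fin m → κ[X], ∑ i, a i * p' i = 1) :
    ∃ D : κ[X], algebraMap κ[X] (RatFunc κ) D = c / c' := by
  obtain ⟨a, ha⟩ := ha'
  refine ⟨∑ i, a i * p i, ?_⟩
  have h1 : (1 : RatFunc κ) = ∑ i, algebraMap κ[X] (RatFunc κ) (a i) * (c' * v i) := by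
    have h := congrArg (algebraMap κ[X] (RatFunc κ)) ha
    rw [map_sum, map_one] at h
    rw [← h]
    refine Finset.sum_congr rfl fun i _ => ?_
    rw [map_mul, hp']
  rw [map_sum]
  calc ∑ i, algebraMap κ[X] (RatFunc κ) (a i * p i)
      = ∑ i, (c / c') * (algebraMap κ[X] (RatFunc κ) (a i) * (c' * v i)) := by
        refine Finset.sum_congr rfl fun i _ => ?_
        rw [map_mul, hp]
        field_simp
    _ = c / c' := by
        rw [← Finset.mul_sum, ← h1, mul_one]

theorem h1_le {κ : Type} [Field κ] {m : ℕ} {v : Fin m → RatFunc κ} {n n' : ℕ}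
    (h : IsHt v n) (h' : IsHt v n') : n ≤ n' := by
  obtain ⟨p, c, hc, hp, ha, hn, i, hi⟩ := h
  obtain ⟨p', c', hc', hp', ha', hn', -⟩ := h'
  obtain ⟨D, hD⟩ := h1_factor hc' hp hp' ha'
  obtain ⟨D', hD'⟩ := h1_factor hc hp' hp ha
  have hinj : Function.Injective (algebraMap κ[X] (RatFunc κ)) := RatFunc.algebraMap_injective κ
  have h1 : D * D' = 1 := by
    apply hinj
    rw [map_mul, hD, hD', map_one]
    field_simp
  have h2 : p i = D * p' i := by
    apply hinj
    rw [map_mul, hD, hp, hp']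
    field_simp
  have h3 : D.natDegree = 0 := Polynomial.natDegree_eq_zero_of_isUnit (IsUnit.of_mul_eq_one D' h1)
  calc n ≤ (p i).natDegree := Polynomial.le_natDegree_of_ne_zero hi
    _ ≤ D.natDegree + (p' i).natDegree := by
        rw [h2]
        exact Polynomial.natDegree_mul_le
    _ ≤ n' := by
        rw [h3, zero_add]
        exact hn' i

/-- Two coprime representatives differ by a unit of `κ[X]`. -/
theorem IsHt.unique {κ : Type} [Field κ] {m : ℕ} {v : Fin m → RatFunc κ} {n n' : ℕ}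
    (h : IsHt v n) (h' : IsHt v n') : n = n' :=
  le_antisymm (h1_le h h') (h1_le h' h)

theorem IsHt.scale {κ : Type} [Field κ] {m : ℕ} {v w : Fin m → RatFunc κ} {n : ℕ}
    (h : IsHt v n) (c : RatFunc κ) (hc : c ≠ 0) (hw : ∀ i, v i = c * w i) : IsHt w n := by
  obtain ⟨p, d, hd, hp, ha, hn⟩ := h
  refine ⟨p, d * c, mul_ne_zero hd hc, fun i => ?_, ha, hn⟩
  rw [hp, hw, mul_assoc]

/-- Clear denominators and divide by the greatest common divisor. -/
theorem exists_isHt {κ : Type} [Field κ] {m : ℕ} (v : Fin m → RatFunc κ) (hv : ∃ i, v i ≠ 0) :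
    ∃ n, IsHt v n := by
  classical
  obtain ⟨i0, hi0⟩ := hv
  have hinj : Function.Injective (algebraMap κ[X] (RatFunc κ)) := RatFunc.algebraMap_injective κ
  obtain ⟨b, hb⟩ := IsLocalization.exist_integer_multiples_of_finite (nonZeroDivisors κ[X]) v
  choose q hq using hb
  have hb0 : (b : κ[X]) ≠ 0 := nonZeroDivisors.ne_zero b.2
  have hb1 : algebraMap κ[X] (RatFunc κ) (b : κ[X]) ≠ 0 := by
    intro h
    exact hb0 (hinj (h.trans (map_zero _).symm))
  have hq' : ∀ i, algebraMap κ[X] (RatFunc κ) (q i) =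
      algebraMap κ[X] (RatFunc κ) (b : κ[X]) * v i := by
    intro i
    rw [hq i, Algebra.smul_def]
  obtain ⟨g, hg⟩ := (IsPrincipalIdealRing.principal (Ideal.span (Set.range q))).principal
  have hg' : Ideal.span (Set.range q) = Ideal.span {g} := hg
  have hdvd : ∀ i, g ∣ q i := by
    intro i
    rw [← Ideal.mem_span_singleton, ← hg']
    exact Ideal.subset_span ⟨i, rfl⟩
  choose p hp using hdvd
  have hg0 : g ≠ 0 := by
    rintro rfl
    have h1 : q i0 = 0 := by rw [hp i0, zero_mul]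
    have h2 := hq' i0
    rw [h1, map_zero] at h2
    exact mul_ne_zero hb1 hi0 h2.symm
  have hg1 : algebraMap κ[X] (RatFunc κ) g ≠ 0 := by
    intro h
    exact hg0 (hinj (h.trans (map_zero _).symm))
  have hmem : g ∈ Ideal.span (Set.range q) := by
    rw [hg']
    exact Ideal.mem_span_singleton_self g
  obtain ⟨a, ha⟩ := (Ideal.mem_span_range_iff_exists_fun).1 hmem
  have ha1 : ∑ i, a i * p i = 1 := by
    have h1 : g * ∑ i, a i * p i = g * 1 := by
      rw [mul_one, Finset.mul_sum]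
      conv_rhs => rw [← ha]
      refine Finset.sum_congr rfl fun i _ => ?_
      rw [hp i]
      ring
    exact mul_left_cancel₀ hg0 h1
  have hne : (Finset.univ.filter fun i => p i ≠ 0).Nonempty := by
    by_contra hcon
    rw [Finset.not_nonempty_iff_eq_empty, Finset.filter_eq_empty_iff] at hcon
    have h0 : ∑ i, a i * p i = 0 := by
      refine Finset.sum_eq_zero fun i _ => ?_
      have := hcon (Finset.mem_univ i)
      rw [not_not.1 this, mul_zero]
    rw [h0] at ha1
    exact zero_ne_one ha1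
  obtain ⟨i1, hi1, hmax⟩ := Finset.exists_max_image _ (fun i => (p i).natDegree) hne
  refine ⟨(p i1).natDegree, p, algebraMap κ[X] (RatFunc κ) (b : κ[X]) / algebraMap κ[X] (RatFunc κ) g,
    div_ne_zero hb1 hg1, fun i => ?_, ⟨a, ha1⟩, fun i => ?_, i1, ?_⟩
  · have h1 := hq' i
    rw [hp i, map_mul] at h1
    field_simp
    rw [mul_comm] at h1
    rw [h1]
  · by_cases h0 : p i = 0
    · rw [h0, natDegree_zero]
      exact Nat.zero_le _
    · exact hmax i (Finset.mem_filter.2 ⟨Finset.mem_univ _, h0⟩)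
  · rw [Polynomial.coeff_natDegree]
    exact Polynomial.leadingCoeff_ne_zero.2 (Finset.mem_filter.1 hi1).2

end SC2
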