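import Pool.Agent.MP_c1dca2_ag.SC2.H1

set_option autoImplicit false

open Polynomial

namespace SC2

/-! ## [SC2-H2] the height of a pair (file H2.lean) -/

/-- If `p`, `p'` are coprime coordinates of `u`, `v`, take `sym2 p p'`. The three polynomials
generate the unit ideal: otherwise they lie in a maximal ideal `(π)`, and in the field `κ[X]/(π)` the
product `(p 0 + p 1 T) (p' 0 + p' 1 T)` is `0` although both factors are not. Degrees: the same
argument with the coefficients of `X^n`, `X^n'`. -/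
theorem IsHt.sym2 {κ : Type} [Field κ] {u v : Fin 2 → RatFunc κ} {n n' : ℕ}
    (h : IsHt u n) (h' : IsHt v n') : IsHt (SC2.sym2 u v) (n + n') := by
  obtain ⟨p, c, hc, hp, ⟨a, ha⟩, hd, ⟨i, hi⟩⟩ := h
  obtain ⟨p', c', hc', hp', ⟨a', ha'⟩, hd', ⟨i', hi'⟩⟩ := h'
  rw [Fin.sum_univ_two] at ha ha'
  refine ⟨![p 0 * p' 0, p 0 * p' 1 + p 1 * p' 0, p 1 * p' 1], c * c', mul_ne_zero hc hc', ?_, ?_,
    ?_, ?_⟩
  · intro j
    fin_cases j
    · simp only [SC2.sym2, Fin.zero_eta, Matrix.cons_val_zero, map_mul, hp, hp']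
      ring
    · simp only [SC2.sym2, Fin.mk_one, Matrix.cons_val_one, Matrix.cons_val_zero, map_mul, map_add,
        hp, hp']
      ring
    · simp only [SC2.sym2, Fin.reduceFinMk, Matrix.cons_val, map_mul, hp, hp']
      ring
  · refine ⟨![a 0 * a' 0 * (2 - (a 0 * a' 0 * (p 0 * p' 0) + a 1 * a' 1 * (p 1 * p' 1)))
        - (a 0 * a' 1) ^ 2 * (p 1 * p' 1) - (a 1 * a' 0) ^ 2 * (p 1 * p' 1)
        + 2 * (a 0 * a' 1) * (a 1 * a' 0) * (p 1 * p' 1),
      (a 0 * a' 1) ^ 2 * (p 0 * p' 1) + (a 1 * a' 0) ^ 2 * (p 1 * p' 0),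
      a 1 * a' 1 * (2 - (a 0 * a' 0 * (p 0 * p' 0) + a 1 * a' 1 * (p 1 * p' 1)))], ?_⟩
    rw [Fin.sum_univ_three]
    simp only [Matrix.cons_val_zero, Matrix.cons_val_one, Matrix.cons_val]
    have h1 : a 0 * p 0 = 1 - a 1 * p 1 := by linear_combination ha
    have h2 : a' 0 * p' 0 = 1 - a' 1 * p' 1 := by linear_combination ha'
    have h3 : (a 0 * p 0 + a 1 * p 1) * (a' 0 * p' 0 + a' 1 * p' 1) = 1 := by
      rw [ha, ha', one_mul]
    have h4 : a 0 * a' 1 * (p 0 * p' 1) + a 1 * a' 0 * (p 1 * p' 0) =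
        1 - (a 0 * a' 0 * (p 0 * p' 0) + a 1 * a' 1 * (p 1 * p' 1)) := by
      linear_combination h3
    have h5 : (a 0 * a' 1 * (p 0 * p' 1) + a 1 * a' 0 * (p 1 * p' 0)) ^ 2 =
        (1 - (a 0 * a' 0 * (p 0 * p' 0) + a 1 * a' 1 * (p 1 * p' 1))) ^ 2 := by rw [h4]
    linear_combination h5
  · intro j
    fin_cases j
    · exact (natDegree_mul_le.trans (Nat.add_le_add (hd 0) (hd' 0)))
    · exact (natDegree_add_le _ _).trans (max_le
        (natDegree_mul_le.trans (Nat.add_le_add (hd 0) (hd' 1)))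
        (natDegree_mul_le.trans (Nat.add_le_add (hd 1) (hd' 0))))
    · exact (natDegree_mul_le.trans (Nat.add_le_add (hd 1) (hd' 1)))
  · by_contra hcon
    push Not at hcon
    have e0 := hcon 0
    have e1 := hcon 1
    have e2 := hcon 2
    simp only [Matrix.cons_val_zero, Matrix.cons_val_one, Matrix.cons_val, coeff_add] at e0 e1 e2
    rw [coeff_mul_add_eq_of_natDegree_le (hd 0) (hd' 0)] at e0
    rw [coeff_mul_add_eq_of_natDegree_le (hd 0) (hd' 1), coeff_mul_add_eq_of_natDegree_le (hd 1) (hd' 0)] at e1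
    rw [coeff_mul_add_eq_of_natDegree_le (hd 1) (hd' 1)] at e2
    fin_cases i <;> fin_cases i' <;>
      simp only [Fin.zero_eta, Fin.mk_one, Fin.isValue, ne_eq] at hi hi' <;>
      simp_all
end SC2
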