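import Pool.Agent.MP_c1dca2_ag.SC2.H2
import Pool.Agent.MP_c1dca2_ag.SC2.H3
import Pool.Agent.MP_c1dca2_ag.SC2.E6

set_option autoImplicit false

open Polynomial

namespace SC2

/-! ## [SC2-H4] the parallelogram law (file H4.lean; uses H1, H2, H3, E6) -/

/-- the cubic -/
noncomputable def cub {κ : Type} [Field κ] (e : Fin 3 → κ) : κ[X] :=
  (X - C (e 0)) * (X - C (e 1)) * (X - C (e 2))

/-- `g(t) ∈ κ(t)` -/
noncomputable def gK {κ : Type} [Field κ] (e : Fin 3 → κ) : RatFunc κ :=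
  algebraMap κ[X] (RatFunc κ) (cub e)

/-- The roots of the twisted curve `Y² = ∏ (X - e_i g(t))` over `κ(t)`. -/
noncomputable def eg {κ : Type} [Field κ] (e : Fin 3 → κ) : Fin 3 → RatFunc κ :=
  fun i => algebraMap κ (RatFunc κ) (e i) * gK e

theorem gK_ne_zero {κ : Type} [Field κ] (e : Fin 3 → κ) : gK e ≠ 0 := by
  unfold gK cub
  rw [Ne, map_eq_zero_iff _ (RatFunc.algebraMap_injective κ)]
  exact mul_ne_zero (mul_ne_zero (X_sub_C_ne_zero _) (X_sub_C_ne_zero _)) (X_sub_C_ne_zero _)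

theorem cv_eg {κ : Type} [Field κ] {e : Fin 3 → κ} (hc : Cv e) : Cv (eg e) := by
  constructor
  · have h2 : (2 : RatFunc κ) = algebraMap κ (RatFunc κ) 2 := by rw [map_ofNat]
    rw [h2]
    exact (map_ne_zero (algebraMap κ (RatFunc κ))).2 hc.two
  · intro i j hij
    simp only [eg] at hij
    exact hc.inj ((algebraMap κ (RatFunc κ)).injective (mul_right_cancel₀ (gK_ne_zero e) hij))

/-- The homogeneous coordinate `x = X / g(t)` of a point of the twisted curve. -/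
noncomputable def xg {κ : Type} [Field κ] {e : Fin 3 → κ} (P : Pt (eg e)) : Fin 2 → RatFunc κ :=
  ![xco P 0 / gK e, xco P 1]

theorem exists_ht {κ : Type} [Field κ] {e : Fin 3 → κ} (P : Pt (eg e)) : ∃ n, IsHt (xg P) n := by
  apply exists_isHt
  match P with
  | WeierstrassCurve.Affine.Point.zero =>
    refine ⟨0, ?_⟩
    have h1 : xco (0 : Pt (eg e)) 0 = 1 := by rw [xco_zero]; rfl
    change xco (0 : Pt (eg e)) 0 / gK e ≠ 0
    rw [h1]
    exact one_div_ne_zero (gK_ne_zero e)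
  | WeierstrassCurve.Affine.Point.some x y h =>
    refine ⟨1, ?_⟩
    change (WeierstrassCurve.Affine.Point.xRep
      (WeierstrassCurve.Affine.Point.some x y h : (EC (eg e)).Point)) 1 ≠ 0
    rw [WeierstrassCurve.Affine.Point.xRep_some]
    exact one_ne_zero

theorem h4_addSub {F : Type} [Field F] (e : Fin 3 → F) (v : Fin 3 → F) :
    addSub e v = ![v 0 ^ 2 - (EC e).b₄ * v 0 * v 2 - (EC e).b₆ * v 1 * v 2 - (EC e).b₈ * v 2 ^ 2,
      2 * v 1 * v 0 + (EC e).b₂ * v 0 * v 2 + (EC e).b₄ * v 1 * v 2 + (EC e).b₆ * v 2 ^ 2,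
      v 1 ^ 2 - 4 * v 0 * v 2] := by
  funext i
  unfold addSub WeierstrassCurve.addSubMap
  fin_cases i <;> simp

theorem h4_b {κ : Type} [Field κ] (e : Fin 3 → κ) :
    (EC (eg e)).b₂ = (EC (fun i => algebraMap κ (RatFunc κ) (e i))).b₂ * gK e ∧
    (EC (eg e)).b₄ = (EC (fun i => algebraMap κ (RatFunc κ) (e i))).b₄ * gK e ^ 2 ∧
    (EC (eg e)).b₆ = (EC (fun i => algebraMap κ (RatFunc κ) (e i))).b₆ * gK e ^ 3 ∧
    (EC (eg e)).b₈ = (EC (fun i => algebraMap κ (RatFunc κ) (e i))).b₈ * gK e ^ 4 := by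
  refine ⟨?_, ?_, ?_, ?_⟩ <;>
    simp only [EC, eg, WeierstrassCurve.b₂, WeierstrassCurve.b₄, WeierstrassCurve.b₆,
      WeierstrassCurve.b₈] <;> ring

/-- `sym2 (xg P) (xg Q)` is `(s / g², t / g, u)` with `(s, t, u) = sym2 (xco P) (xco Q)`, and
`addSub (eg e) (s, t, u) = (g⁴ A 0, g³ A 1, g² A 2)` with `A = addSub e (s / g², t / g, u)`. With
`addSub_pt`: `A = c' • sym2 (xg (P + Q)) (xg (P - Q))`. Then `IsHt.sym2`, `IsHt.addSub`,
`IsHt.scale`, `IsHt.unique`. -/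
theorem par_height {κ : Type} [Field κ] {e : Fin 3 → κ} (hc : Cv e) (P Q : Pt (eg e))
    (a b c d : ℕ) (ha : IsHt (xg P) a) (hb : IsHt (xg Q) b) (hc' : IsHt (xg (P + Q)) c)
    (hd : IsHt (xg (P - Q)) d) : c + d = 2 * (a + b) := by
  obtain ⟨k, hk0, hk⟩ := addSub_pt (cv_eg hc) P Q
  have hg := gK_ne_zero e
  obtain ⟨b2, b4, b6, b8⟩ := h4_b e
  have h1 := IsHt.addSub hc (IsHt.sym2 ha hb)
  have h2 := IsHt.sym2 hc' hd
  refine IsHt.unique h2 (IsHt.scale h1 (k / gK e ^ 2) (div_ne_zero hk0 (pow_ne_zero 2 hg)) ?_)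
  have k0 := hk 0
  have k1 := hk 1
  have k2 := hk 2
  rw [h4_addSub] at k0 k1 k2
  simp only [SC2.sym2, Matrix.cons_val_zero, Matrix.cons_val_one, Matrix.cons_val, b2, b4, b6,
    b8] at k0 k1 k2
  intro i
  rw [h4_addSub]
  fin_cases i
  · simp only [SC2.sym2, xg, Matrix.cons_val_zero, Matrix.cons_val_one, Matrix.cons_val,
      Fin.zero_eta, Fin.mk_one, Fin.reduceFinMk]
    field_simp
    linear_combination k0
  · simp only [SC2.sym2, xg, Matrix.cons_val_zero, Matrix.cons_val_one, Matrix.cons_val,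
      Fin.zero_eta, Fin.mk_one, Fin.reduceFinMk]
    field_simp
    linear_combination k1
  · simp only [SC2.sym2, xg, Matrix.cons_val_zero, Matrix.cons_val_one, Matrix.cons_val,
      Fin.zero_eta, Fin.mk_one, Fin.reduceFinMk]
    field_simp
    linear_combination k2

end SC2
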