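import Pool.Agent.MP_c1dca2_ag.SC2.E4
import Pool.Agent.MP_c1dca2_ag.SC2.E5

set_option autoImplicit false

namespace SC2

/-! ## [SC2-R1] reduction is injective on torsion of order a power of `2` (file R1.lean; uses E4, E5) -/

/-- good reduction at `V` -/
structure GoodRed {C : Type} [Field C] (V : ValuationSubring C) (e : Fin 3 → C) : Prop where
  two : V.valuation 2 = 1
  mem : ∀ i, e i ∈ V
  diff : ∀ i j, i ≠ j → V.valuation (e i - e j) = 1

/-- `torsion_mem` with `O = V` (valuation rings are integrally closed). -/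
theorem t2_mem {C : Type} [Field C] {V : ValuationSubring C} {e : Fin 3 → C} (hc : Cv e)
    (hV : GoodRed V e) (x y : C) (h : OnC e x y) (ht : aff hc x y h ∈ T2 (Pt e)) :
    x ∈ V ∧ y ∈ V := by
  obtain ⟨n, hn⟩ := ht
  refine torsion_mem hc V.toSubring (fun z hz => ?_) hV.mem n x y h hn
  have hz' : IsIntegral V z := hz
  obtain ⟨w, hw⟩ := (IsIntegrallyClosed.isIntegral_iff (R := V) (K := C)).1 hz'
  rw [← hw]
  exact w.2

theorem r1_add_one {C : Type} [Field C] (V : ValuationSubring C) {a b : C}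
    (ha : V.valuation a = 1) (hb : V.valuation b < 1) : V.valuation (a + b) = 1 := by
  rw [Valuation.map_add_eq_of_lt_left _ (by rw [ha]; exact hb), ha]

theorem r1_mul_lt {C : Type} [Field C] (V : ValuationSubring C) {a b : C}
    (ha : V.valuation a < 1) (hb : V.valuation b ≤ 1) : V.valuation (a * b) < 1 := by
  rw [map_mul]
  exact mul_lt_one_of_lt_of_le ha hb

theorem r1_gen {C : Type} [Field C] (V : ValuationSubring C) {p q r : C}
    (hp : V.valuation p < 1) (hq : V.valuation q = 1) (hr : V.valuation r = 1) :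
    V.valuation (q * r + p * (q + r)) = 1 := by
  apply r1_add_one
  · rw [map_mul, hq, hr, one_mul]
  · apply r1_mul_lt V hp
    exact (Valuation.map_add _ _ _).trans (max_le hq.le hr.le)

theorem r1_near {C : Type} [Field C] {V : ValuationSubring C} {e : Fin 3 → C}
    (hV : GoodRed V e) (x : C) (i j : Fin 3) (hij : i ≠ j) (h : V.valuation (x - e i) < 1) :
    V.valuation (x - e j) = 1 := by
  rw [show x - e j = (e i - e j) + (x - e i) by ring]
  exact r1_add_one V (hV.diff i j hij) h

/-- If `|y| < 1` then `y = 0`: otherwise `2 P ≠ 0` is a torsion point, its `x`-coordinate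
`g'(x)² / (4 y²) + e 0 + e 1 + e 2 - 2 x` is in `V`, so `|g'(x)| < 1`; but `|g(x)| = |y|² < 1` means
`|x - e i| < 1` for some `i` and then `|g'(x)| = |e i - e j| |e i - e k| = 1`. -/
theorem t2_y {C : Type} [Field C] {V : ValuationSubring C} {e : Fin 3 → C} (hc : Cv e)
    (hV : GoodRed V e) (x y : C) (h : OnC e x y) (ht : aff hc x y h ∈ T2 (Pt e))
    (hy : V.valuation y < 1) : y = 0 := by
  by_contra hy0
  obtain ⟨hxV, hyV⟩ := t2_mem hc hV x y h ht
  have h2y : 2 * y ≠ 0 := mul_ne_zero hc.two hy0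
  obtain ⟨l, hl⟩ : ∃ l : C, l * (2 * y) =
      (x - e 0) * (x - e 1) + (x - e 1) * (x - e 2) + (x - e 2) * (x - e 0) :=
    ⟨_ / (2 * y), div_mul_cancel₀ _ h2y⟩
  obtain ⟨h₃, hadd⟩ := add_aff_self hc x y h l (l ^ 2 + (e 0 + e 1 + e 2) - x - x) _ hy0 hl rfl rfl
  have ht3 : aff hc _ _ h₃ ∈ T2 (Pt e) := by
    rw [← hadd]
    exact (T2 (Pt e)).add_mem ht ht
  obtain ⟨hx3, -⟩ := t2_mem hc hV _ _ h₃ ht3
  have hl2 : l ^ 2 ∈ V := by
    have : l ^ 2 = (l ^ 2 + (e 0 + e 1 + e 2) - x - x) - (e 0 + e 1 + e 2) + x + x := by ring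
    rw [this]
    exact add_mem (add_mem (sub_mem hx3 (add_mem (add_mem (hV.mem 0) (hV.mem 1))
      (hV.mem 2))) hxV) hxV
  have hl1 : V.valuation l ≤ 1 := by
    rw [← ValuationSubring.valuation_le_one_iff, map_pow] at hl2
    exact (pow_le_one_iff_of_nonneg zero_le two_ne_zero).1 hl2
  have hg' : V.valuation ((x - e 0) * (x - e 1) + (x - e 1) * (x - e 2) + (x - e 2) * (x - e 0)) < 1 := by
    rw [← hl, mul_comm, mul_comm 2 y, mul_assoc]
    refine r1_mul_lt V hy ?_
    rw [map_mul, hV.two, one_mul]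
    exact hl1
  have hle : ∀ i, V.valuation (x - e i) ≤ 1 := fun i => by
    rw [ValuationSubring.valuation_le_one_iff]
    exact sub_mem hxV (hV.mem i)
  have hlt : ∃ i, V.valuation (x - e i) < 1 := by
    by_contra hcon
    push Not at hcon
    have h1 : ∀ i, V.valuation (x - e i) = 1 := fun i => le_antisymm (hle i) (hcon i)
    have h2 := congrArg V.valuation h
    rw [map_pow, map_mul, map_mul, h1, h1, h1, mul_one, mul_one] at h2
    exact absurd ((pow_eq_one_iff_of_nonneg zero_le two_ne_zero).1 h2) hy.ne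
  obtain ⟨i, hi⟩ := hlt
  refine absurd ?_ hg'.ne
  fin_cases i
  · have := r1_gen V hi (r1_near hV x 0 1 (by decide) hi) (r1_near hV x 0 2 (by decide) hi)
    rw [← this]
    congr 1
    simp only [Fin.zero_eta]
    ring
  · have := r1_gen V hi (r1_near hV x 1 2 (by decide) hi) (r1_near hV x 1 0 (by decide) hi)
    rw [← this]
    congr 1
    simp only [Fin.mk_one]
    ring
  · have := r1_gen V hi (r1_near hV x 2 0 (by decide) hi) (r1_near hV x 2 1 (by decide) hi)
    rw [← this]
    congr 1
    simp only [Fin.reduceFinMk]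
    ring

theorem r1_double {C : Type} [Field C] {V : ValuationSubring C} {e : Fin 3 → C} (hc : Cv e)
    (hV : GoodRed V e) (x y : C) (h : OnC e x y) (ht : aff hc x y h ∈ T2 (Pt e)) (hy : y ≠ 0) :
    V.valuation y = 1 ∧ ∃ l, V.valuation l ≤ 1 ∧ l * (2 * y) =
      (x - e 0) * (x - e 1) + (x - e 1) * (x - e 2) + (x - e 2) * (x - e 0) := by
  obtain ⟨hxV, hyV⟩ := t2_mem hc hV x y h ht
  have h1 : V.valuation y = 1 := by
    rw [← ValuationSubring.valuation_le_one_iff] at hyV
    rcases hyV.lt_or_eq with h1 | h1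
    · exact absurd (t2_y hc hV x y h ht h1) hy
    · exact h1
  have h2y : 2 * y ≠ 0 := mul_ne_zero hc.two hy
  refine ⟨h1, _ / (2 * y), ?_, div_mul_cancel₀ _ h2y⟩
  rw [map_div₀, map_mul, hV.two, h1, mul_one, div_one, ValuationSubring.valuation_le_one_iff]
  have h2 : ∀ i, x - e i ∈ V := fun i => sub_mem hxV (hV.mem i)
  exact add_mem (add_mem (mul_mem (h2 _) (h2 _)) (mul_mem (h2 _) (h2 _)))
    (mul_mem (h2 _) (h2 _))

theorem r1_zero {C : Type} [Field C] {V : ValuationSubring C} {e : Fin 3 → C}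
    (hV : GoodRed V e) (x x' : C) (h : OnC e x 0) (h' : OnC e x' 0)
    (hx : V.valuation (x - x') < 1) : x = x' := by
  have key : ∀ z, OnC e z 0 → ∃ i, z = e i := by
    intro z hz
    have h1 : (z - e 0) * (z - e 1) * (z - e 2) = 0 := by
      rw [OnC] at hz
      rw [← hz]
      ring
    rcases mul_eq_zero.1 h1 with h1 | h1
    · rcases mul_eq_zero.1 h1 with h1 | h1
      · exact ⟨0, sub_eq_zero.1 h1⟩
      · exact ⟨1, sub_eq_zero.1 h1⟩
    · exact ⟨2, sub_eq_zero.1 h1⟩
  obtain ⟨i, rfl⟩ := key x h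
  obtain ⟨j, rfl⟩ := key x' h'
  by_contra hne
  have hij : i ≠ j := fun hij => hne (by rw [hij])
  exact absurd (hV.diff i j hij) hx.ne

theorem r1_sub_lt {C : Type} [Field C] (V : ValuationSubring C) {a b : C}
    (ha : V.valuation a < 1) (hb : V.valuation b < 1) : V.valuation (a + b) < 1 :=
  Valuation.map_add_lt _ ha hb

/-- Reduction is injective. Induction on `n` with `2 ^ n` killing both points: the doubles (if not `0`,
use `t2_y` and `add_aff_self`) are congruent again (the slope is in `V`), so `2 P = 2 P'` and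
`P' = P + T` with `2 T = 0` (`two_torsion`). If `T ≠ 0`, `add_two_torsion` (the case `x = e i` gives
`P' = 0`, impossible) and `x ≡ x'`, `y ≡ y'` give `(x - e i)² ≡ (e i - e j) (e i - e k)` and
`y ≡ - y`, so `|y| < 1`, `y = 0` by `t2_y`, `x` is some `e m`: contradiction to
`(x - e i)² ≡ (e i - e j) (e i - e k)`. -/
theorem t2_inj {C : Type} [Field C] {V : ValuationSubring C} {e : Fin 3 → C} (hc : Cv e)
    (hV : GoodRed V e) (x y : C) (h : OnC e x y) (x' y' : C) (h' : OnC e x' y')
    (ht : aff hc x y h ∈ T2 (Pt e)) (ht' : aff hc x' y' h' ∈ T2 (Pt e))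
    (hx : V.valuation (x - x') < 1) (hy : V.valuation (y - y') < 1) : x = x' ∧ y = y' := by
  have key : ∀ n : ℕ, ∀ (x y : C) (h : OnC e x y) (x' y' : C) (h' : OnC e x' y'),
      2 ^ n • aff hc x y h = 0 → 2 ^ n • aff hc x' y' h' = 0 → V.valuation (x - x') < 1 →
      V.valuation (y - y') < 1 → x = x' ∧ y = y' := by
    intro n
    induction n with
    | zero =>
      intro x y h x' y' h' hn
      rw [pow_zero, one_smul] at hn
      exact absurd hn (aff_ne_zero hc x y h)
    | succ n ih =>
      intro x y h x' y' h' hn hn' hx hy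
      have ht : aff hc x y h ∈ T2 (Pt e) := ⟨n + 1, hn⟩
      have ht' : aff hc x' y' h' ∈ T2 (Pt e) := ⟨n + 1, hn'⟩
      obtain ⟨hxV, hyV⟩ := t2_mem hc hV x y h ht
      obtain ⟨hxV', hyV'⟩ := t2_mem hc hV x' y' h' ht'
      by_cases hy0 : y = 0
      · have hy' : y' = 0 := by
          apply t2_y hc hV x' y' h' ht'
          rw [hy0, zero_sub, Valuation.map_neg] at hy
          exact hy
        subst hy0
        subst hy'
        exact ⟨r1_zero hV x x' h h' hx, rfl⟩
      by_cases hy0' : y' = 0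
      · exfalso
        apply hy0
        apply t2_y hc hV x y h ht
        rw [hy0', sub_zero] at hy
        exact hy
      obtain ⟨hy1, l, hlV, hl⟩ := r1_double hc hV x y h ht hy0
      obtain ⟨hy1', l', hlV', hl'⟩ := r1_double hc hV x' y' h' ht' hy0'
      obtain ⟨h₃, hadd⟩ := add_aff_self hc x y h l (l ^ 2 + (e 0 + e 1 + e 2) - x - x) _ hy0 hl
        rfl rfl
      obtain ⟨h₃', hadd'⟩ := add_aff_self hc x' y' h' l' (l' ^ 2 + (e 0 + e 1 + e 2) - x' - x') _
        hy0' hl' rfl rfl
      have hdx : V.valuation (x' - x) < 1 := by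
        rw [Valuation.map_sub_swap]; exact hx
      have hxle : V.valuation x ≤ 1 := (ValuationSubring.valuation_le_one_iff _ _).2 hxV
      have hxle' : V.valuation x' ≤ 1 := (ValuationSubring.valuation_le_one_iff _ _).2 hxV'
      have hmV : ∀ z, z ∈ V → V.valuation z ≤ 1 := fun z hz =>
        (ValuationSubring.valuation_le_one_iff _ _).2 hz
      have hlmem : l ∈ V := (ValuationSubring.valuation_le_one_iff _ _).1 hlV
      have hlmem' : l' ∈ V := (ValuationSubring.valuation_le_one_iff _ _).1 hlV'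
      have h2V : (2 : C) ∈ V := (ValuationSubring.valuation_le_one_iff _ _).1 hV.two.le
      have hll : V.valuation (l - l') < 1 := by
        have h1 : V.valuation ((2 * y) * (l - l')) < 1 := by
          have h2 : (2 * y) * (l - l') = (x - x') * (3 * (x + x') - 2 * (e 0 + e 1 + e 2)) +
              (y - y') * (-(2 * l')) := by
            linear_combination hl - hl'
          rw [h2]
          refine r1_sub_lt V (r1_mul_lt V hx (hmV _ ?_)) (r1_mul_lt V hy (hmV _ ?_))
          · exact sub_mem (mul_mem (by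
              rw [show (3 : C) = 2 + 1 by norm_num]
              exact add_mem h2V (one_mem V)) (add_mem hxV hxV'))
              (mul_mem h2V (add_mem (add_mem (hV.mem 0) (hV.mem 1)) (hV.mem 2)))
          · exact neg_mem (mul_mem h2V hlmem')
        rwa [map_mul, map_mul, hV.two, hy1, one_mul, one_mul] at h1
      have hx3 : V.valuation ((l ^ 2 + (e 0 + e 1 + e 2) - x - x) -
          (l' ^ 2 + (e 0 + e 1 + e 2) - x' - x')) < 1 := by
        have h2 : (l ^ 2 + (e 0 + e 1 + e 2) - x - x) - (l' ^ 2 + (e 0 + e 1 + e 2) - x' - x') =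
            (l - l') * (l + l') + (x - x') * (-2) := by ring
        rw [h2]
        exact r1_sub_lt V (r1_mul_lt V hll (hmV _ (add_mem hlmem hlmem')))
          (r1_mul_lt V hx (hmV _ (neg_mem h2V)))
      have hx3V : (l ^ 2 + (e 0 + e 1 + e 2) - x - x) ∈ V :=
        sub_mem (sub_mem (add_mem (pow_mem hlmem 2)
          (add_mem (add_mem (hV.mem 0) (hV.mem 1)) (hV.mem 2))) hxV) hxV
      have hy3 : V.valuation (-(y + l * ((l ^ 2 + (e 0 + e 1 + e 2) - x - x) - x)) -
          -(y' + l' * ((l' ^ 2 + (e 0 + e 1 + e 2) - x' - x') - x'))) < 1 := by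
        have h2 : -(y + l * ((l ^ 2 + (e 0 + e 1 + e 2) - x - x) - x)) -
            -(y' + l' * ((l' ^ 2 + (e 0 + e 1 + e 2) - x' - x') - x')) =
            ((y - y') * (-1) + (l - l') * (-((l ^ 2 + (e 0 + e 1 + e 2) - x - x) - x))) +
              (((l ^ 2 + (e 0 + e 1 + e 2) - x - x) - (l' ^ 2 + (e 0 + e 1 + e 2) - x' - x')) *
                (-l') + (x - x') * l') := by ring
        rw [h2]
        refine r1_sub_lt V (r1_sub_lt V (r1_mul_lt V hy (hmV _ (neg_mem (one_mem V))))
          (r1_mul_lt V hll (hmV _ (neg_mem (sub_mem hx3V hxV)))))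
          (r1_sub_lt V (r1_mul_lt V hx3 (hmV _ (neg_mem hlmem'))) (r1_mul_lt V hx hlV'))
      have hdd : ∀ P : Pt e, 2 ^ (n + 1) • P = 2 ^ n • (P + P) := fun P => by
        rw [pow_succ, mul_smul, two_smul]
      have hres := ih _ _ h₃ _ _ h₃' (by rw [← hadd, ← hdd]; exact hn)
        (by rw [← hadd', ← hdd]; exact hn') hx3 hy3
      have hPP : aff hc x y h + aff hc x y h = aff hc x' y' h' + aff hc x' y' h' := by
        rw [hadd, hadd', aff_inj]
        exact hres
      have hT : (aff hc x' y' h' - aff hc x y h) + (aff hc x' y' h' - aff hc x y h) = 0 := by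
        have : (aff hc x' y' h' - aff hc x y h) + (aff hc x' y' h' - aff hc x y h) =
          (aff hc x' y' h' + aff hc x' y' h') - (aff hc x y h + aff hc x y h) := by abel
        rw [this, hPP, sub_self]
      rcases two_torsion hc _ hT with h1 | ⟨i, hi, h1⟩
      · rw [sub_eq_zero, aff_inj] at h1
        exact ⟨h1.1.symm, h1.2.symm⟩
      · exfalso
        have hxi : x ≠ e i := by
          rintro rfl
          apply hy0
          rw [OnC] at h hi
          have : y ^ 2 = 0 := by rw [h, ← hi]; ring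
          exact pow_eq_zero_iff two_ne_zero |>.1 this
        have hjk : ∃ j k : Fin 3, i ≠ j ∧ i ≠ k ∧ j ≠ k := by
          fin_cases i
          · exact ⟨1, 2, by decide, by decide, by decide⟩
          · exact ⟨2, 0, by decide, by decide, by decide⟩
          · exact ⟨0, 1, by decide, by decide, by decide⟩
        obtain ⟨j, k, hij, hik, hjk⟩ := hjk
        obtain ⟨h4, h5⟩ := add_two_torsion hc i j k hij hik hjk x y h hxi hi
        rw [← h1, add_sub_cancel, aff_inj] at h5
        obtain ⟨h6, h7⟩ := h5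
        set D := (e i - e j) * (e i - e k) with hD
        have hDv : V.valuation D = 1 := by
          rw [hD, map_mul, hV.diff i j hij, hV.diff i k hik, one_mul]
        have hxi' : x - e i ≠ 0 := sub_ne_zero.2 hxi
        have h8 : (x' - e i) * (x - e i) = D := by
          rw [h6]
          field_simp
          ring
        have h9 : y' * (x - e i) ^ 2 = -(y * D) := by
          rw [h7]
          field_simp
        have h10 : V.valuation (2 * (D * y)) < 1 := by
          have h11 : 2 * (D * y) = (y - y') * (x - e i) ^ 2 + (x - x') * (-((x - e i) * y)) := by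
            linear_combination (-y) * h8 + h9
          rw [h11]
          have h12 : x - e i ∈ V := sub_mem hxV (hV.mem i)
          exact r1_sub_lt V (r1_mul_lt V hy (hmV _ (pow_mem h12 2)))
            (r1_mul_lt V hx (hmV _ (neg_mem (mul_mem h12 hyV))))
        rw [map_mul, map_mul, hV.two, hDv, hy1, one_mul, one_mul] at h10
        exact lt_irrefl _ h10
  obtain ⟨m, hm⟩ := ht
  obtain ⟨n, hn⟩ := ht'
  refine key (m + n) x y h x' y' h' ?_ ?_ hx hy
  · rw [pow_add, mul_comm, mul_smul, hm, smul_zero]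
  · rw [pow_add, mul_smul, hn, smul_zero]

end SC2
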