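import Pool.Agent.MP_c1dca2_ag.SC2.R1

set_option autoImplicit false

open IsLocalRing

namespace SC2

/-! ## [SC2-R2] the reduction homomorphism (file R2.lean; uses R1) -/

/-- The reductions of the `e i`. -/
noncomputable def redE {C : Type} [Field C] {V : ValuationSubring C} {e : Fin 3 → C} (hV : GoodRed V e) :
    Fin 3 → ResidueField V :=
  fun i => residue V ⟨e i, hV.mem i⟩

theorem r2_zero {C : Type} [Field C] (V : ValuationSubring C) (z : V) :
    residue V z = 0 ↔ V.valuation (z : C) < 1 := by
  rw [residue_eq_zero_iff, ValuationSubring.valuation_lt_one_iff]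

theorem r2_eq {C : Type} [Field C] (V : ValuationSubring C) (z w : V) :
    residue V z = residue V w ↔ V.valuation ((z : C) - w) < 1 := by
  rw [← sub_eq_zero, ← map_sub, r2_zero]
  rfl

theorem cv_redE {C : Type} [Field C] {V : ValuationSubring C} {e : Fin 3 → C}
    (hV : GoodRed V e) : Cv (redE hV) := by
  constructor
  · intro h
    have h1 : residue V (2 : V) = 0 := by rw [map_ofNat]; exact h
    rw [r2_zero] at h1
    exact absurd hV.two h1.ne
  · intro i j hij
    by_contra hne
    unfold redE at hij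
    rw [r2_eq] at hij
    exact absurd (hV.diff i j hne) hij.ne

theorem r2_onC {C : Type} [Field C] {V : ValuationSubring C} {e : Fin 3 → C}
    (hV : GoodRed V e) (x y : V) (h : OnC e (x : C) (y : C)) :
    OnC (redE hV) (residue V x) (residue V y) := by
  have h1 : y ^ 2 = (x - ⟨e 0, hV.mem 0⟩) * (x - ⟨e 1, hV.mem 1⟩) * (x - ⟨e 2, hV.mem 2⟩) :=
    Subtype.ext h
  have h2 := congrArg (residue V) h1
  simp only [map_pow, map_mul, map_sub] at h2
  exact h2

/-- the graph of the reduction -/
def r2Rel {C : Type} [Field C] {V : ValuationSubring C} {e : Fin 3 → C} (hc : Cv e)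
    (hV : GoodRed V e) (P : Pt e) (Q : Pt (redE hV)) : Prop :=
  (P = 0 ∧ Q = 0) ∨ ∃ (x y : V) (h : OnC e (x : C) (y : C)), P = aff hc x y h ∧
    Q = aff (cv_redE hV) (residue V x) (residue V y) (r2_onC hV x y h)

theorem r2_exists {C : Type} [Field C] {V : ValuationSubring C} {e : Fin 3 → C} (hc : Cv e)
    (hV : GoodRed V e) (P : Pt e) (hP : P ∈ T2 (Pt e)) : ∃ Q, r2Rel hc hV P Q := by
  rcases pt_cases hc P with rfl | ⟨x, y, h, rfl⟩
  · exact ⟨0, Or.inl ⟨rfl, rfl⟩⟩
  · obtain ⟨hx, hy⟩ := t2_mem hc hV x y h hP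
    exact ⟨_, Or.inr ⟨⟨x, hx⟩, ⟨y, hy⟩, h, rfl, rfl⟩⟩

theorem r2_unique {C : Type} [Field C] {V : ValuationSubring C} {e : Fin 3 → C} (hc : Cv e)
    (hV : GoodRed V e) (P : Pt e) (Q Q' : Pt (redE hV)) (h : r2Rel hc hV P Q)
    (h' : r2Rel hc hV P Q') : Q = Q' := by
  rcases h with ⟨rfl, rfl⟩ | ⟨x, y, hxy, rfl, rfl⟩
  · rcases h' with ⟨-, rfl⟩ | ⟨x, y, hxy, h1, -⟩
    · rfl
    · exact absurd h1.symm (aff_ne_zero hc _ _ _)
  · rcases h' with ⟨h1, -⟩ | ⟨x', y', hxy', h1, rfl⟩
    · exact absurd h1 (aff_ne_zero hc _ _ _)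
    · rw [aff_inj] at h1
      obtain ⟨h2, h3⟩ := h1
      have h4 : x = x' := Subtype.ext h2
      have h5 : y = y' := Subtype.ext h3
      subst h4
      subst h5
      rfl

theorem r2_add {C : Type} [Field C] {V : ValuationSubring C} {e : Fin 3 → C} (hc : Cv e)
    (hV : GoodRed V e) (P P' : Pt e) (hP : P ∈ T2 (Pt e)) (hP' : P' ∈ T2 (Pt e))
    (Q Q' : Pt (redE hV)) (h : r2Rel hc hV P Q) (h' : r2Rel hc hV P' Q') :
    r2Rel hc hV (P + P') (Q + Q') := by
  rcases h with ⟨rfl, rfl⟩ | ⟨x, y, hxy, rfl, rfl⟩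
  · rwa [zero_add, zero_add]
  rcases h' with ⟨rfl, rfl⟩ | ⟨x', y', hxy', rfl, rfl⟩
  · rw [add_zero, add_zero]
    exact Or.inr ⟨x, y, hxy, rfl, rfl⟩
  let E : Fin 3 → V := fun i => ⟨e i, hV.mem i⟩
  have hE : ∀ i, ((E i : V) : C) = e i := fun i => rfl
  have hE' : ∀ i, residue V (E i) = redE hV i := fun i => rfl
  by_cases hx : (x : C) = x'
  · have hx' : x = x' := Subtype.ext hx
    subst hx'
    have hyy : ((y : C) - y') * (y + y') = 0 := by
      have h1 := hxy
      have h2 := hxy'
      rw [OnC] at h1 h2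
      linear_combination h1 - h2
    by_cases hyn : (y' : C) = -y
    · have h1 : (aff hc x y hxy : Pt e) + aff hc x y' hxy' = 0 := by
        have : aff hc (x : C) y' hxy' = -aff hc (x : C) y hxy := by
          rw [neg_aff, aff_inj]
          exact ⟨rfl, hyn⟩
        rw [this, add_neg_cancel]
      have h2 : aff (cv_redE hV) (residue V x) (residue V y) (r2_onC hV x y hxy) +
          aff (cv_redE hV) (residue V x) (residue V y') (r2_onC hV x y' hxy') = 0 := by
        have : aff (cv_redE hV) (residue V x) (residue V y') (r2_onC hV x y' hxy') =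
            -aff (cv_redE hV) (residue V x) (residue V y) (r2_onC hV x y hxy) := by
          rw [neg_aff, aff_inj]
          refine ⟨rfl, ?_⟩
          rw [← map_neg]
          congr 1
          exact Subtype.ext hyn
        rw [this, add_neg_cancel]
      exact Or.inl ⟨h1, h2⟩
    · have hy' : (y : C) = y' := by
        rcases mul_eq_zero.1 hyy with h | h
        · exact sub_eq_zero.1 h
        · exact absurd (eq_neg_of_add_eq_zero_right h) hyn
      have hy'' : y = y' := Subtype.ext hy'
      subst hy''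
      have hy0 : (y : C) ≠ 0 := by
        intro h
        apply hyn
        rw [h, neg_zero]
      obtain ⟨hy1, l, hlV, hl⟩ := r1_double hc hV x y hxy hP hy0
      rw [ValuationSubring.valuation_le_one_iff] at hlV
      let L : V := ⟨l, hlV⟩
      let X3 : V := L ^ 2 + (E 0 + E 1 + E 2) - x - x
      let Y3 : V := -(y + L * (X3 - x))
      obtain ⟨h3, hadd⟩ := add_aff_self hc x y hxy l (X3 : C) (Y3 : C) hy0 hl rfl rfl
      have hry : residue V y ≠ 0 := by
        rw [Ne, r2_zero, hy1]
        exact lt_irrefl _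
      have hL : L * (2 * y) = (x - E 0) * (x - E 1) + (x - E 1) * (x - E 2) +
        (x - E 2) * (x - E 0) := Subtype.ext hl
      obtain ⟨h3', hadd'⟩ := add_aff_self (cv_redE hV) (residue V x) (residue V y)
        (r2_onC hV x y hxy) (residue V L) (residue V X3) (residue V Y3) hry (by
          have := congrArg (residue V) hL
          simp only [map_mul, map_add, map_sub, map_ofNat, hE'] at this
          exact this) (by
          simp only [X3, map_add, map_sub, map_pow, hE']) (by
          simp only [Y3, map_neg, map_add, map_mul, map_sub])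
      exact Or.inr ⟨X3, Y3, h3, hadd, hadd'⟩
  · -- different x-coordinates
    have hres : residue V x ≠ residue V x' := by
      intro h
      rw [r2_eq] at h
      have hyy : V.valuation (((y : C) - y') * (y + y')) < 1 := by
        have h1 := hxy
        have h2 := hxy'
        rw [OnC] at h1 h2
        have h3 : ((y : C) - y') * (y + y') = ((x : C) - x') *
            (((x ^ 2 + x * x' + x' ^ 2 - (E 0 + E 1 + E 2) * (x + x') +
              (E 0 * E 1 + E 1 * E 2 + E 2 * E 0) : V) : C)) := by
          push_cast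
          rw [hE, hE, hE]
          linear_combination h1 - h2
        rw [h3]
        exact r1_mul_lt V h ((ValuationSubring.valuation_le_one_iff _ _).2 (SetLike.coe_mem _))
      rw [map_mul] at hyy
      have hcase : V.valuation ((y : C) - y') < 1 ∨ V.valuation ((y : C) + y') < 1 := by
        by_contra hcon
        push Not at hcon
        have h1 : V.valuation ((y : C) - y') = 1 := le_antisymm
          ((ValuationSubring.valuation_le_one_iff _ _).2 (sub_mem y.2 y'.2)) hcon.1
        have h2 : V.valuation ((y : C) + y') = 1 := le_antisymm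
          ((ValuationSubring.valuation_le_one_iff _ _).2 (add_mem y.2 y'.2)) hcon.2
        rw [h1, h2, one_mul] at hyy
        exact lt_irrefl _ hyy
      rcases hcase with h1 | h1
      · exact hx (t2_inj hc hV x y hxy x' y' hxy' hP hP' h h1).1
      · have hP'' : aff hc (x' : C) (-y') (onC_neg hxy') ∈ T2 (Pt e) := by
          rw [← neg_aff hc (x' : C) y' hxy']
          exact (T2 (Pt e)).neg_mem hP'
        exact hx (t2_inj hc hV x y hxy x' (-y') (onC_neg hxy') hP hP'' h
          (by rw [sub_neg_eq_add]; exact h1)).1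
    have hx0 : (x : C) - x' ≠ 0 := sub_ne_zero.2 hx
    have hx1 : V.valuation ((x : C) - x') = 1 := by
      refine le_antisymm ((ValuationSubring.valuation_le_one_iff _ _).2 (sub_mem x.2 x'.2)) ?_
      by_contra h
      push Not at h
      exact hres ((r2_eq V x x').2 h)
    obtain ⟨l, hl⟩ : ∃ l : C, l * ((x : C) - x') = (y : C) - y' :=
      ⟨_ / ((x : C) - x'), div_mul_cancel₀ _ hx0⟩
    have hlV : l ∈ V := by
      rw [← ValuationSubring.valuation_le_one_iff]
      have h1 := congrArg V.valuation hl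
      rw [map_mul, hx1, mul_one] at h1
      rw [h1]
      exact (ValuationSubring.valuation_le_one_iff _ _).2 (sub_mem y.2 y'.2)
    let L : V := ⟨l, hlV⟩
    let X3 : V := L ^ 2 + (E 0 + E 1 + E 2) - x - x'
    let Y3 : V := -(y + L * (X3 - x))
    obtain ⟨h3, hadd⟩ := add_aff_of_ne hc x y hxy x' y' hxy' hx l (X3 : C) (Y3 : C) hl rfl rfl
    have hL : L * (x - x') = y - y' := Subtype.ext hl
    obtain ⟨h3', hadd'⟩ := add_aff_of_ne (cv_redE hV) (residue V x) (residue V y)
      (r2_onC hV x y hxy) (residue V x') (residue V y') (r2_onC hV x' y' hxy') hres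
      (residue V L) (residue V X3) (residue V Y3) (by
        have := congrArg (residue V) hL
        simp only [map_mul, map_sub] at this
        exact this) (by
        simp only [X3, map_add, map_sub, map_pow, hE']) (by
        simp only [Y3, map_neg, map_add, map_mul, map_sub])
    exact Or.inr ⟨X3, Y3, h3, hadd, hadd'⟩

/-- Define `red 0 = 0` and `red (x, y) = (x̄, ȳ)` (`t2_mem`). Additivity: if one of the points is `0`
or `P' = - P` it is clear; if `P' = P`, `t2_y` shows that `ȳ = 0` only if `y = 0` and the doubling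
formula can be reduced; if `P' ≠ ± P` then `x̄ ≠ x̄'` (`t2_inj` for `P` and `± P'`) and the chord
formula can be reduced. -/
theorem exists_red {C : Type} [Field C] {V : ValuationSubring C} {e : Fin 3 → C} (hc : Cv e)
    (hV : GoodRed V e) :
    ∃ red : T2 (Pt e) →+ Pt (redE hV), Function.Injective red ∧
      ∀ x y h ht, ∃ (hx : x ∈ V) (hy : y ∈ V) (h' : _), red ⟨aff hc x y h, ht⟩ =
        aff (cv_redE hV) (residue V ⟨x, hx⟩) (residue V ⟨y, hy⟩) h' := by
  choose f hf using r2_exists hc hV
  let red : T2 (Pt e) →+ Pt (redE hV) := AddMonoidHom.mk' (fun P => f P.1 P.2) (by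
    intro P P'
    refine r2_unique hc hV (P.1 + P'.1) _ _ (hf _ (P + P').2) ?_
    exact r2_add hc hV P.1 P'.1 P.2 P'.2 _ _ (hf _ _) (hf _ _))
  have hred : ∀ P : T2 (Pt e), r2Rel hc hV P.1 (red P) := fun P => hf P.1 P.2
  refine ⟨red, ?_, ?_⟩
  · rw [injective_iff_map_eq_zero]
    intro P hP
    rcases hred P with ⟨h1, -⟩ | ⟨x, y, h, -, h1⟩
    · exact Subtype.ext h1
    · rw [hP] at h1
      exact absurd h1.symm (aff_ne_zero _ _ _ _)
  · intro x y h ht
    rcases hred ⟨aff hc x y h, ht⟩ with ⟨h1, -⟩ | ⟨x', y', h', h1, h2⟩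
    · exact absurd h1 (aff_ne_zero hc x y h)
    · simp only at h1
      rw [aff_inj] at h1
      obtain ⟨rfl, rfl⟩ := h1
      exact ⟨x'.2, y'.2, r2_onC hV x' y' h', h2⟩

end SC2
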