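import Pool.Agent.MP_c1dca2_ag.SC2.Base

set_option autoImplicit false

open Polynomial

namespace SC2

/-! ## [SC2-U1] a generic point from infinitely many points (file U1.lean) -/

/-- the ultrapower -/
abbrev U1L (κ : Type) : Type := Filter.Germ ((Filter.hyperfilter ℕ : Ultrafilter ℕ) : Filter ℕ) κ

/-- the ring homomorphism from sequences to the ultrapower -/
noncomputable def u1_hom (κ : Type) [Field κ] : (ℕ → κ) →+* U1L κ := Filter.Germ.coeRingHom _

theorem u1_eq_iff {κ : Type} [Field κ] (a b : ℕ → κ) :
    u1_hom κ a = u1_hom κ b ↔ ∀ᶠ n in (Filter.hyperfilter ℕ : Filter ℕ), a n = b n :=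
  Filter.Germ.coe_eq

/-- constants -/
@[reducible] noncomputable def u1_alg (κ : Type) [Field κ] : Algebra κ (U1L κ) :=
  ((u1_hom κ).comp (Pi.constRingHom ℕ κ)).toAlgebra

theorem u1_eval {κ : Type} [Field κ] (p : κ[X]) (x : ℕ → κ) :
    letI := u1_alg κ
    aeval (u1_hom κ x) p = u1_hom κ (fun n => p.eval (x n)) := by
  let := u1_alg κ
  have h1 : aeval (u1_hom κ x) p = eval₂ ((u1_hom κ).comp (Pi.constRingHom ℕ κ)) (u1_hom κ x) p :=
    rfl
  rw [h1, ← Polynomial.hom_eval₂]
  congr 1
  funext n
  have h2 := Polynomial.hom_eval₂ p (Pi.constRingHom ℕ κ) (Pi.evalRingHom (fun _ => κ) n) x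
  exact h2

/-- the limit of a sequence of points -/
def U1Lim {κ : Type} [Field κ] {e : Fin 3 → κ} (hc : Cv e) {eL : Fin 3 → U1L κ} (hcL : Cv eL)
    (P : ℕ → Pt e) (Q : Pt eL) : Prop :=
  ((∀ᶠ n in (Filter.hyperfilter ℕ : Filter ℕ), P n = 0) ∧ Q = 0) ∨
    ∃ x y : ℕ → κ, (∀ᶠ n in (Filter.hyperfilter ℕ : Filter ℕ), ∃ h, P n = aff hc (x n) (y n) h) ∧
      ∃ h, Q = aff hcL (u1_hom κ x) (u1_hom κ y) h

theorem u1_add {κ : Type} [Field κ] {e : Fin 3 → κ} (hc : Cv e) {eL : Fin 3 → U1L κ}
    (hcL : Cv eL) (heL : ∀ i, eL i = u1_hom κ (fun _ => e i)) {P P' : ℕ → Pt e} {Q Q' : Pt eL}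
    (h : U1Lim hc hcL P Q) (h' : U1Lim hc hcL P' Q') :
    U1Lim hc hcL (fun n => P n + P' n) (Q + Q') := by
  rcases h with ⟨h1, rfl⟩ | ⟨x, y, h1, hxy, rfl⟩
  · rcases h' with ⟨h2, rfl⟩ | ⟨x', y', h2, hxy', rfl⟩
    · left
      refine ⟨?_, add_zero _⟩
      filter_upwards [h1, h2] with n a1 a2
      rw [a1, a2, add_zero]
    · right
      refine ⟨x', y', ?_, hxy', zero_add _⟩
      filter_upwards [h1, h2] with n a1 a2
      obtain ⟨b, a2⟩ := a2
      exact ⟨b, by rw [a1, a2, zero_add]⟩
  · rcases h' with ⟨h2, rfl⟩ | ⟨x', y', h2, hxy', rfl⟩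
    · right
      refine ⟨x, y, ?_, hxy, add_zero _⟩
      filter_upwards [h1, h2] with n a1 a2
      obtain ⟨b, a1⟩ := a1
      exact ⟨b, by rw [a1, a2, add_zero]⟩
    · by_cases hx : ∀ᶠ n in (Filter.hyperfilter ℕ : Filter ℕ), x n = x' n
      · have hsq : ∀ᶠ n in (Filter.hyperfilter ℕ : Filter ℕ), y' n = -y n ∨ y' n = y n := by
          filter_upwards [h1, h2, hx] with n a1 a2 a3
          obtain ⟨b1, -⟩ := a1
          obtain ⟨b2, -⟩ := a2
          rw [← a3] at b2
          rw [OnC] at b1 b2
          have h3 : (y' n + y n) * (y' n - y n) = 0 := by linear_combination b2 - b1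
          rcases mul_eq_zero.1 h3 with h4 | h4
          · exact Or.inl (by linear_combination h4)
          · exact Or.inr (by linear_combination h4)
        have hxe : u1_hom κ x = u1_hom κ x' := (u1_eq_iff x x').2 hx
        rcases (Ultrafilter.eventually_or).1 hsq with hy | hy
        · left
          constructor
          · filter_upwards [h1, h2, hx, hy] with n a1 a2 a3 a4
            obtain ⟨b1, a1⟩ := a1
            obtain ⟨b2, a2⟩ := a2
            have h5 : aff hc (x' n) (y' n) b2 = -aff hc (x n) (y n) b1 := by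
              rw [neg_aff, aff_inj]
              exact ⟨a3.symm, a4⟩
            rw [a1, a2, h5, add_neg_cancel]
          · have hye : u1_hom κ y' = -u1_hom κ y := by
              rw [← map_neg, u1_eq_iff]
              exact hy
            have h5 : aff hcL (u1_hom κ x') (u1_hom κ y') hxy' =
                -aff hcL (u1_hom κ x) (u1_hom κ y) hxy := by
              rw [neg_aff, aff_inj]
              exact ⟨hxe.symm, hye⟩
            rw [h5, add_neg_cancel]
        · by_cases hy0 : ∀ᶠ n in (Filter.hyperfilter ℕ : Filter ℕ), y n = 0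
          · left
            constructor
            · filter_upwards [h1, h2, hx, hy, hy0] with n a1 a2 a3 a4 a5
              obtain ⟨b1, a1⟩ := a1
              obtain ⟨b2, a2⟩ := a2
              have h5 : aff hc (x' n) (y' n) b2 = aff hc (x n) (y n) b1 := by
                rw [aff_inj]
                exact ⟨a3.symm, a4⟩
              rw [a1, a2, h5]
              exact (aff_two_zero hc _ _ _).2 a5
            · have hye : u1_hom κ y' = u1_hom κ y := (u1_eq_iff y' y).2 hy
              have hy0' : u1_hom κ y = 0 := by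
                rw [← map_zero (u1_hom κ), u1_eq_iff]
                exact hy0
              have h5 : aff hcL (u1_hom κ x') (u1_hom κ y') hxy' =
                  aff hcL (u1_hom κ x) (u1_hom κ y) hxy := by
                rw [aff_inj]
                exact ⟨hxe.symm, hye⟩
              rw [h5]
              exact (aff_two_zero hcL _ _ _).2 hy0'
          · right
            have hy1 : ∀ᶠ n in (Filter.hyperfilter ℕ : Filter ℕ), y n ≠ 0 :=
              Ultrafilter.eventually_not.2 hy0
            set l : ℕ → κ := fun n => ((x n - e 0) * (x n - e 1) + (x n - e 1) * (x n - e 2) +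
              (x n - e 2) * (x n - e 0)) / (2 * y n) with hl
            set x₃ : ℕ → κ := fun n => l n ^ 2 + (e 0 + e 1 + e 2) - x n - x n with hx3
            set y₃ : ℕ → κ := fun n => -(y n + l n * (x₃ n - x n)) with hy3
            refine ⟨x₃, y₃, ?_, ?_⟩
            · filter_upwards [h1, h2, hx, hy, hy1] with n a1 a2 a3 a4 a5
              obtain ⟨b1, a1⟩ := a1
              obtain ⟨b2, a2⟩ := a2
              have h5 : aff hc (x' n) (y' n) b2 = aff hc (x n) (y n) b1 := by
                rw [aff_inj]
                exact ⟨a3.symm, a4⟩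
              rw [a1, a2, h5]
              exact add_aff_self hc _ _ b1 (l n) (x₃ n) (y₃ n) a5
                (div_mul_cancel₀ _ (mul_ne_zero hc.two a5)) rfl rfl
            · have hye : u1_hom κ y' = u1_hom κ y := (u1_eq_iff y' y).2 hy
              have hy0' : u1_hom κ y ≠ 0 := by
                intro h0
                rw [← map_zero (u1_hom κ), u1_eq_iff] at h0
                exact hy0 h0
              have h5 : aff hcL (u1_hom κ x') (u1_hom κ y') hxy' =
                  aff hcL (u1_hom κ x) (u1_hom κ y) hxy := by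
                rw [aff_inj]
                exact ⟨hxe.symm, hye⟩
              rw [h5]
              refine add_aff_self hcL _ _ hxy (u1_hom κ l) (u1_hom κ x₃) (u1_hom κ y₃) hy0'
                ?_ ?_ ?_
              · rw [heL, heL, heL]
                have h6 : u1_hom κ (fun n => l n * (2 * y n)) =
                    u1_hom κ (fun n => (x n - e 0) * (x n - e 1) + (x n - e 1) * (x n - e 2) +
                      (x n - e 2) * (x n - e 0)) := by
                  rw [u1_eq_iff]
                  filter_upwards [hy1] with n a5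
                  exact div_mul_cancel₀ _ (mul_ne_zero hc.two a5)
                exact h6
              · rw [heL, heL, heL]
                rfl
              · rfl
      · right
        have hx1 : ∀ᶠ n in (Filter.hyperfilter ℕ : Filter ℕ), x n ≠ x' n :=
          Ultrafilter.eventually_not.2 hx
        set l : ℕ → κ := fun n => (y n - y' n) / (x n - x' n) with hl
        set x₃ : ℕ → κ := fun n => l n ^ 2 + (e 0 + e 1 + e 2) - x n - x' n with hx3
        set y₃ : ℕ → κ := fun n => -(y n + l n * (x₃ n - x n)) with hy3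
        refine ⟨x₃, y₃, ?_, ?_⟩
        · filter_upwards [h1, h2, hx1] with n a1 a2 a3
          obtain ⟨b1, a1⟩ := a1
          obtain ⟨b2, a2⟩ := a2
          rw [a1, a2]
          exact add_aff_of_ne hc _ _ b1 _ _ b2 a3 (l n) (x₃ n) (y₃ n)
            (div_mul_cancel₀ _ (sub_ne_zero.2 a3)) rfl rfl
        · have hxe : u1_hom κ x ≠ u1_hom κ x' := by
            intro h0
            exact hx ((u1_eq_iff x x').1 h0)
          refine add_aff_of_ne hcL _ _ hxy _ _ hxy' hxe (u1_hom κ l) (u1_hom κ x₃) (u1_hom κ y₃)
            ?_ ?_ ?_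
          · have h6 : u1_hom κ (fun n => l n * (x n - x' n)) = u1_hom κ (fun n => y n - y' n) := by
              rw [u1_eq_iff]
              filter_upwards [hx1] with n a5
              exact div_mul_cancel₀ _ (sub_ne_zero.2 a5)
            exact h6
          · rw [heL, heL, heL]
            rfl
          · rfl

theorem u1_smul {κ : Type} [Field κ] {e : Fin 3 → κ} (hc : Cv e) {eL : Fin 3 → U1L κ}
    (hcL : Cv eL) (heL : ∀ i, eL i = u1_hom κ (fun _ => e i)) {P : ℕ → Pt e} {Q : Pt eL}
    (h : U1Lim hc hcL P Q) (m : ℕ) : U1Lim hc hcL (fun n => m • P n) (m • Q) := by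
  induction m with
  | zero =>
    left
    exact ⟨Filter.Eventually.of_forall fun n => zero_smul _ _, zero_smul _ _⟩
  | succ m ih =>
    have h1 := u1_add hc hcL heL ih h
    have h2 : (fun n => (m + 1) • P n) = fun n => m • P n + P n := by
      funext n
      exact succ_nsmul _ _
    rw [h2, succ_nsmul]
    exact h1

/-- Let `L` be the ultrapower of `κ` along a nonprincipal ultrafilter on `ℕ`
(`Filter.Germ (Filter.hyperfilter ℕ : Filter ℕ) κ`, a field, Mathlib.Order.Filter.FilterProduct),
`X`, `Y` the germs of `x`, `y`. `X` is transcendental over `κ`: a nonzero polynomial has finitely many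
roots and `x` is injective. Show by induction on `m` that `m • (X, Y)` is `0` if `{n | m • Pₙ = 0}` is
in the ultrafilter and otherwise is the point whose coordinates are the germs of the coordinates
of `m • Pₙ` (or: the map from sequences of points to points over `L` defined this way is additive;
by the ultrafilter dichotomy one of the cases of the addition law holds on a large set:
`add_aff_of_ne`, `add_aff_self`, `neg_aff`, `aff_two_zero`). -/
theorem exists_generic {κ : Type} [Field κ] {e : Fin 3 → κ} (hc : Cv e) (x y : ℕ → κ)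
    (h : ∀ n, OnC e (x n) (y n)) (hx : Function.Injective x) (q : ℕ)
    (h' : ∀ n, OnC e (x n ^ q) (y n ^ q))
    (hq : ∀ n, q • aff hc (x n) (y n) (h n) = aff hc (x n ^ q) (y n ^ q) (h' n)) :
    ∃ (L : Type) (_ : Field L) (_ : Algebra κ L) (X Y : L)
      (hcL : Cv (fun i => algebraMap κ L (e i)))
      (hXY : OnC (fun i => algebraMap κ L (e i)) X Y)
      (hXY' : OnC (fun i => algebraMap κ L (e i)) (X ^ q) (Y ^ q)), Transcendental κ X ∧
        q • aff hcL X Y hXY = aff hcL (X ^ q) (Y ^ q) hXY' := by
  let alg : Algebra κ (U1L κ) := u1_alg κ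
  have heL : ∀ i, algebraMap κ (U1L κ) (e i) = u1_hom κ (fun _ => e i) := fun _ => rfl
  have hcL : Cv (fun i => algebraMap κ (U1L κ) (e i)) := by
    constructor
    · have h2 : (2 : U1L κ) = algebraMap κ (U1L κ) 2 := by rw [map_ofNat]
      rw [h2]
      exact (map_ne_zero (algebraMap κ (U1L κ))).2 hc.two
    · exact (algebraMap κ (U1L κ)).injective.comp hc.inj
  have hon : ∀ a b : ℕ → κ, (∀ n, OnC e (a n) (b n)) →
      OnC (fun i => algebraMap κ (U1L κ) (e i)) (u1_hom κ a) (u1_hom κ b) := by
    intro a b hab
    have h1 : u1_hom κ (fun n => b n ^ 2) =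
        u1_hom κ (fun n => (a n - e 0) * (a n - e 1) * (a n - e 2)) := by
      rw [u1_eq_iff]
      exact Filter.Eventually.of_forall hab
    exact h1
  have hXY := hon x y h
  have hXY' := hon (fun n => x n ^ q) (fun n => y n ^ q) h'
  have hX : u1_hom κ (fun n => x n ^ q) = (u1_hom κ x) ^ q := (map_pow (u1_hom κ) x q)
  have hY : u1_hom κ (fun n => y n ^ q) = (u1_hom κ y) ^ q := (map_pow (u1_hom κ) y q)
  rw [hX, hY] at hXY'
  refine ⟨U1L κ, inferInstance, alg, u1_hom κ x, u1_hom κ y, hcL, hXY, hXY', ?_, ?_⟩
  · rintro ⟨p, hp, hpx⟩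
    have h1 := u1_eval p x
    have h2 : u1_hom κ (fun n => p.eval (x n)) = u1_hom κ 0 := by
      rw [map_zero, ← h1]
      exact hpx
    rw [u1_eq_iff] at h2
    have h3 : {n | p.eval (x n) = 0}.Finite := by
      classical
      have h4 : {n | p.eval (x n) = 0} = x ⁻¹' (↑p.roots.toFinset : Set κ) := by
        ext n
        simp [Polynomial.mem_roots hp, Polynomial.IsRoot.def]
      rw [h4]
      exact (p.roots.toFinset.finite_toSet).preimage hx.injOn
    exact Filter.notMem_hyperfilter_of_finite h3 h2
  · have hlim : U1Lim hc hcL (fun n => aff hc (x n) (y n) (h n))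
        (aff hcL (u1_hom κ x) (u1_hom κ y) hXY) :=
      Or.inr ⟨x, y, Filter.Eventually.of_forall fun n => ⟨h n, rfl⟩, hXY, rfl⟩
    have hlq := u1_smul hc hcL heL hlim q
    rcases hlq with ⟨h1, -⟩ | ⟨x', y', h1, hxy', h2⟩
    · exfalso
      obtain ⟨n, hn⟩ := h1.exists
      simp only [hq n] at hn
      exact aff_ne_zero hc _ _ _ hn
    · rw [h2, aff_inj, ← hX, ← hY, u1_eq_iff, u1_eq_iff]
      constructor
      · filter_upwards [h1] with n a1
        obtain ⟨b, a1⟩ := a1
        simp only [hq n, aff_inj] at a1
        exact a1.1.symm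
      · filter_upwards [h1] with n a1
        obtain ⟨b, a1⟩ := a1
        simp only [hq n, aff_inj] at a1
        exact a1.2.symm

end SC2
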